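import Mathlib

/-!
# A local-to-global theorem for tilings by polyhedral tiles

`Q` is a set of tiles. The tile `q` is the set of points `x` at which the functional `h q` is at
most `h q'` for the neighbours `q'` of `q`, and all the functionals in `Φ q` are nonnegative.
-/

namespace Pool.Agent.Lib.MP_d585ae_al.Tile

open Set Filter Topology

variable {V : Type*} [AddCommGroup V] [Module ℝ V] [TopologicalSpace V]
  [IsTopologicalAddGroup V] [ContinuousSMul ℝ V]

/-- the point at time `t` on the segment from `x` to `y` -/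
def seg (x y : V) (t : ℝ) : V := x + t • (y - x)

/-- continuous functions that are affine on segments -/
def Aff (f : V → ℝ) : Prop :=
  Continuous f ∧ ∀ x y (t : ℝ), f (seg x y t) = (1 - t) * f x + t * f y

omit [IsTopologicalAddGroup V] [ContinuousSMul ℝ V] [TopologicalSpace V] in
theorem seg_zero (x y : V) : seg x y 0 = x := by simp [seg]

omit [IsTopologicalAddGroup V] [ContinuousSMul ℝ V] [TopologicalSpace V] in
theorem seg_one (x y : V) : seg x y 1 = y := by simp [seg]

omit [IsTopologicalAddGroup V] [ContinuousSMul ℝ V] [TopologicalSpace V] in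
theorem seg_self (x : V) (t : ℝ) : seg x x t = x := by simp [seg]

omit [IsTopologicalAddGroup V] [ContinuousSMul ℝ V] [TopologicalSpace V] in
theorem seg_seg (x y : V) (s t : ℝ) : seg x (seg x y t) s = seg x y (s * t) := by
  simp [seg, smul_smul]

omit [IsTopologicalAddGroup V] [ContinuousSMul ℝ V] [TopologicalSpace V] in
/-- a point of a segment with respect to a subsegment -/
theorem seg_sub (x y : V) (s t : ℝ) (r : ℝ) :
    seg (seg x y s) (seg x y t) r = seg x y ((1 - r) * s + r * t) := by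
  simp only [seg]
  module

theorem seg_cont (x : V) : Continuous fun z : V × ℝ => seg x z.1 z.2 := by
  unfold seg; fun_prop

/-- a system of tiles -/
structure Sys (V Q : Type*) where
  h : Q → V → ℝ
  N : Q → Finset Q
  Φ : Q → Set (V → ℝ)

/-- the tile -/
def Sys.P {Q : Type*} (T : Sys V Q) (q : Q) : Set V :=
  {x | (∀ q' ∈ T.N q, T.h q x ≤ T.h q' x) ∧ ∀ f ∈ T.Φ q, 0 ≤ f x}

/-- a regular point of the tile `v`: all walls of all tiles that meet there are positive -/
def Sys.Reg {Q : Type*} (T : Sys V Q) (v : Q) (y : V) : Prop :=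
  y ∈ T.P v ∧ ∀ w, (w = v ∨ w ∈ T.N v) → T.h w y = T.h v y → ∀ f ∈ T.Φ w, 0 < f y

/-- the local hypotheses -/
structure Sys.Good {Q : Type*} (T : Sys V Q) (q0 : Q) (x0 : V) (ε c0 : ℝ) (K : ℕ) : Prop where
  eps : 0 < ε
  cpos : 0 < c0
  affh : ∀ q, Aff (T.h q)
  affΦ : ∀ q, ∀ f ∈ T.Φ q, Aff f
  fin : ∀ q, (T.Φ q).Finite
  symm : ∀ q, ∀ q' ∈ T.N q, q ∈ T.N q'
  card : ∀ q, (T.N q).card ≤ K
  pos : ∀ q, ∀ x ∈ T.P q, c0 ≤ T.h q x
  gap : ∀ q, ∀ q' ∈ T.N q, ∀ q'' ∈ T.N q', q'' = q ∨ q'' ∈ T.N q ∨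
    ∀ x ∈ T.P q, (1 + ε) * T.h q x ≤ T.h q'' x
  clos : ∀ q, ∀ q' ∈ T.N q, ∀ f ∈ T.Φ q', ∀ x ∈ T.P q, 0 ≤ f x
  nz : ∀ q, ∀ f ∈ T.Φ q, ∃ b, f b ≠ 0
  base : ∀ q ∈ T.N q0, T.h q0 x0 < T.h q x0
  baseΦ : ∀ f ∈ T.Φ q0, 0 < f x0
  conn : ∀ q, Relation.ReflTransGen (fun a b => b ∈ T.N a) q0 q
  facet : ∀ q, ∀ q' ∈ T.N q, ∃ x, T.Reg q x ∧ T.h q' x = T.h q x

/-- the tile `v` at the point `y` is reached from `x0` along the segment, with `n` crossings -/
def Sys.Vis {Q : Type*} (T : Sys V Q) (q0 : Q) (x0 : V) : ℕ → Q → V → Prop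
  | 0, v, y => v = q0 ∧ y ∈ T.P q0
  | n + 1, v, y => ∃ w, v ∈ T.N w ∧ ∃ t ∈ Icc (0 : ℝ) 1, Sys.Vis T q0 x0 n w (seg x0 y t) ∧
      seg x0 y t ∈ T.P v ∧ y ∈ T.P v

variable {Q : Type*} {T : Sys V Q} {q0 : Q} {x0 : V} {ε c0 : ℝ} {K : ℕ}

section elementary
omit [IsTopologicalAddGroup V] [ContinuousSMul ℝ V]

theorem Sys.Good.conv (G : T.Good q0 x0 ε c0 K) {q : Q} {x y : V} (hx : x ∈ T.P q)
    (hy : y ∈ T.P q) {t : ℝ} (h0 : 0 ≤ t) (h1 : t ≤ 1) : seg x y t ∈ T.P q := by
  constructor
  · intro q' hq'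
    rw [(G.affh q).2, (G.affh q').2]
    have a := hx.1 q' hq'
    have b := hy.1 q' hq'
    have c := mul_le_mul_of_nonneg_left a (sub_nonneg.2 h1)
    have d := mul_le_mul_of_nonneg_left b h0
    linarith
  · intro f hf
    rw [(G.affΦ q f hf).2]
    have a := hx.2 f hf
    have b := hy.2 f hf
    have c := mul_nonneg (sub_nonneg.2 h1) a
    have d := mul_nonneg h0 b
    linarith

theorem Sys.Good.hpos (G : T.Good q0 x0 ε c0 K) {q : Q} {x : V} (hx : x ∈ T.P q) :
    0 < T.h q x := lt_of_lt_of_le G.cpos (G.pos q x hx)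

theorem Sys.Good.glue (G : T.Good q0 x0 ε c0 K) {v w : Q} {x : V} (hx : x ∈ T.P v)
    (hw : w ∈ T.N v) (he : T.h w x = T.h v x) : x ∈ T.P w := by
  constructor
  · intro q'' hq''
    rw [he]
    rcases G.gap v w hw q'' hq'' with h | h | h
    · rw [h]
    · exact hx.1 _ h
    · have h1 := h x hx
      have h2 := G.hpos hx
      have h3 := mul_pos G.eps h2
      linarith
  · intro f hf
    exact G.clos v w hw f hf x hx

/-- tiles that meet at a point are pairwise neighbours -/
theorem Sys.Good.clique (G : T.Good q0 x0 ε c0 K) {v w w' : Q} {x : V} (hx : x ∈ T.P v)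
    (hw : w = v ∨ w ∈ T.N v) (hw' : w' = v ∨ w' ∈ T.N v) (he : T.h w x = T.h v x)
    (he' : T.h w' x = T.h v x) : w' = w ∨ w' ∈ T.N w := by
  rcases hw with rfl | hw
  · exact hw'
  · have hwv := G.symm v w hw
    rcases hw' with rfl | hw'
    · exact Or.inr hwv
    · have hxw := G.glue hx hw he
      rcases G.gap w v hwv w' hw' with h | h | h
      · exact Or.inl h
      · exact Or.inr h
      · have h1 := h x hxw
        have h2 := G.hpos hxw
        have h3 := mul_pos G.eps h2
        rw [he', he] at h1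
        rw [he] at h3
        linarith

theorem Sys.Good.x0mem (G : T.Good q0 x0 ε c0 K) : x0 ∈ T.P q0 :=
  ⟨fun q hq => (G.base q hq).le, fun f hf => (G.baseΦ f hf).le⟩

omit [TopologicalSpace V] in
theorem vis_mem {n : ℕ} {v : Q} {y : V} (h : T.Vis q0 x0 n v y) : y ∈ T.P v := by
  cases n with
  | zero => rw [h.1]; exact h.2
  | succ n =>
    obtain ⟨w, _, t, _, _, _, h5⟩ := h
    exact h5

omit [TopologicalSpace V] in
theorem vis_ext {n : ℕ} {v : Q} {y : V} {s : ℝ} (h : T.Vis q0 x0 n v (seg x0 y s))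
    (h0 : 0 ≤ s) (h1 : s ≤ 1) (hy : y ∈ T.P v) : T.Vis q0 x0 n v y := by
  cases n with
  | zero => exact ⟨h.1, h.1 ▸ hy⟩
  | succ n =>
    obtain ⟨w, hw, t, ht, hv, hm, _⟩ := h
    rw [seg_seg] at hv hm
    exact ⟨w, hw, t * s, ⟨mul_nonneg ht.1 h0, mul_le_one₀ ht.2 h0 h1⟩, hv, hm, hy⟩

omit [TopologicalSpace V] in
theorem vis_ext' {n : ℕ} {v : Q} {y : V} {s t : ℝ} (h : T.Vis q0 x0 n v (seg x0 y s))
    (h0 : 0 ≤ s) (h1 : s ≤ t) (hy : seg x0 y t ∈ T.P v) : T.Vis q0 x0 n v (seg x0 y t) := by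
  rcases eq_or_lt_of_le (le_trans h0 h1) with ht | ht
  · have : s = t := le_antisymm h1 (ht ▸ h0)
    rw [← this]; exact h
  · refine vis_ext (s := s / t) ?_ (div_nonneg h0 ht.le) ((div_le_one ht).2 h1) hy
    rw [seg_seg, div_mul_cancel₀ _ ht.ne']
    exact h

theorem Sys.Good.vis_cross (G : T.Good q0 x0 ε c0 K) {n : ℕ} {v w : Q} {y : V}
    (h : T.Vis q0 x0 n v y) (hw : w ∈ T.N v) (he : T.h w y = T.h v y) :
    T.Vis q0 x0 (n + 1) w y := by
  have h1 := G.glue (vis_mem h) hw he
  refine ⟨v, hw, 1, ⟨zero_le_one, le_rfl⟩, ?_, ?_, h1⟩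
  · rw [seg_one]; exact h
  · rw [seg_one]; exact h1

theorem Sys.Good.vis_C (G : T.Good q0 x0 ε c0 K) {n : ℕ} {v w : Q} {y : V}
    (h : T.Vis q0 x0 n v y) (hw : w = v ∨ w ∈ T.N v) (he : T.h w y = T.h v y) :
    ∃ m, T.Vis q0 x0 m w y := by
  rcases hw with rfl | hw
  · exact ⟨n, h⟩
  · exact ⟨n + 1, G.vis_cross h hw he⟩

theorem Sys.Good.vis_x0 (G : T.Good q0 x0 ε c0 K) {n : ℕ} {v : Q}
    (h : T.Vis q0 x0 n v x0) : n = 0 ∧ v = q0 := by
  induction n generalizing v with
  | zero => exact ⟨rfl, h.1⟩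
  | succ n ih =>
    exfalso
    obtain ⟨w, hw, t, ht, hv, hm, hy⟩ := h
    rw [seg_self] at hv
    obtain ⟨_, rfl⟩ := ih hv
    have h1 := hy.1 w (G.symm w v hw)
    have h2 := G.base v hw
    linarith

/-- a shortest chain -/
def Min (T : Sys V Q) (q0 : Q) (x0 : V) (n : ℕ) (v : Q) (y : V) : Prop :=
  T.Vis q0 x0 n v y ∧ ∀ m < n, ¬ T.Vis q0 x0 m v y

omit [TopologicalSpace V] in
theorem exists_min {n : ℕ} {v : Q} {y : V} (h : T.Vis q0 x0 n v y) :
    ∃ m ≤ n, Min T q0 x0 m v y := by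
  classical
  have hex : ∃ n, T.Vis q0 x0 n v y := ⟨n, h⟩
  exact ⟨Nat.find hex, Nat.find_min' hex h, Nat.find_spec hex, fun m hm => Nat.find_min hex hm⟩

/-- the last step of a shortest chain -/
theorem Sys.Good.min_step (G : T.Good q0 x0 ε c0 K) {n : ℕ} {v : Q} {y : V}
    (h : Min T q0 x0 (n + 1) v y) : ∃ w, v ∈ T.N w ∧ ∃ t, 0 < t ∧ t ≤ 1 ∧
      Min T q0 x0 n w (seg x0 y t) ∧ seg x0 y t ∈ T.P v ∧ y ∈ T.P v ∧
      T.h w x0 ≤ T.h v x0 ∧ (n = 0 → T.h w x0 < T.h v x0) := by
  obtain ⟨⟨w, hw, t, ht, hv, hm, hy⟩, hmin⟩ := h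
  have hwv := G.symm w v hw
  have hminw : Min T q0 x0 n w (seg x0 y t) := by
    refine ⟨hv, fun m hm' hv' => hmin (m + 1) (by omega) ⟨w, hw, t, ht, hv', hm, hy⟩⟩
  have ht0 : 0 < t := by
    rcases eq_or_lt_of_le ht.1 with h0 | h0
    · exfalso
      rw [← h0, seg_zero] at hv hm
      obtain ⟨h1, rfl⟩ := G.vis_x0 hv
      have h2 := hm.1 w hwv
      have h3 := G.base v hw
      linarith
    · exact h0
  have key : T.h w x0 ≤ T.h v x0 ∧ (n = 0 → T.h w x0 < T.h v x0) := by
    cases n with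
    | zero =>
      obtain ⟨rfl, _⟩ := hv
      exact ⟨(G.base v hw).le, fun _ => G.base v hw⟩
    | succ m =>
      refine ⟨?_, fun h => absurd h (Nat.succ_ne_zero m)⟩
      have hzw := vis_mem hv
      obtain ⟨w0, hw0, t0, ht00, hv0, hm0, _⟩ := hv
      have hz0 := vis_mem hv0
      have he : T.h v (seg x0 y t) = T.h w (seg x0 y t) :=
        le_antisymm (hm.1 w hwv) (hzw.1 v hw)
      rcases eq_or_lt_of_le ht00.2 with h1 | h1
      · exfalso
        rw [h1, seg_one] at hv0 hz0
        have he0 : T.h w0 (seg x0 y t) = T.h w (seg x0 y t) :=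
          le_antisymm (hz0.1 w hw0) (hzw.1 w0 (G.symm w0 w hw0))
        rcases G.clique hzw (Or.inr (G.symm w0 w hw0)) (Or.inr hw) he0 he with h2 | h2
        · rw [← h2] at hv0
          exact hmin m (by omega) (vis_ext hv0 ht.1 ht.2 hy)
        · exact hmin (m + 1) (by omega) ⟨w0, h2, t, ht, hv0, hm, hy⟩
      · have h2 := hm0.1 v hw
        rw [(G.affh w).2, (G.affh v).2, he] at h2
        have h3 : 0 < 1 - t0 := by linarith
        have h4 : (1 - t0) * T.h w x0 ≤ (1 - t0) * T.h v x0 := by linarith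
        exact le_of_mul_le_mul_left h4 h3
  exact ⟨w, hw, t, ht0, ht.2, hminw, hm, hy, key.1, key.2⟩

theorem Sys.Good.min_lt (G : T.Good q0 x0 ε c0 K) {n : ℕ} {v : Q} {y : V}
    (h : Min T q0 x0 (n + 1) v y) : T.h q0 x0 < T.h v x0 := by
  induction n generalizing v y with
  | zero =>
    obtain ⟨w, hw, t, _, _, hmin, _, _, _, hlt⟩ := G.min_step h
    rw [← hmin.1.1]
    exact hlt rfl
  | succ n ih =>
    obtain ⟨w, hw, t, _, _, hmin, _, _, hle, _⟩ := G.min_step h
    exact lt_of_lt_of_le (ih hmin) hle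

/-- the tiles of a shortest chain -/
theorem Sys.Good.chain (G : T.Good q0 x0 ε c0 K) {n : ℕ} {v : Q} {y : V}
    (h : Min T q0 x0 n v y) : ∃ c : ℕ → Q, c 0 = q0 ∧ c n = v ∧
      (∀ i < n, c (i + 1) ∈ T.N (c i)) ∧ (∀ i < n, T.h (c i) x0 ≤ T.h (c (i + 1)) x0) ∧
      (∀ i < n, T.h (c (i + 1)) y ≤ T.h (c i) y) ∧
      (∀ i ≤ n, ∃ t ∈ Icc (0 : ℝ) 1, T.Vis q0 x0 i (c i) (seg x0 y t)) ∧
      (∀ i j, i < j → j ≤ n → c i ≠ c j) := by
  induction n generalizing v y with
  | zero =>
    refine ⟨fun _ => q0, rfl, h.1.1.symm, by omega, by omega, by omega, ?_, by omega⟩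
    intro i hi
    have : i = 0 := by omega
    subst this
    refine ⟨1, ⟨zero_le_one, le_rfl⟩, rfl, ?_⟩
    rw [seg_one]; exact h.1.2
  | succ n ih =>
    obtain ⟨w, hw, t, ht0, ht1, hmin, hm, hy, hle, _⟩ := G.min_step h
    obtain ⟨c, c1, c2, c3, c4, c5, c6, c7⟩ := ih hmin
    have hc : ∀ i ≤ n, (if i ≤ n then c i else v) = c i := fun i hi => by simp [hi]
    have hc' : (if n + 1 ≤ n then c (n + 1) else v) = v := by simp
    refine ⟨fun i => if i ≤ n then c i else v, ?_, ?_, ?_, ?_, ?_, ?_, ?_⟩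
    · simpa using c1
    · simp
    · intro i hi
      rcases Nat.lt_succ_iff_lt_or_eq.1 hi with h1 | h1
      · simp only [hc i (by omega), hc (i + 1) (by omega)]
        exact c3 i h1
      · subst h1
        simp only [hc', c2, le_refl, if_true]
        exact hw
    · intro i hi
      rcases Nat.lt_succ_iff_lt_or_eq.1 hi with h1 | h1
      · simp only [hc i (by omega), hc (i + 1) (by omega)]
        exact c4 i h1
      · subst h1
        simp only [hc', c2, le_refl, if_true]
        exact hle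
    · intro i hi
      rcases Nat.lt_succ_iff_lt_or_eq.1 hi with h1 | h1
      · simp only [hc i (by omega), hc (i + 1) (by omega)]
        have a1 := c4 i h1
        have a2 := c5 i h1
        rw [(G.affh _).2, (G.affh _).2] at a2
        have a3 := mul_le_mul_of_nonneg_left a1 (sub_nonneg.2 ht1)
        have a4 : t * T.h (c (i + 1)) y ≤ t * T.h (c i) y := by linarith
        exact le_of_mul_le_mul_left a4 ht0
      · subst h1
        simp only [hc', c2, le_refl, if_true]
        exact hy.1 w (G.symm w v hw)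
    · intro i hi
      rcases Nat.lt_succ_iff_lt_or_eq.1 (Nat.lt_succ_of_le hi) with h1 | h1
      · obtain ⟨s, hs, hvs⟩ := c6 i (by omega)
        rw [seg_seg] at hvs
        simp only [hc i (by omega)]
        exact ⟨s * t, ⟨mul_nonneg hs.1 ht0.le, mul_le_one₀ hs.2 ht0.le ht1⟩, hvs⟩
      · subst h1
        simp only [hc']
        refine ⟨1, ⟨zero_le_one, le_rfl⟩, ?_⟩
        rw [seg_one]; exact h.1
    · intro i j hij hj
      rcases Nat.lt_succ_iff_lt_or_eq.1 (Nat.lt_succ_of_le hj) with h1 | h1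
      · simp only [hc i (by omega), hc j (by omega)]
        exact c7 i j hij (by omega)
      · subst h1
        simp only [hc', hc i (by omega)]
        intro he
        obtain ⟨s, hs, hvs⟩ := c6 i (by omega)
        rw [seg_seg, he] at hvs
        exact h.2 i (by omega) (vis_ext hvs (mul_nonneg hs.1 ht0.le)
          (mul_le_one₀ hs.2 ht0.le ht1) hy)

/-- along a chain the values at `x0` increase by `ε c0` in every `K + 1` steps -/
theorem Sys.Good.block (G : T.Good q0 x0 ε c0 K) {n : ℕ} {y : V} {c : ℕ → Q}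
    (c3 : ∀ i < n, c (i + 1) ∈ T.N (c i)) (c4 : ∀ i < n, T.h (c i) x0 ≤ T.h (c (i + 1)) x0)
    (c5 : ∀ i < n, T.h (c (i + 1)) y ≤ T.h (c i) y)
    (c6 : ∀ i ≤ n, ∃ t ∈ Icc (0 : ℝ) 1, T.Vis q0 x0 i (c i) (seg x0 y t))
    (c7 : ∀ i j, i < j → j ≤ n → c i ≠ c j) (i : ℕ) (hi : i + (K + 1) ≤ n) :
    T.h (c i) x0 + ε * c0 ≤ T.h (c (i + (K + 1))) x0 := by
  classical
  have mono : ∀ a k, a + k ≤ n → T.h (c a) x0 ≤ T.h (c (a + k)) x0 := by
    intro a k
    induction k with
    | zero => intro _; exact le_rfl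
    | succ k ih =>
      intro hk
      exact le_trans (ih (by omega)) (c4 (a + k) (by omega))
  have anti : ∀ a k, a + k ≤ n → T.h (c (a + k)) y ≤ T.h (c a) y := by
    intro a k
    induction k with
    | zero => intro _; exact le_rfl
    | succ k ih =>
      intro hk
      exact le_trans (c5 (a + k) (by omega)) (ih (by omega))
  -- some tile of the block is not a neighbour
  have hex : ∃ k, 1 ≤ k ∧ k ≤ K + 1 ∧ c (i + k) ∉ T.N (c i) := by
    by_contra hno
    push Not at hno
    have h1 : (Finset.univ : Finset (Fin (K + 1))).card ≤ (T.N (c i)).card := by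
      apply Finset.card_le_card_of_injOn (fun k : Fin (K + 1) => c (i + (k.val + 1)))
      · intro k _
        exact hno (k.val + 1) (by omega) (by omega)
      · intro a _ b _ hab
        by_contra hne
        rcases Nat.lt_or_gt_of_ne (fun h => hne (Fin.ext h)) with h | h
        · exact c7 (i + (a.val + 1)) (i + (b.val + 1)) (by omega) (by omega) hab
        · exact c7 (i + (b.val + 1)) (i + (a.val + 1)) (by omega) (by omega) hab.symm
    have h2 := G.card (c i)
    simp only [Finset.card_univ, Fintype.card_fin] at h1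
    omega
  have hk := Nat.find_spec hex
  have hk' := fun m => Nat.find_min hex (m := m)
  set k := Nat.find hex with hkdef
  obtain ⟨k1, k2, k3⟩ := hk
  have hk2 : 2 ≤ k := by
    by_contra hlt
    have : k = 1 := by omega
    rw [this] at k3
    exact k3 (c3 i (by omega))
  have h1 : c (i + (k - 1)) ∈ T.N (c i) := by
    by_contra h
    exact hk' (k - 1) (by omega) ⟨by omega, by omega, h⟩
  have h2 : c (i + k) ∈ T.N (c (i + (k - 1))) := by
    have := c3 (i + (k - 1)) (by omega)
    have e : i + (k - 1) + 1 = i + k := by omega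
    rwa [e] at this
  obtain ⟨t, ht, hv⟩ := c6 i (by omega)
  have hz := vis_mem hv
  have hgap : (1 + ε) * T.h (c i) (seg x0 y t) ≤ T.h (c (i + k)) (seg x0 y t) := by
    rcases G.gap (c i) _ h1 _ h2 with h | h | h
    · exact absurd h.symm (c7 i (i + k) (by omega) (by omega))
    · exact absurd h k3
    · exact h _ hz
  have hc0 := G.pos _ _ hz
  have h3 : ε * c0 ≤ ε * T.h (c i) (seg x0 y t) := mul_le_mul_of_nonneg_left hc0 G.eps.le
  have h4 : T.h (c i) (seg x0 y t) + ε * c0 ≤ T.h (c (i + k)) (seg x0 y t) := by linarith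
  rw [(G.affh _).2, (G.affh _).2] at h4
  have h5 := anti i k (by omega)
  have h6 := mul_le_mul_of_nonneg_left h5 ht.1
  have h7 := mono i k (by omega)
  have h8 : (1 - t) * (T.h (c (i + k)) x0 - T.h (c i) x0) ≤
      1 * (T.h (c (i + k)) x0 - T.h (c i) x0) :=
    mul_le_mul_of_nonneg_right (by linarith [ht.1]) (by linarith)
  have h9 := mono (i + k) (K + 1 - k) (by omega)
  have e : i + k + (K + 1 - k) = i + (K + 1) := by omega
  rw [e] at h9
  linarith

/-- shortest chains to a given tile are of bounded length -/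
theorem Sys.Good.bound (G : T.Good q0 x0 ε c0 K) (v : Q) :
    ∃ R : ℕ, ∀ n y, Min T q0 x0 n v y → n ≤ R := by
  obtain ⟨M, hM⟩ := exists_nat_gt ((T.h v x0 - T.h q0 x0) / (ε * c0))
  refine ⟨M * (K + 1), ?_⟩
  intro n y hmin
  by_contra hlt
  push Not at hlt
  obtain ⟨c, c1, c2, c3, c4, c5, c6, c7⟩ := G.chain hmin
  have hεc : 0 < ε * c0 := mul_pos G.eps G.cpos
  have h1 : ∀ m : ℕ, m * (K + 1) ≤ n → T.h q0 x0 + m * (ε * c0) ≤
      T.h (c (m * (K + 1))) x0 := by
    intro m
    induction m with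
    | zero => intro _; simp [c1]
    | succ m ih =>
      intro hm
      have e : (m + 1) * (K + 1) = m * (K + 1) + (K + 1) := by ring
      rw [e] at hm ⊢
      have a := ih (by omega)
      have b := G.block c3 c4 c5 c6 c7 (m * (K + 1)) hm
      push_cast
      linarith
  have mono : ∀ a k, a + k ≤ n → T.h (c a) x0 ≤ T.h (c (a + k)) x0 := by
    intro a k
    induction k with
    | zero => intro _; exact le_rfl
    | succ k ih =>
      intro hk
      exact le_trans (ih (by omega)) (c4 (a + k) (by omega))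
  have h2 := h1 M hlt.le
  have h3 := mono (M * (K + 1)) (n - M * (K + 1)) (by omega)
  have e : M * (K + 1) + (n - M * (K + 1)) = n := by omega
  rw [e, c2] at h3
  rw [div_lt_iff₀ hεc] at hM
  linarith

/-- following the lower envelope of finitely many functionals -/
theorem Sys.Good.envelope (G : T.Good q0 x0 ε c0 K) (F : Finset Q) (b : V) (k : ℕ) :
    ∀ (t0 : ℝ) (w0 : Q), 0 ≤ t0 → t0 ≤ 1 →
    (∀ t, t0 ≤ t → t ≤ 1 → ∀ w ∈ F, (∀ w' ∈ F, T.h w (seg x0 b t) ≤ T.h w' (seg x0 b t)) →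
      seg x0 b t ∈ T.P w ∧ ∀ w'' ∈ F, (∀ w' ∈ F, T.h w'' (seg x0 b t) ≤ T.h w' (seg x0 b t)) →
        w'' = w ∨ w'' ∈ T.N w) →
    w0 ∈ F → (∀ w' ∈ F, T.h w0 (seg x0 b t0) ≤ T.h w' (seg x0 b t0)) →
    (∃ n, T.Vis q0 x0 n w0 (seg x0 b t0)) →
    (F.filter fun w => T.h w b < T.h w0 b).card ≤ k →
    ∀ w1 ∈ F, (∀ w' ∈ F, T.h w1 b ≤ T.h w' b) → ∃ n, T.Vis q0 x0 n w1 b := by
  classical
  induction k with
  | zero =>
    intro t0 w0 h0 h1 hF hw0 hmin hvis hcard w1 hw1 hmin1
    have hle : ∀ w' ∈ F, T.h w0 b ≤ T.h w' b := by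
      intro w' hw'
      by_contra hlt
      push Not at hlt
      have : w' ∈ F.filter fun w => T.h w b < T.h w0 b := Finset.mem_filter.2 ⟨hw', hlt⟩
      have := Finset.card_pos.2 ⟨w', this⟩
      omega
    have hF1 := hF 1 h1 le_rfl w0 hw0 (by rw [seg_one]; exact hle)
    rw [seg_one] at hF1
    obtain ⟨n, hn⟩ := hvis
    have hv := vis_ext hn h0 h1 hF1.1
    exact G.vis_C hv (hF1.2 w1 hw1 hmin1) (le_antisymm (hmin1 w0 hw0) (hle w1 hw1))
  | succ k ih =>
    intro t0 w0 h0 h1 hF hw0 hmin hvis hcard w1 hw1 hmin1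
    by_cases hB : (F.filter fun w => T.h w b < T.h w0 b).card ≤ k
    · exact ih t0 w0 h0 h1 hF hw0 hmin hvis hB w1 hw1 hmin1
    · have hne : (F.filter fun w => T.h w b < T.h w0 b).Nonempty := by
        rw [← Finset.card_pos]; omega
      -- the crossing times
      let cr : Q → ℝ := fun w => (T.h w x0 - T.h w0 x0) /
        ((T.h w x0 - T.h w0 x0) - (T.h w b - T.h w0 b))
      obtain ⟨w, hw, hwmin⟩ := Finset.exists_min_image _ cr hne
      have facts : ∀ w' ∈ F, T.h w' b < T.h w0 b →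
          0 < (T.h w' x0 - T.h w0 x0) - (T.h w' b - T.h w0 b) ∧ t0 ≤ cr w' ∧ cr w' ≤ 1 := by
        intro w' hw' hlt
        have a := hmin w' hw'
        rw [(G.affh _).2, (G.affh _).2] at a
        have ht1 : t0 < 1 := by
          rcases eq_or_lt_of_le h1 with h | h
          · exfalso
            rw [h] at a
            linarith
          · exact h
        have hα : 0 ≤ T.h w' x0 - T.h w0 x0 := by
          have : 0 ≤ (1 - t0) * (T.h w' x0 - T.h w0 x0) := by
            have hb := mul_le_mul_of_nonneg_left hlt.le h0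
            linarith
          exact nonneg_of_mul_nonneg_right this (by linarith)
        have hpos : 0 < (T.h w' x0 - T.h w0 x0) - (T.h w' b - T.h w0 b) := by linarith
        refine ⟨hpos, ?_, ?_⟩
        · show t0 ≤ _ / _
          rw [le_div_iff₀ hpos]
          linarith
        · show _ / _ ≤ (1 : ℝ)
          rw [div_le_one hpos]
          linarith
      rw [Finset.mem_filter] at hw
      obtain ⟨hwF, hwlt⟩ := hw
      obtain ⟨fp, f0, f1⟩ := facts w hwF hwlt
      set t1 := cr w with ht1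
      have hcr : ∀ w', (T.h w' x0 - T.h w0 x0) - (T.h w' b - T.h w0 b) ≠ 0 →
          (1 - cr w') * T.h w' x0 + cr w' * T.h w' b =
          (1 - cr w') * T.h w0 x0 + cr w' * T.h w0 b := by
        intro w' hne
        have : cr w' * ((T.h w' x0 - T.h w0 x0) - (T.h w' b - T.h w0 b)) =
            T.h w' x0 - T.h w0 x0 := div_mul_cancel₀ _ hne
        linarith
      have harg : ∀ w' ∈ F, T.h w0 (seg x0 b t1) ≤ T.h w' (seg x0 b t1) := by
        intro w' hw'
        have a := hmin w' hw'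
        rw [(G.affh _).2, (G.affh _).2] at a ⊢
        by_cases hlt : T.h w' b < T.h w0 b
        · obtain ⟨gp, g0, g1⟩ := facts w' hw' hlt
          have hle : t1 ≤ cr w' := hwmin w' (Finset.mem_filter.2 ⟨hw', hlt⟩)
          have e := hcr w' gp.ne'
          have := mul_nonneg (sub_nonneg.2 hle) gp.le
          linarith
        · push Not at hlt
          -- both ends
          rcases eq_or_lt_of_le h1 with h | h
          · have : t1 = 1 := le_antisymm f1 (h ▸ f0)
            rw [this]; linarith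
          · have p1 : 0 ≤ (1 - t1) * ((1 - t0) * (T.h w' x0 - T.h w0 x0) +
                t0 * (T.h w' b - T.h w0 b)) := mul_nonneg (by linarith) (by linarith)
            have p2 : 0 ≤ (t1 - t0) * (T.h w' b - T.h w0 b) :=
              mul_nonneg (by linarith) (by linarith)
            have p3 : 0 ≤ (1 - t0) * ((1 - t1) * (T.h w' x0 - T.h w0 x0) +
                t1 * (T.h w' b - T.h w0 b)) := by linarith
            have p4 := nonneg_of_mul_nonneg_right p3 (by linarith)
            linarith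
      have hcross : T.h w (seg x0 b t1) = T.h w0 (seg x0 b t1) := by
        rw [(G.affh _).2, (G.affh _).2]
        exact hcr w fp.ne'
      have hargw : ∀ w' ∈ F, T.h w (seg x0 b t1) ≤ T.h w' (seg x0 b t1) := by
        intro w' hw'
        rw [hcross]
        exact harg w' hw'
      obtain ⟨m1, m2⟩ := hF t1 f0 f1 w0 hw0 harg
      have hadj := m2 w hwF hargw
      obtain ⟨n, hn⟩ := hvis
      have hn1 := vis_ext' hn h0 f0 m1
      have hn2 := G.vis_C hn1 hadj hcross
      refine ih t1 w (le_trans h0 f0) f1 ?_ hwF hargw hn2 ?_ w1 hw1 hmin1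
      · intro t ht ht'
        exact hF t (le_trans f0 ht) ht'
      · have hsub : (F.filter fun w' => T.h w' b < T.h w b) ⊂
            (F.filter fun w' => T.h w' b < T.h w0 b) := by
          rw [Finset.ssubset_iff_of_subset]
          · exact ⟨w, Finset.mem_filter.2 ⟨hwF, hwlt⟩, by simp⟩
          · intro w' hw'
            rw [Finset.mem_filter] at hw' ⊢
            exact ⟨hw'.1, lt_trans hw'.2 hwlt⟩
        have := Finset.card_lt_card hsub
        omega

end elementary

section closed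

theorem Sys.Good.closedP (G : T.Good q0 x0 ε c0 K) (q : Q) : IsClosed (T.P q) := by
  have e : T.P q = (⋂ q' ∈ T.N q, {x | T.h q x ≤ T.h q' x}) ∩ ⋂ f ∈ T.Φ q, {x | 0 ≤ f x} := by
    ext x
    simp only [Sys.P, mem_setOf_eq, mem_inter_iff, mem_iInter]
  rw [e]
  exact IsClosed.inter (isClosed_biInter fun q' _ => isClosed_le (G.affh q).1 (G.affh q').1)
    (isClosed_biInter fun f hf => isClosed_le continuous_const (G.affΦ q f hf).1)

theorem Sys.Good.closedVis (G : T.Good q0 x0 ε c0 K) (n : ℕ) :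
    ∀ v, IsClosed {y | T.Vis q0 x0 n v y} := by
  induction n with
  | zero =>
    intro v
    by_cases hv : v = q0
    · have e : {y | T.Vis q0 x0 0 v y} = T.P q0 := by
        ext y
        simp [Sys.Vis, hv]
      rw [e]
      exact G.closedP q0
    · have e : {y | T.Vis q0 x0 0 v y} = ∅ := by
        ext y
        simp [Sys.Vis, hv]
      rw [e]
      exact isClosed_empty
  | succ n ih =>
    intro v
    have e : {y | T.Vis q0 x0 (n + 1) v y} = ⋃ w ∈ (↑(T.N v) : Set Q),
        Prod.snd '' {z : Icc (0 : ℝ) 1 × V | T.Vis q0 x0 n w (seg x0 z.2 z.1) ∧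
          seg x0 z.2 z.1 ∈ T.P v ∧ z.2 ∈ T.P v} := by
      ext y
      simp only [mem_setOf_eq, mem_iUnion, mem_image, Prod.exists, exists_eq_right,
        exists_prop, Finset.mem_coe]
      constructor
      · rintro ⟨w, hw, t, ht, h1, h2, h3⟩
        exact ⟨w, G.symm w v hw, ⟨t, ht⟩, h1, h2, h3⟩
      · rintro ⟨w, hw, t, h1, h2, h3⟩
        exact ⟨w, G.symm v w hw, t.1, t.2, h1, h2, h3⟩
    rw [e]
    refine Set.Finite.isClosed_biUnion (Finset.finite_toSet _) fun w _ => ?_
    apply isClosedMap_snd_of_compactSpace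
    have hc : Continuous fun z : Icc (0 : ℝ) 1 × V => seg x0 z.2 z.1 :=
      (seg_cont x0).comp (continuous_snd.prodMk (continuous_subtype_val.comp continuous_fst))
    have h1 : IsClosed {z : Icc (0 : ℝ) 1 × V | T.Vis q0 x0 n w (seg x0 z.2 z.1)} :=
      (ih w).preimage hc
    have h2 : IsClosed {z : Icc (0 : ℝ) 1 × V | seg x0 z.2 z.1 ∈ T.P v} :=
      (G.closedP v).preimage hc
    have h3 : IsClosed {z : Icc (0 : ℝ) 1 × V | z.2 ∈ T.P v} :=
      (G.closedP v).preimage continuous_snd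
    exact h1.inter (h2.inter h3)

end closed

section openness

open Classical in
theorem Sys.Good.argev (G : T.Good q0 x0 ε c0 K) {v : Q} {x : V} (hx : x ∈ T.P v) :
    ∀ᶠ x' in 𝓝 x, ∀ w ∈ insert v (T.N v), (∀ w' ∈ insert v (T.N v), T.h w x' ≤ T.h w' x') →
      T.h w x = T.h v x := by
  rw [Filter.eventually_all_finset]
  intro w hw
  by_cases he : T.h w x = T.h v x
  · exact Eventually.of_forall fun _ _ => he
  · have hlt : T.h v x < T.h w x := by
      rcases Finset.mem_insert.1 hw with rfl | hw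
      · exact absurd rfl he
      · exact lt_of_le_of_ne (hx.1 w hw) (Ne.symm he)
    have := ((G.affh v).1.continuousAt.eventually_lt (G.affh w).1.continuousAt hlt)
    filter_upwards [this] with x' hx' hmin
    exact absurd (hmin v (Finset.mem_insert_self _ _)) (not_le.2 hx')

open Classical in
theorem Sys.Good.loc_h (G : T.Good q0 x0 ε c0 K) {v : Q} {x : V} (hx : x ∈ T.P v) :
    ∀ᶠ x' in 𝓝 x, ∀ w ∈ insert v (T.N v), ∀ w' ∈ T.N w, T.h w x = T.h v x →
      w' ∉ insert v (T.N v) → T.h w x' < T.h w' x' := by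
  rw [Filter.eventually_all_finset]
  intro w hw
  rw [Filter.eventually_all_finset]
  intro w' hw'
  by_cases he : T.h w x = T.h v x
  · by_cases hF : w' ∈ insert v (T.N v)
    · exact Eventually.of_forall fun _ _ h => absurd hF h
    · rw [Finset.mem_insert, not_or] at hF
      have hwN : w ∈ T.N v := by
        rcases Finset.mem_insert.1 hw with rfl | hw
        · exact absurd hw' hF.2
        · exact hw
      have hlt : T.h w x < T.h w' x := by
        rcases G.gap v w hwN w' hw' with h | h | h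
        · exact absurd h hF.1
        · exact absurd h hF.2
        · have h1 := h x hx
          have h3 := mul_pos G.eps (G.hpos hx)
          rw [he]
          linarith
      filter_upwards [(G.affh w).1.continuousAt.eventually_lt (G.affh w').1.continuousAt hlt]
        with x' hx' _ _
      exact hx'
  · exact Eventually.of_forall fun _ h => absurd h he

theorem Sys.Good.wall_nonneg (G : T.Good q0 x0 ε c0 K) {v w : Q} {x : V} (hx : x ∈ T.P v)
    (hw : w = v ∨ w ∈ T.N v) : ∀ f ∈ T.Φ w, 0 ≤ f x := by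
  intro f hf
  rcases hw with rfl | hw
  · exact hx.2 f hf
  · exact G.clos v w hw f hf x hx

theorem Sys.Good.reg_seg (G : T.Good q0 x0 ε c0 K) {v : Q} {x y : V} (hx : T.Reg v x)
    (hy : y ∈ T.P v) {t : ℝ} (h0 : 0 ≤ t) (h1 : t < 1) : T.Reg v (seg x y t) := by
  refine ⟨G.conv hx.1 hy h0 h1.le, ?_⟩
  intro w hw he f hf
  have hge : ∀ z ∈ T.P v, T.h v z ≤ T.h w z := by
    intro z hz
    rcases hw with rfl | hw
    · exact le_rfl
    · exact hz.1 w hw
  have e0 : T.h w x = T.h v x := by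
    rw [(G.affh _).2, (G.affh _).2] at he
    have a := mul_nonneg h0 (sub_nonneg.2 (hge y hy))
    have b := hge x hx.1
    have c : (1 - t) * (T.h w x - T.h v x) ≤ 0 := by linarith
    have d : T.h w x - T.h v x ≤ 0 := by
      by_contra hlt
      push Not at hlt
      have := mul_pos (sub_pos.2 h1) hlt
      linarith
    linarith
  have a := hx.2 w hw e0 f hf
  have b := G.wall_nonneg hy hw f hf
  rw [(G.affΦ w f hf).2]
  have c := mul_pos (sub_pos.2 h1) a
  have d := mul_nonneg h0 b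
  linarith

theorem Sys.Good.reg_seg' (G : T.Good q0 x0 ε c0 K) {v : Q} {x y : V} (hx : T.Reg v x)
    (hy : T.Reg v y) {t : ℝ} (h0 : 0 ≤ t) (h1 : t ≤ 1) : T.Reg v (seg x y t) := by
  rcases eq_or_lt_of_le h1 with h | h
  · rw [h, seg_one]; exact hy
  · exact G.reg_seg hx hy.1 h0 h

theorem Sys.Good.reg_cross (G : T.Good q0 x0 ε c0 K) {v w : Q} {y : V} (hy : T.Reg v y)
    (hw : w = v ∨ w ∈ T.N v) (he : T.h w y = T.h v y) : T.Reg w y := by
  rcases hw with rfl | hw
  · exact hy
  · refine ⟨G.glue hy.1 hw he, ?_⟩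
    intro w' hw' he' f hf
    have hyw := G.glue hy.1 hw he
    have := G.clique hyw (Or.inr (G.symm v w hw)) hw' he.symm he'
    exact hy.2 w' this (he'.trans he) f hf

theorem Sys.Good.reg_x0 (G : T.Good q0 x0 ε c0 K) : T.Reg q0 x0 := by
  refine ⟨G.x0mem, ?_⟩
  intro w hw he f hf
  rcases hw with rfl | hw
  · exact G.baseΦ f hf
  · have := G.base w hw
    linarith

open Classical in
theorem Sys.Good.reg_cover (G : T.Good q0 x0 ε c0 K) {v : Q} {x : V} (hx : T.Reg v x) :
    ∀ᶠ x' in 𝓝 x, ∃ w, (w = v ∨ w ∈ T.N v) ∧ T.h w x = T.h v x ∧ x' ∈ T.P w := by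
  have E : ∀ᶠ x' in 𝓝 x, ∀ w ∈ insert v (T.N v), T.h w x = T.h v x → ∀ f ∈ T.Φ w,
      0 < f x' := by
    rw [Filter.eventually_all_finset]
    intro w hw
    by_cases he : T.h w x = T.h v x
    · have : ∀ᶠ x' in 𝓝 x, ∀ f ∈ T.Φ w, 0 < f x' := by
        rw [Filter.eventually_all_finite (G.fin w)]
        intro f hf
        have hfx := hx.2 w (Finset.mem_insert.1 hw) he f hf
        exact (G.affΦ w f hf).1.continuousAt.eventually (lt_mem_nhds hfx)
      filter_upwards [this] with x' hx' _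
      exact hx'
    · exact Eventually.of_forall fun _ h => absurd h he
  filter_upwards [G.argev hx.1, G.loc_h hx.1, E] with x' e1 e2 e3
  obtain ⟨w, hw, hmin⟩ := Finset.exists_min_image (insert v (T.N v))
    (fun w => T.h w x') ⟨v, Finset.mem_insert_self _ _⟩
  have he := e1 w hw hmin
  refine ⟨w, Finset.mem_insert.1 hw, he, ?_, ?_⟩
  · intro w' hw'
    by_cases hF : w' ∈ insert v (T.N v)
    · exact hmin w' hF
    · exact (e2 w hw w' hw' he hF).le
  · exact fun f hf => (e3 w hw he f hf).le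

/-- an affine function that is nonnegative near a zero vanishes -/
theorem aff_zero {f : V → ℝ} (hf : Aff f) {p : V} (h0 : f p = 0)
    (hn : ∀ᶠ x in 𝓝 p, 0 ≤ f x) (b : V) : f b = 0 := by
  have hc : Tendsto (fun τ : ℝ => seg p b τ) (𝓝 0) (𝓝 p) := by
    have : Continuous fun τ : ℝ => seg p b τ :=
      (seg_cont p).comp (continuous_const.prodMk continuous_id)
    have h := this.tendsto 0
    rwa [seg_zero] at h
  have h1 := hc.eventually hn
  have h2 : ∀ᶠ τ : ℝ in 𝓝 0, 0 ≤ τ * f b := by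
    filter_upwards [h1] with τ hτ
    rw [hf.2, h0, mul_zero, zero_add] at hτ
    exact hτ
  rw [Metric.eventually_nhds_iff] at h2
  obtain ⟨δ, hδ, h3⟩ := h2
  have a := h3 (y := δ / 2) (by rw [Real.dist_eq, sub_zero, abs_of_pos (by linarith)]; linarith)
  have c := h3 (y := -(δ / 2)) (by
    rw [Real.dist_eq, sub_zero, abs_neg, abs_of_pos (by linarith)]; linarith)
  have d : 0 ≤ f b := nonneg_of_mul_nonneg_right a (by linarith)
  have e : f b ≤ 0 := by
    by_contra hlt
    push Not at hlt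
    have := mul_pos (half_pos hδ) hlt
    linarith
  linarith

/-- near the end of a chain the segment is regular -/
def Tail (T : Sys V Q) (x0 : V) (w : Q) (z : V) : Prop :=
  z = x0 ∨ ∃ u, (u = w ∨ u ∈ T.N w) ∧ T.h u z = T.h w z ∧ ∃ s0 : ℝ, 0 ≤ s0 ∧ s0 < 1 ∧
    ∀ s, s0 < s → s < 1 → T.Reg u (seg x0 z s)

theorem Sys.Good.reg_mid (G : T.Good q0 x0 ε c0 K) {n : ℕ} {w v : Q} {y : V} {σ : ℝ}
    (hv : T.Vis q0 x0 n w (seg x0 y σ)) (htail : Tail T x0 w (seg x0 y σ))
    (hvw : v ∈ T.N w) (hz : seg x0 y σ ∈ T.P v) (hy : y ∈ T.P v) (h0 : 0 ≤ σ) (h1 : σ < 1) :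
    T.Reg w (seg x0 y σ) := by
  have hzw := vis_mem hv
  have hev : T.h v (seg x0 y σ) = T.h w (seg x0 y σ) :=
    le_antisymm (hz.1 w (G.symm w v hvw)) (hzw.1 v hvw)
  refine ⟨hzw, ?_⟩
  intro x hx hex f hf
  have hf0 := G.wall_nonneg hzw hx f hf
  rcases eq_or_lt_of_le hf0 with hfz | hfz
  swap
  · exact hfz
  exfalso
  have hfz' : f (seg x0 y σ) = 0 := hfz.symm
  rcases htail with hzx | ⟨u, hu, heu, s0, hs00, hs01, hreg⟩
  · -- the end point is `x0`
    rw [hzx] at hv hfz' hex
    obtain ⟨_, rfl⟩ := G.vis_x0 hv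
    have := G.reg_x0.2 x hx hex f hf
    linarith
  · have hσ : 0 < σ := by
      rcases eq_or_lt_of_le h0 with h | h
      · exfalso
        rw [← h, seg_zero] at hv hfz' hex
        obtain ⟨_, rfl⟩ := G.vis_x0 hv
        have := G.reg_x0.2 x hx hex f hf
        linarith
      · exact h
    set z := seg x0 y σ with hzdef
    have hzu : z ∈ T.P u := by
      rcases hu with rfl | hu
      · exact hzw
      · exact G.glue hzw hu heu
    have hxu : x = u ∨ x ∈ T.N u := G.clique hzw hu hx heu hex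
    have hxv : x = v ∨ x ∈ T.N v := G.clique hzw (Or.inr hvw) hx hev hex
    have hfy : 0 ≤ f y := G.wall_nonneg hy hxv f hf
    -- a regular point on the segment before `z`
    set s := (s0 + 1) / 2 with hs
    have hs0 : s0 < s := by rw [hs]; linarith
    have hs1 : s < 1 := by rw [hs]; linarith
    have hp := hreg s hs0 hs1
    have hfp : 0 ≤ f (seg x0 z s) := G.wall_nonneg hp.1 hxu f hf
    have hfp0 : f (seg x0 z s) = 0 := by
      apply le_antisymm _ hfp
      have e1 : (1 - σ) * f x0 + σ * f y = 0 := by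
        rw [← (G.affΦ x f hf).2, ← hzdef]; exact hfz'
      rw [(G.affΦ x f hf).2, hfz', mul_zero, add_zero]
      have a : (1 - σ) * f x0 ≤ 0 := by
        have := mul_nonneg hσ.le hfy
        linarith
      have b : f x0 ≤ 0 := by
        by_contra hlt
        push Not at hlt
        have := mul_pos (sub_pos.2 h1) hlt
        linarith
      have c := mul_nonneg (sub_nonneg.2 hs1.le) (neg_nonneg.2 b)
      linarith
    -- all tiles near the regular point are neighbours of `x`
    have hcov := G.reg_cover hp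
    have hnn : ∀ᶠ x' in 𝓝 (seg x0 z s), 0 ≤ f x' := by
      filter_upwards [hcov] with x' hx'
      obtain ⟨u', hu', heu', hmem⟩ := hx'
      have hge : ∀ p ∈ T.P u, T.h u p ≤ T.h u' p := by
        intro p hp'
        rcases hu' with rfl | hu'
        · exact le_rfl
        · exact hp'.1 u' hu'
      have heu'z : T.h u' z = T.h u z := by
        set s' := (s0 + s) / 2 with hs'
        have h2 : s0 < s' := by rw [hs']; linarith
        have h3 : s' < s := by rw [hs']; linarith
        have hp' := hge _ (hreg s' h2 (lt_trans h3 hs1)).1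
        have hz' := hge _ hzu
        rw [(G.affh u').2 x0 z s, (G.affh u).2 x0 z s] at heu'
        rw [(G.affh u').2 x0 z s', (G.affh u).2 x0 z s'] at hp'
        -- with D = h u' - h u : (1-s) D x0 + s D z = 0, (1-s') D x0 + s' D z ≥ 0, D z ≥ 0
        have a : (1 - s) * (T.h u' x0 - T.h u x0) + s * (T.h u' z - T.h u z) = 0 := by linarith
        have b : 0 ≤ (1 - s') * (T.h u' x0 - T.h u x0) + s' * (T.h u' z - T.h u z) := by
          linarith
        have c : 0 ≤ T.h u' z - T.h u z := by linarith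
        have d : (s' - s) * (T.h u' z - T.h u z) ≥ 0 := by
          have e1 : (1 - s) * ((1 - s') * (T.h u' x0 - T.h u x0) +
              s' * (T.h u' z - T.h u z)) = (s' - s) * (T.h u' z - T.h u z) := by
            have e2 : (1 - s) * (T.h u' x0 - T.h u x0) = - (s * (T.h u' z - T.h u z)) := by
              linarith
            calc (1 - s) * ((1 - s') * (T.h u' x0 - T.h u x0) + s' * (T.h u' z - T.h u z))
                = (1 - s') * ((1 - s) * (T.h u' x0 - T.h u x0)) +
                  (1 - s) * s' * (T.h u' z - T.h u z) := by ring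
              _ = (s' - s) * (T.h u' z - T.h u z) := by rw [e2]; ring
          rw [← e1]
          exact mul_nonneg (by linarith) b
        have e : T.h u' z - T.h u z ≤ 0 := by
          by_contra hlt
          push Not at hlt
          have := mul_pos (sub_pos.2 h3) hlt
          linarith
        linarith
      have hxu' : x = u' ∨ x ∈ T.N u' := G.clique hzu hu' hxu heu'z (hex.trans heu.symm)
      exact G.wall_nonneg hmem hxu' f hf
    obtain ⟨b, hb⟩ := G.nz x f hf
    exact hb (aff_zero (G.affΦ x f hf) hfp0 hnn b)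

theorem Sys.Good.tail (G : T.Good q0 x0 ε c0 K) (n : ℕ) : ∀ (w : Q) (z : V),
    T.Vis q0 x0 n w z → Tail T x0 w z := by
  induction n with
  | zero =>
    intro w z h
    obtain ⟨rfl, hz⟩ := h
    right
    refine ⟨w, Or.inl rfl, rfl, 0, le_rfl, zero_lt_one, ?_⟩
    intro s hs hs1
    exact G.reg_seg G.reg_x0 hz hs.le hs1
  | succ n ih =>
    intro v y h
    obtain ⟨w, hw, σ, hσ, hv, hm, hy⟩ := h
    have htail := ih w _ hv
    have hzw := vis_mem hv
    have hev : T.h v (seg x0 y σ) = T.h w (seg x0 y σ) :=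
      le_antisymm (hm.1 w (G.symm w v hw)) (hzw.1 v hw)
    rcases eq_or_lt_of_le hσ.2 with h1 | h1
    · rw [h1, seg_one] at htail hev hzw hm
      rcases htail with h2 | ⟨u, hu, heu, s0, a, b, c⟩
      · exact Or.inl h2
      · right
        refine ⟨u, ?_, heu.trans hev.symm, s0, a, b, c⟩
        exact G.clique hzw (Or.inr hw) hu hev heu
    · right
      have hreg := G.reg_cross (G.reg_mid hv htail hw hm hy hσ.1 h1) (Or.inr hw) hev
      refine ⟨v, Or.inl rfl, rfl, σ, hσ.1, h1, ?_⟩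
      intro s hs hs1
      have h2 := G.reg_seg hreg hy (t := (s - σ) / (1 - σ))
        (div_nonneg (by linarith) (by linarith)) ((div_lt_one (by linarith)).2 (by linarith))
      have e : seg (seg x0 y σ) y ((s - σ) / (1 - σ)) = seg x0 y s := by
        conv_lhs => rw [← seg_one x0 y]
        rw [seg_seg, seg_sub]
        congr 1
        have : (1 - σ) ≠ 0 := by linarith
        field_simp
        ring
      rwa [e] at h2

open Classical in
theorem Sys.Good.loc (G : T.Good q0 x0 ε c0 K) {v : Q} {y : V} {σ : ℝ}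
    (hreg : ∀ t ∈ Icc σ 1, T.Reg v (seg x0 y t)) :
    ∀ᶠ y' in 𝓝 y, ∀ t ∈ Icc σ 1, ∀ w ∈ insert v (T.N v),
      (∀ w' ∈ insert v (T.N v), T.h w (seg x0 y' t) ≤ T.h w' (seg x0 y' t)) →
      seg x0 y' t ∈ T.P w ∧ ∀ w'' ∈ insert v (T.N v),
        (∀ w' ∈ insert v (T.N v), T.h w'' (seg x0 y' t) ≤ T.h w' (seg x0 y' t)) →
        w'' = w ∨ w'' ∈ T.N w := by
  apply IsCompact.eventually_forall_of_forall_eventually (x₀ := y)
    (isCompact_Icc (a := σ) (b := (1 : ℝ)))
    (P := fun (y' : V) (t : ℝ) => ∀ w ∈ insert v (T.N v),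
      (∀ w' ∈ insert v (T.N v), T.h w (seg x0 y' t) ≤ T.h w' (seg x0 y' t)) →
      seg x0 y' t ∈ T.P w ∧ ∀ w'' ∈ insert v (T.N v),
        (∀ w' ∈ insert v (T.N v), T.h w'' (seg x0 y' t) ≤ T.h w' (seg x0 y' t)) →
        w'' = w ∨ w'' ∈ T.N w)
  intro t ht
  have hx := (hreg t ht).1
  have htend : Tendsto (fun z : V × ℝ => seg x0 z.1 z.2) (𝓝 (y, t)) (𝓝 (seg x0 y t)) :=
    (seg_cont x0).tendsto (y, t)
  have E1 := htend.eventually (G.argev hx)
  have E2 := htend.eventually (G.loc_h hx)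
  have E : ∀ᶠ x' in 𝓝 (seg x0 y t), ∀ w ∈ insert v (T.N v),
      T.h w (seg x0 y t) = T.h v (seg x0 y t) → ∀ f ∈ T.Φ w, 0 < f x' := by
    rw [Filter.eventually_all_finset]
    intro w hw
    by_cases he : T.h w (seg x0 y t) = T.h v (seg x0 y t)
    · have : ∀ᶠ x' in 𝓝 (seg x0 y t), ∀ f ∈ T.Φ w, 0 < f x' := by
        rw [Filter.eventually_all_finite (G.fin w)]
        intro f hf
        have hfx := (hreg t ht).2 w (Finset.mem_insert.1 hw) he f hf
        exact (G.affΦ w f hf).1.continuousAt.eventually (lt_mem_nhds hfx)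
      filter_upwards [this] with x' hx' _
      exact hx'
    · exact Eventually.of_forall fun _ h => absurd h he
  have E3 := htend.eventually E
  filter_upwards [E1, E2, E3] with z z1 z2 z3 w hw hmin
  have he := z1 w hw hmin
  refine ⟨⟨?_, ?_⟩, ?_⟩
  · intro w' hw'
    by_cases hF : w' ∈ insert v (T.N v)
    · exact hmin w' hF
    · exact (z2 w hw w' hw' he hF).le
  · exact fun f hf => (z3 w hw he f hf).le
  · intro w'' hw'' hmin''
    have he'' := z1 w'' hw'' hmin''
    exact G.clique hx (Finset.mem_insert.1 hw) (Finset.mem_insert.1 hw'') he he''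

open Classical in
theorem Sys.Good.open_step (G : T.Good q0 x0 ε c0 K) {v v' : Q} {y : V} {σ : ℝ} (hσ0 : 0 ≤ σ)
    (hσ1 : σ ≤ 1) (hreg : ∀ t ∈ Icc σ 1, T.Reg v (seg x0 y t)) (hv' : v' = v ∨ v' ∈ T.N v)
    (he' : T.h v' y = T.h v y)
    (H : ∀ w0, (w0 = v ∨ w0 ∈ T.N v) → T.h w0 (seg x0 y σ) = T.h v (seg x0 y σ) →
      ∀ᶠ z' in 𝓝 (seg x0 y σ), z' ∈ T.P w0 → ∃ m, T.Vis q0 x0 m w0 z') :
    ∀ᶠ y' in 𝓝 y, y' ∈ T.P v' → ∃ m, T.Vis q0 x0 m v' y' := by
  have hz : seg x0 y σ ∈ T.P v := (hreg σ ⟨le_rfl, hσ1⟩).1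
  have hy : y ∈ T.P v := by
    have := (hreg 1 ⟨hσ1, le_rfl⟩).1
    rwa [seg_one] at this
  have hcσ : Tendsto (fun y' : V => seg x0 y' σ) (𝓝 y) (𝓝 (seg x0 y σ)) :=
    ((seg_cont x0).comp (continuous_id.prodMk continuous_const)).tendsto y
  have A := G.loc hreg
  have B : ∀ᶠ y' in 𝓝 y, ∀ w0 ∈ insert v (T.N v),
      T.h w0 (seg x0 y σ) = T.h v (seg x0 y σ) → seg x0 y' σ ∈ T.P w0 →
        ∃ m, T.Vis q0 x0 m w0 (seg x0 y' σ) := by
    rw [Filter.eventually_all_finset]
    intro w0 hw0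
    by_cases he : T.h w0 (seg x0 y σ) = T.h v (seg x0 y σ)
    · filter_upwards [hcσ.eventually (H w0 (Finset.mem_insert.1 hw0) he)] with y' hy' _
      exact hy'
    · exact Eventually.of_forall fun _ h => absurd h he
  have C := hcσ.eventually (G.argev hz)
  have D : ∀ᶠ y' in 𝓝 y, ∀ w ∈ insert v (T.N v), T.h w y ≠ T.h v y →
      T.h v' y' < T.h w y' := by
    rw [Filter.eventually_all_finset]
    intro w hw
    by_cases he : T.h w y = T.h v y
    · exact Eventually.of_forall fun _ h => absurd he h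
    · have hlt : T.h v' y < T.h w y := by
        rw [he']
        rcases Finset.mem_insert.1 hw with rfl | hw
        · exact absurd rfl he
        · exact lt_of_le_of_ne (hy.1 w hw) (Ne.symm he)
      filter_upwards [(G.affh v').1.continuousAt.eventually_lt (G.affh w).1.continuousAt hlt]
        with y' hy' _
      exact hy'
  filter_upwards [A, B, C, D] with y' a b c d hmem
  obtain ⟨w0, hw0, hmin0⟩ := Finset.exists_min_image (insert v (T.N v))
    (fun w => T.h w (seg x0 y' σ)) ⟨v, Finset.mem_insert_self _ _⟩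
  have h1 := (a σ ⟨le_rfl, hσ1⟩ w0 hw0 hmin0).1
  have h2 := b w0 hw0 (c w0 hw0 hmin0) h1
  refine G.envelope (insert v (T.N v)) y' _ σ w0 hσ0 hσ1
    (fun t ht ht' => a t ⟨ht, ht'⟩) hw0 hmin0 h2 le_rfl v' (Finset.mem_insert.2 hv') ?_
  intro w hw
  by_cases he : T.h w y = T.h v y
  · rcases G.clique hy hv' (Finset.mem_insert.1 hw) he' he with rfl | h
    · exact le_rfl
    · exact hmem.1 w h
  · exact (d w hw he).le

theorem Sys.Good.openness (G : T.Good q0 x0 ε c0 K) (n : ℕ) : ∀ (v : Q) (y : V),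
    T.Vis q0 x0 n v y → T.Reg v y → ∀ v', (v' = v ∨ v' ∈ T.N v) → T.h v' y = T.h v y →
    ∀ᶠ y' in 𝓝 y, y' ∈ T.P v' → ∃ m, T.Vis q0 x0 m v' y' := by
  induction n with
  | zero =>
    intro v y h hreg v' hv' he'
    obtain ⟨rfl, hy⟩ := h
    have hx0 := G.reg_x0
    refine G.open_step (σ := 0) le_rfl zero_le_one ?_ hv' he' ?_
    · intro t ht
      exact G.reg_seg' hx0 hreg ht.1 ht.2
    · intro w0 hw0 he
      rw [seg_zero] at he
      rcases hw0 with rfl | hw0
      · exact Eventually.of_forall fun z' hz' => ⟨0, rfl, hz'⟩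
      · have := G.base w0 hw0
        linarith
  | succ n ih =>
    intro v y h hreg v' hv' he'
    obtain ⟨w, hw, σ, hσ, hv, hm, hy⟩ := h
    have hwv := G.symm w v hw
    have hzw := vis_mem hv
    have he : T.h v (seg x0 y σ) = T.h w (seg x0 y σ) :=
      le_antisymm (hm.1 w hwv) (hzw.1 v hw)
    -- the crossing point is regular
    have hregw : T.Reg w (seg x0 y σ) := by
      rcases eq_or_lt_of_le hσ.2 with h1 | h1
      · have := G.reg_cross hreg (Or.inr hwv) (by
          rw [h1, seg_one] at he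
          exact he.symm)
        rw [h1, seg_one]
        exact this
      · exact G.reg_mid hv (G.tail n w _ hv) hw hm hy hσ.1 h1
    have hregv : T.Reg v (seg x0 y σ) := G.reg_cross hregw (Or.inr hw) he
    refine G.open_step hσ.1 hσ.2 ?_ hv' he' ?_
    · intro t ht
      rcases eq_or_lt_of_le hσ.2 with h1 | h1
      · have : t = 1 := le_antisymm ht.2 (h1 ▸ ht.1)
        rw [this, seg_one]
        exact hreg
      · have h2 := G.reg_seg' hregv hreg (t := (t - σ) / (1 - σ))
          (div_nonneg (by linarith [ht.1]) (by linarith))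
          ((div_le_one (by linarith)).2 (by linarith [ht.2]))
        have e : seg (seg x0 y σ) y ((t - σ) / (1 - σ)) = seg x0 y t := by
          conv_lhs => rw [← seg_one x0 y]
          rw [seg_seg, seg_sub]
          congr 1
          have : (1 - σ) ≠ 0 := by linarith
          field_simp
          ring
        rwa [e] at h2
    · intro w0 hw0 he0
      have hcl := G.clique hm (Or.inr hwv) hw0 he.symm he0
      exact ih w (seg x0 y σ) hv hregw w0 hcl (he0.trans he)

/-- every regular point of every tile is reached -/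
theorem Sys.Good.all_vis (G : T.Good q0 x0 ε c0 K) (q : Q) :
    ∀ y, T.Reg q y → ∃ n, T.Vis q0 x0 n q y := by
  have hq := G.conn q
  induction hq with
  | refl => exact fun y hy => ⟨0, rfl, hy.1⟩
  | @tail a b _ hab ih =>
    intro y hy
    obtain ⟨z, hz, he⟩ := G.facet a b hab
    obtain ⟨n, hn⟩ := ih z hz
    have hzb := G.reg_cross hz (Or.inr hab) he
    obtain ⟨R, hR⟩ := G.bound b
    -- the set of good parameters
    have hcont : Continuous fun s : ℝ => seg z y s :=
      (seg_cont z).comp (continuous_const.prodMk continuous_id)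
    set J : Set ℝ := {s | ∃ m, T.Vis q0 x0 m b (seg z y s)} with hJ
    have hJ' : J = {s | ∃ m ∈ Finset.range (R + 1), T.Vis q0 x0 m b (seg z y s)} := by
      ext s
      constructor
      · rintro ⟨m, hm⟩
        obtain ⟨m', _, hm'⟩ := exists_min hm
        exact ⟨m', Finset.mem_range.2 (Nat.lt_succ_of_le (hR _ _ hm')), hm'.1⟩
      · rintro ⟨m, _, hm⟩
        exact ⟨m, hm⟩
    have hJc : IsClosed J := by
      have e : J = ⋃ m ∈ (↑(Finset.range (R + 1)) : Set ℕ),
          {s | T.Vis q0 x0 m b (seg z y s)} := by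
        rw [hJ']
        ext s
        simp
      rw [e]
      refine Set.Finite.isClosed_biUnion (Finset.finite_toSet _) fun m _ => ?_
      exact (G.closedVis m b).preimage hcont
    have hJ0 : (0 : ℝ) ∈ J := by
      refine ⟨n + 1, ?_⟩
      rw [seg_zero]
      exact G.vis_cross hn hab he
    have hsub : Icc (0 : ℝ) 1 ⊆ J := by
      apply (hJc.inter isClosed_Icc).Icc_subset_of_forall_mem_nhdsWithin hJ0
      rintro s ⟨⟨m, hm⟩, hs⟩
      have h1 := G.openness m b (seg z y s) hm (G.reg_seg' hzb hy hs.1 hs.2.le) b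
        (Or.inl rfl) rfl
      have h2 : ∀ᶠ s' in 𝓝 s, seg z y s' ∈ T.P b → ∃ m, T.Vis q0 x0 m b (seg z y s') :=
        hcont.continuousAt.eventually h1
      have h3 : ∀ᶠ s' in 𝓝[>] s, s' ∈ Ioo s 1 := Ioo_mem_nhdsGT hs.2
      filter_upwards [nhdsWithin_le_nhds h2, h3] with s' a1 a2
      exact a1 (G.conv hzb.1 hy.1 (le_trans hs.1 a2.1.le) a2.2.le)
    obtain ⟨m, hm⟩ := hsub ⟨zero_le_one, le_rfl⟩
    rw [seg_one] at hm
    exact ⟨m, hm⟩

/-- **The local-to-global theorem.** -/
theorem Sys.Good.main (G : T.Good q0 x0 ε c0 K) (q : Q) (hq : q ≠ q0) :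
    T.h q0 x0 < T.h q x0 := by
  have hne : ∃ y, T.Reg q y := by
    rcases Relation.ReflTransGen.cases_tail (G.conn q) with h | ⟨a, _, ha⟩
    · exact absurd h hq
    · obtain ⟨z, hz, he⟩ := G.facet a q ha
      exact ⟨z, G.reg_cross hz (Or.inr ha) he⟩
  obtain ⟨y, hy⟩ := hne
  obtain ⟨n, hn⟩ := G.all_vis q y hy
  obtain ⟨m, _, hm⟩ := exists_min hn
  cases m with
  | zero => exact absurd hm.1.1 hq
  | succ m => exact G.min_lt hm

end openness

end Pool.Agent.Lib.MP_d585ae_al.Tile
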