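import Mathlib

/-!
# The braid group on four strands: the dual generators
-/

namespace Pool.Agent.Lib.MP_d585ae_al.Tile

/-- The relations of the braid group on `n` strands. -/
def braidRels (n : ℕ) : Set (FreeGroup (Fin (n - 1))) :=
  {r | (∃ i j : Fin (n - 1), i.val + 1 < j.val ∧
        r = FreeGroup.of i * FreeGroup.of j * (FreeGroup.of j * FreeGroup.of i)⁻¹) ∨
    (∃ i j : Fin (n - 1), i.val + 1 = j.val ∧
        r = FreeGroup.of i * FreeGroup.of j * FreeGroup.of i *
          (FreeGroup.of j * FreeGroup.of i * FreeGroup.of j)⁻¹)}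

/-- The braid group on `n` strands. -/
abbrev Braid (n : ℕ) := PresentedGroup (braidRels n)

section abstract

variable {G : Type*} [Group G]

/-- three elements satisfying the braid relations of `B_4` -/
structure BR (x y z : G) : Prop where
  xz : x * z = z * x
  xy : x * y * x = y * x * y
  yz : y * z * y = z * y * z

/-- the six dual generators -/
def atm (x y z : G) : Fin 6 → G :=
  ![x, y, z, (x * y * z) * z * (x * y * z)⁻¹, x * y * x⁻¹, y * z * y⁻¹]

/-- rotation of the indices of the dual generators -/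
def rotI : Fin 6 → Fin 6 := ![1, 2, 3, 0, 5, 4]

/-- inverse rotation -/
def rotI' : Fin 6 → Fin 6 := ![3, 0, 1, 2, 5, 4]

variable {x y z : G}

theorem BR.dx (h : BR x y z) : (x * y * z) * x = y * (x * y * z) := by
  calc (x * y * z) * x = x * y * (z * x) := by group
    _ = x * y * (x * z) := by rw [h.xz]
    _ = (x * y * x) * z := by group
    _ = (y * x * y) * z := by rw [h.xy]
    _ = _ := by group

theorem BR.dy (h : BR x y z) : (x * y * z) * y = z * (x * y * z) := by
  calc (x * y * z) * y = x * (y * z * y) := by group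
    _ = x * (z * y * z) := by rw [h.yz]
    _ = (x * z) * y * z := by group
    _ = (z * x) * y * z := by rw [h.xz]
    _ = _ := by group

theorem BR.dd (h : BR x y z) : x * ((x * y * z) * (x * y * z)) =
    (x * y * z) * (x * y * z) * z := by
  have h1 := h.dx
  have h2 := h.dy
  -- δ² = δ x y z = y δ y z = y z δ z
  have e : (x * y * z) * (x * y * z) = y * z * (x * y * z) * z := by
    calc (x * y * z) * (x * y * z) = ((x * y * z) * x) * y * z := by group
      _ = (y * (x * y * z)) * y * z := by rw [h1]
      _ = y * ((x * y * z) * y) * z := by group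
      _ = y * (z * (x * y * z)) * z := by rw [h2]
      _ = _ := by group
  calc x * ((x * y * z) * (x * y * z)) = x * (y * z * (x * y * z) * z) := by rw [e]
    _ = _ := by group

theorem BR.conj (h : BR x y z) (i : Fin 6) :
    (x * y * z) * atm x y z i * (x * y * z)⁻¹ = atm x y z (rotI i) := by
  fin_cases i
  · show (x * y * z) * x * (x * y * z)⁻¹ = y
    rw [h.dx]; group
  · show (x * y * z) * y * (x * y * z)⁻¹ = z
    rw [h.dy]; group
  · rfl
  · show (x * y * z) * ((x * y * z) * z * (x * y * z)⁻¹) * (x * y * z)⁻¹ = x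
    calc (x * y * z) * ((x * y * z) * z * (x * y * z)⁻¹) * (x * y * z)⁻¹
        = ((x * y * z) * (x * y * z) * z) * ((x * y * z)⁻¹ * (x * y * z)⁻¹) := by group
      _ = (x * ((x * y * z) * (x * y * z))) * ((x * y * z)⁻¹ * (x * y * z)⁻¹) := by rw [h.dd]
      _ = x := by group
  · show (x * y * z) * (x * y * x⁻¹) * (x * y * z)⁻¹ = y * z * y⁻¹
    have h1 : (x * y * z) * x * (x * y * z)⁻¹ = y := by rw [h.dx]; group
    have h2 : (x * y * z) * y * (x * y * z)⁻¹ = z := by rw [h.dy]; group
    calc (x * y * z) * (x * y * x⁻¹) * (x * y * z)⁻¹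
        = ((x * y * z) * x * (x * y * z)⁻¹) * ((x * y * z) * y * (x * y * z)⁻¹) *
          ((x * y * z) * x * (x * y * z)⁻¹)⁻¹ := by group
      _ = _ := by rw [h1, h2]
  · show (x * y * z) * (y * z * y⁻¹) * (x * y * z)⁻¹ = x * y * x⁻¹
    have h2 : (x * y * z) * y * (x * y * z)⁻¹ = z := by rw [h.dy]; group
    calc (x * y * z) * (y * z * y⁻¹) * (x * y * z)⁻¹
        = ((x * y * z) * y * (x * y * z)⁻¹) * ((x * y * z) * z * (x * y * z)⁻¹) *
          ((x * y * z) * y * (x * y * z)⁻¹)⁻¹ := by group
      _ = z * ((x * y * z) * z * (x * y * z)⁻¹) * z⁻¹ := by rw [h2]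
      _ = (z * x) * y * z * y⁻¹ * x⁻¹ * z⁻¹ := by group
      _ = (x * z) * y * z * y⁻¹ * x⁻¹ * z⁻¹ := by rw [h.xz]
      _ = x * (z * y * z) * y⁻¹ * x⁻¹ * z⁻¹ := by group
      _ = x * (y * z * y) * y⁻¹ * x⁻¹ * z⁻¹ := by rw [h.yz]
      _ = x * y * (z * x⁻¹) * z⁻¹ := by group
      _ = x * y * (x⁻¹ * z) * z⁻¹ := by
          have : z * x⁻¹ = x⁻¹ * z := by
            calc z * x⁻¹ = x⁻¹ * (x * z) * x⁻¹ := by group
              _ = x⁻¹ * (z * x) * x⁻¹ := by rw [h.xz]
              _ = x⁻¹ * z := by group
          rw [this]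
      _ = x * y * x⁻¹ := by group

/-- the third factor: `atm i * atm j * atm (third i j) = δ` -/
def third : Fin 6 → Fin 6 → Option (Fin 6) :=
  ![![none, some 2, some 5, none, none, some 1],
    ![none, none, some 3, some 4, some 2, none],
    ![some 5, none, none, some 0, none, some 3],
    ![some 1, some 4, none, none, some 0, none],
    ![some 2, none, some 0, none, none, none],
    ![none, some 3, none, some 1, none, none]]

theorem BR.rot3 (h : BR x y z) {i j k : Fin 6}
    (e : atm x y z i * atm x y z j * atm x y z k = x * y * z) :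
    atm x y z (rotI i) * atm x y z (rotI j) * atm x y z (rotI k) = x * y * z := by
  rw [← h.conj i, ← h.conj j, ← h.conj k]
  calc (x * y * z) * atm x y z i * (x * y * z)⁻¹ *
        ((x * y * z) * atm x y z j * (x * y * z)⁻¹) *
        ((x * y * z) * atm x y z k * (x * y * z)⁻¹)
      = (x * y * z) * (atm x y z i * atm x y z j * atm x y z k) * (x * y * z)⁻¹ := by group
    _ = _ := by rw [e]; group

theorem BR.third_eq (h : BR x y z) (i j k : Fin 6) (hk : third i j = some k) :
    atm x y z i * atm x y z j * atm x y z k = x * y * z := by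
  have a0 : atm x y z 0 * atm x y z 1 * atm x y z 2 = x * y * z := rfl
  have b0 : atm x y z 0 * atm x y z 2 * atm x y z 5 = x * y * z := by
    show x * z * (y * z * y⁻¹) = x * y * z
    calc x * z * (y * z * y⁻¹) = x * (z * y * z) * y⁻¹ := by group
      _ = x * (y * z * y) * y⁻¹ := by rw [h.yz]
      _ = _ := by group
  have c0 : atm x y z 0 * atm x y z 5 * atm x y z 1 = x * y * z := by
    show x * (y * z * y⁻¹) * y = x * y * z
    group
  have d0 : atm x y z 4 * atm x y z 0 * atm x y z 2 = x * y * z := by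
    show (x * y * x⁻¹) * x * z = x * y * z
    group
  have a1 := h.rot3 a0
  have a2 := h.rot3 a1
  have a3 := h.rot3 a2
  have b1 := h.rot3 b0
  have b2 := h.rot3 b1
  have b3 := h.rot3 b2
  have c1 := h.rot3 c0
  have c2 := h.rot3 c1
  have c3 := h.rot3 c2
  have d1 := h.rot3 d0
  have d2 := h.rot3 d1
  have d3 := h.rot3 d2
  fin_cases i <;> fin_cases j <;> simp [third] at hk <;> subst hk <;>
    first
      | exact a0 | exact a1 | exact a2 | exact a3 | exact b0 | exact b1 | exact b2
      | exact b3 | exact c0 | exact c1 | exact c2 | exact c3 | exact d0 | exact d1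
      | exact d2 | exact d3

end abstract

end Pool.Agent.Lib.MP_d585ae_al.Tile
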