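import Pool.Agent.Lib.MP_d585ae_al.Tile.Rep

/-!
# From the integer checks to the hypotheses of the local-to-global theorem
-/

namespace Pool.Agent.Lib.MP_d585ae_al.Tile

open Matrix

/-- the index of the inverse -/
def opp (t : ℕ) : ℕ := if t < 6 then t + 6 else t - 6

/-- `D0` times the difference of the functional `h` at the neighbour `t` and `h` -/
def gvec (hv : V6) (t : ℕ) : V6 := (hv.mulM (mA (opp t))).sub (V6.smul D0 hv)

/-- `D0²` times `E2` times `h` at the second neighbour minus `E1` times `h` -/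
def gapv (hv : V6) (E1 E2 : ℕ) (t t' : ℕ) : V6 :=
  (V6.smul E2 ((hv.mulM (mA (opp t'))).mulM (mA (opp t)))).sub (V6.smul (E1 * (D0 * D0)) hv)

/-- the unit vectors -/
def e6 : ℕ → V6
  | 0 => ⟨1, 0, 0, 0, 0, 0⟩
  | 1 => ⟨0, 1, 0, 0, 0, 0⟩
  | 2 => ⟨0, 0, 1, 0, 0, 0⟩
  | 3 => ⟨0, 0, 0, 1, 0, 0⟩
  | 4 => ⟨0, 0, 0, 0, 1, 0⟩
  | _ => ⟨0, 0, 0, 0, 0, 1⟩

/-- the data -/
structure Data where
  n : ℕ
  W : ℕ → V6
  hv : V6
  C : V6
  X0 : V6
  X : ℕ → V6
  E1 : ℕ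
  E2 : ℕ

/-- the finitely many checks -/
structure Data.OK (D : Data) : Prop where
  n0 : 0 < D.n
  hrot : D.hv.rot = D.hv
  Cpos : 0 < D.C.x0
  box1 : ∀ j : Fin 6, ∃ c : Cert, c.ok0 D.n D.W (gvec D.hv)
    ((V6.smul (D.C.get j) D.hv).sub (e6 j)) = true
  box2 : ∀ j : Fin 6, ∃ c : Cert, c.ok0 D.n D.W (gvec D.hv)
    ((V6.smul (D.C.get j) D.hv).add (e6 j)) = true
  clos : ∀ i < D.n, ∀ t < 12, ∃ c : Cert, c.ok D.n D.W (gvec D.hv) D.hv D.C
    ((D.W i).mulM (mA (opp t))) = true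
  E2pos : 0 < D.E2
  E12 : D.E2 < D.E1
  gap1 : ∀ i j : Fin 6, (third i j).isSome = true ∨ ∃ c : Cert,
    c.ok D.n D.W (gvec D.hv) D.hv D.C (gapv D.hv D.E1 D.E2 i j) = true
  gap2 : ∀ i j : Fin 6, (third j i).isSome = true ∨ ∃ c : Cert,
    c.ok D.n D.W (gvec D.hv) D.hv D.C (gapv D.hv D.E1 D.E2 (i + 6) (j + 6)) = true
  gap3 : ∀ i j : Fin 6, i = j ∨ ∃ c : Cert,
    c.ok D.n D.W (gvec D.hv) D.hv D.C (gapv D.hv D.E1 D.E2 i (j + 6)) = true
  gap4 : ∀ i j : Fin 6, i = j ∨ ∃ c : Cert,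
    c.ok D.n D.W (gvec D.hv) D.hv D.C (gapv D.hv D.E1 D.E2 (i + 6) j) = true
  x0W : ∀ i < D.n, ∀ r < 4, 0 < ((D.W i).rots r).dot D.X0
  x0h : 0 < D.hv.dot D.X0
  x0g : ∀ t < 12, 0 < (gvec D.hv t).dot D.X0
  fW : ∀ t < 12, ∀ i < D.n, ∀ r < 4, 0 < ((D.W i).rots r).dot (D.X t)
  fh : ∀ t < 12, 0 < D.hv.dot (D.X t)
  f0 : ∀ t < 12, (gvec D.hv t).dot (D.X t) = 0
  fg : ∀ t < 12, ∀ t' < 12, 0 < (gvec D.hv t').dot (D.X t) ∨
    ((gvec D.hv t').dot (D.X t) = 0 ∧ ∀ i < D.n, ∀ r < 4,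
      0 < ((D.W i).rots r).dot ((mA (opp t')).mulV (D.X t)))

theorem V6.ext' {v w : V6} (h0 : v.x0 = w.x0) (h1 : v.x1 = w.x1) (h2 : v.x2 = w.x2)
    (h3 : v.x3 = w.x3) (h4 : v.x4 = w.x4) (h5 : v.x5 = w.x5) : v = w := by
  cases v; cases w
  simp only [V6.mk.injEq]
  exact ⟨h0, h1, h2, h3, h4, h5⟩

theorem V6.mulM_mP (v : V6) : v.mulM mP = v.rot := by
  apply V6.ext' <;> simp [V6.mulM, mP, V6.rot]

theorem V6.rot4 (v : V6) : v.rot.rot.rot.rot = v := by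
  apply V6.ext' <;> simp [V6.rot]

theorem V6.rots_four (v : V6) (r : ℕ) : v.rots (r + 4) = v.rots r := by
  show (v.rots r).rot.rot.rot.rot = v.rots r
  exact V6.rot4 _

theorem V6.rots_mod (v : V6) (r : ℕ) : v.rots (r % 4) = v.rots r := by
  induction r using Nat.strong_induction_on with
  | _ r ih =>
    rcases Nat.lt_or_ge r 4 with h | h
    · rw [Nat.mod_eq_of_lt h]
    · obtain ⟨k, rfl⟩ := Nat.exists_eq_add_of_le' h
      rw [V6.rots_four, Nat.add_mod_right]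
      exact ih k (by omega)

/-- `δ` -/
def bd : Braid 4 := bx * by' * bz

/-- the dual generators and their inverses -/
def sfun (t : ℕ) : Braid 4 :=
  if h : t < 6 then atm bx by' bz ⟨t, h⟩ else
    (atm bx by' bz ⟨(t - 6) % 6, Nat.mod_lt _ (by norm_num)⟩)⁻¹

theorem sfun_lo (i : Fin 6) : sfun i = atm bx by' bz i := by
  unfold sfun
  rw [dif_pos i.isLt]

theorem sfun_hi (i : Fin 6) : sfun (i + 6) = (atm bx by' bz i)⁻¹ := by
  unfold sfun
  rw [dif_neg (by omega)]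
  congr 2
  apply Fin.ext
  show (i.val + 6 - 6) % 6 = i.val
  rw [Nat.add_sub_cancel, Nat.mod_eq_of_lt i.isLt]

theorem opp_lo (i : Fin 6) : opp i = i + 6 := by
  unfold opp
  rw [if_pos i.isLt]

theorem opp_hi (i : Fin 6) : opp (i + 6) = i := by
  unfold opp
  rw [if_neg (by omega), Nat.add_sub_cancel]

/-- the neighbours -/
noncomputable def SS : Finset (Braid 4) := by
  classical exact (Finset.range 12).image sfun

theorem mem_SS {s : Braid 4} : s ∈ SS ↔ ∃ t < 12, s = sfun t := by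
  classical
  unfold SS
  rw [Finset.mem_image]
  constructor
  · rintro ⟨t, ht, rfl⟩
    exact ⟨t, Finset.mem_range.1 ht, rfl⟩
  · rintro ⟨t, ht, rfl⟩
    exact ⟨t, Finset.mem_range.2 ht, rfl⟩

theorem mem_SS' {s : Braid 4} : s ∈ SS ↔
    ∃ i : Fin 6, s = atm bx by' bz i ∨ s = (atm bx by' bz i)⁻¹ := by
  rw [mem_SS]
  constructor
  · rintro ⟨t, ht, rfl⟩
    rcases Nat.lt_or_ge t 6 with h | h
    · exact ⟨⟨t, h⟩, Or.inl (sfun_lo ⟨t, h⟩)⟩
    · refine ⟨⟨t - 6, by omega⟩, Or.inr ?_⟩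
      have := sfun_hi ⟨t - 6, by omega⟩
      rw [← this]
      congr 1
      show t = t - 6 + 6
      omega
  · rintro ⟨i, rfl | rfl⟩
    · exact ⟨i, by omega, (sfun_lo i).symm⟩
    · exact ⟨i + 6, by omega, (sfun_hi i).symm⟩

theorem rho_sfun_inv (t : ℕ) (ht : t < 12) : rhoM ℝ (sfun t)⁻¹ = sA ℝ (opp t) := by
  rcases Nat.lt_or_ge t 6 with h | h
  · have e := sfun_lo ⟨t, h⟩
    have e' := opp_lo ⟨t, h⟩
    simp only at e e'
    rw [e, e', rhoM_atm_inv]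
  · have e := sfun_hi ⟨t - 6, by omega⟩
    have e' := opp_hi ⟨t - 6, by omega⟩
    simp only at e e'
    have h6 : t - 6 + 6 = t := by omega
    rw [h6] at e e'
    rw [e, e', inv_inv, rhoM_atm]

/-- conjugation by `δ` -/
theorem conj_SS {s : Braid 4} (hs : s ∈ SS) : bd * s * bd⁻¹ ∈ SS := by
  obtain ⟨i, h⟩ := mem_SS'.1 hs
  rw [mem_SS']
  refine ⟨rotI i, ?_⟩
  rcases h with rfl | rfl
  · exact Or.inl (b_BR.conj i)
  · right
    rw [← b_BR.conj i]
    show bd * (atm bx by' bz i)⁻¹ * bd⁻¹ = (bd * atm bx by' bz i * bd⁻¹)⁻¹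
    group

theorem rotI_rotI' (i : Fin 6) : rotI (rotI' i) = i := by
  fin_cases i <;> rfl

theorem conj_SS' {s : Braid 4} (hs : s ∈ SS) : bd⁻¹ * s * bd ∈ SS := by
  obtain ⟨i, h⟩ := mem_SS'.1 hs
  rw [mem_SS']
  refine ⟨rotI' i, ?_⟩
  have e : bd * atm bx by' bz (rotI' i) * bd⁻¹ = atm bx by' bz i := by
    have := b_BR.conj (rotI' i)
    rw [rotI_rotI'] at this
    exact this
  rcases h with rfl | rfl
  · left
    rw [← e]
    group
  · right
    rw [← e]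
    group

theorem SS_inv {s : Braid 4} (hs : s ∈ SS) : s⁻¹ ∈ SS := by
  obtain ⟨i, h⟩ := mem_SS'.1 hs
  rw [mem_SS']
  refine ⟨i, ?_⟩
  rcases h with rfl | rfl
  · exact Or.inr rfl
  · exact Or.inl (inv_inv _)

theorem rho_bd : rhoM ℝ bd = M6.sc 1 mP := rhoM_delta ℝ

theorem toR_bd (v : V6) : v.toR ᵥ* rhoM ℝ bd = v.rot.toR := by
  rw [rho_bd, V6.toR_mulM, one_smul, V6.mulM_mP]

theorem toR_bd_inv (v : V6) : v.toR ᵥ* rhoM ℝ bd⁻¹ = (v.rots 3).toR := by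
  have e : v.toR = ((v.rots 3).rot).toR := by
    show v.toR = (v.rot.rot.rot.rot).toR
    rw [V6.rot4]
  calc v.toR ᵥ* rhoM ℝ bd⁻¹ = ((v.rots 3).rot).toR ᵥ* rhoM ℝ bd⁻¹ := by rw [← e]
    _ = ((v.rots 3).toR ᵥ* rhoM ℝ bd) ᵥ* rhoM ℝ bd⁻¹ := by rw [toR_bd]
    _ = (v.rots 3).toR := by
        rw [vecMul_vecMul, ← map_mul, mul_inv_cancel, map_one, vecMul_one]

section cert

variable (D : Data)

/-- the walls -/
def PhiS : Set (Fin 6 → ℝ) := {φ | ∃ i < D.n, ∃ r, φ = ((D.W i).rots r).toR}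

theorem D0R : (0 : ℝ) < (D0 : ℝ) := by
  unfold D0
  norm_num

theorem gvec_dot (hv : V6) (t : ℕ) (ht : t < 12) (x : Fin 6 → ℝ) :
    (gvec hv t).toR ⬝ᵥ x =
      (D0 : ℝ) * ((hv.toR ᵥ* rhoM ℝ (sfun t)⁻¹) ⬝ᵥ x - hv.toR ⬝ᵥ x) := by
  rw [rho_sfun_inv t ht]
  unfold sA gvec
  rw [V6.toR_mulM, V6.toR_sub, V6.toR_smul, sub_dotProduct, smul_dotProduct, smul_dotProduct,
    smul_eq_mul, smul_eq_mul]
  have := D0R.ne'
  field_simp

theorem GP_g {x : Fin 6 → ℝ} (hx : x ∈ GP (rhoM ℝ) SS D.hv.toR (PhiS D)) :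
    ∀ t < 12, 0 ≤ (gvec D.hv t).toR ⬝ᵥ x := by
  intro t ht
  rw [gvec_dot _ t ht]
  exact mul_nonneg D0R.le (sub_nonneg.2 (hx.1 _ (mem_SS.2 ⟨t, ht, rfl⟩)))

theorem GP_W {x : Fin 6 → ℝ} (hx : x ∈ GP (rhoM ℝ) SS D.hv.toR (PhiS D)) :
    ∀ i < D.n, ∀ r, 0 ≤ ((D.W i).rots r).toR ⬝ᵥ x := by
  intro i hi r
  exact hx.2 _ ⟨i, hi, r, rfl⟩

variable {D}

theorem e6_dot (j : Fin 6) (x : Fin 6 → ℝ) : (e6 j).toR ⬝ᵥ x = x j := by
  fin_cases j <;> simp [e6, V6.toR, V6.get, dotProduct, Fin.sum_univ_six]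

theorem GP_box (hD : D.OK) {x : Fin 6 → ℝ} (hx : x ∈ GP (rhoM ℝ) SS D.hv.toR (PhiS D)) :
    ∀ j, |x j| ≤ (D.C.get j : ℝ) * (D.hv.toR ⬝ᵥ x) := by
  intro j
  obtain ⟨c1, h1⟩ := hD.box1 j
  obtain ⟨c2, h2⟩ := hD.box2 j
  have a1 := Cert.sound0 h1 hD.n0 (GP_W D hx) (GP_g D hx)
  have a2 := Cert.sound0 h2 hD.n0 (GP_W D hx) (GP_g D hx)
  rw [V6.toR_sub, V6.toR_smul, sub_dotProduct, smul_dotProduct, smul_eq_mul, e6_dot] at a1
  rw [V6.toR_add, V6.toR_smul, add_dotProduct, smul_dotProduct, smul_eq_mul, e6_dot] at a2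
  rw [abs_le]
  constructor <;> linarith

theorem GP_h (hD : D.OK) {x : Fin 6 → ℝ} (hx : x ∈ GP (rhoM ℝ) SS D.hv.toR (PhiS D)) :
    0 ≤ D.hv.toR ⬝ᵥ x := by
  have h1 := GP_box hD hx 0
  have h2 := le_trans (abs_nonneg _) h1
  have h3 : (0 : ℝ) < (D.C.get 0 : ℝ) := by exact_mod_cast hD.Cpos
  exact nonneg_of_mul_nonneg_right h2 h3

theorem cert_GP (hD : D.OK) {x : Fin 6 → ℝ} (hx : x ∈ GP (rhoM ℝ) SS D.hv.toR (PhiS D))
    {v : V6} {c : Cert} (hc : c.ok D.n D.W (gvec D.hv) D.hv D.C v = true) :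
    0 ≤ v.toR ⬝ᵥ x :=
  Cert.sound hc hD.n0 (GP_W D hx) (GP_g D hx) (GP_h hD hx) (GP_box hD hx)

theorem h_bd (hD : D.OK) : D.hv.toR ᵥ* rhoM ℝ bd = D.hv.toR := by
  rw [toR_bd, hD.hrot]

/-- invariance of the basic tile -/
theorem GP_rot (hD : D.OK) {x : Fin 6 → ℝ} (hx : x ∈ GP (rhoM ℝ) SS D.hv.toR (PhiS D)) :
    rhoM ℝ bd *ᵥ x ∈ GP (rhoM ℝ) SS D.hv.toR (PhiS D) := by
  constructor
  · intro s hs
    rw [dotProduct_mulVec, dotProduct_mulVec, h_bd hD, vecMul_vecMul, ← map_mul]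
    have h1 := hx.1 _ (conj_SS' hs)
    have e : D.hv.toR ᵥ* rhoM ℝ (bd⁻¹ * s * bd)⁻¹ = D.hv.toR ᵥ* rhoM ℝ (s⁻¹ * bd) := by
      have e1 : (bd⁻¹ * s * bd)⁻¹ = bd⁻¹ * (s⁻¹ * bd) := by group
      rw [e1, map_mul, ← vecMul_vecMul]
      congr 1
      calc D.hv.toR ᵥ* rhoM ℝ bd⁻¹ = (D.hv.toR ᵥ* rhoM ℝ bd) ᵥ* rhoM ℝ bd⁻¹ := by
            rw [h_bd hD]
        _ = D.hv.toR := by
            rw [vecMul_vecMul, ← map_mul, mul_inv_cancel, map_one, vecMul_one]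
    rw [e] at h1
    exact h1
  · rintro φ ⟨i, hi, r, rfl⟩
    rw [dotProduct_mulVec, toR_bd]
    exact hx.2 _ ⟨i, hi, r + 1, rfl⟩

/-- the closure property, for all walls -/
theorem GP_clos (hD : D.OK) (i : ℕ) (hi : i < D.n) (r : ℕ) : ∀ s ∈ SS,
    ∀ x ∈ GP (rhoM ℝ) SS D.hv.toR (PhiS D), 0 ≤ (((D.W i).rots r).toR ᵥ* rhoM ℝ s⁻¹) ⬝ᵥ x := by
  induction r with
  | zero =>
    intro s hs x hx
    obtain ⟨t, ht, rfl⟩ := mem_SS.1 hs
    obtain ⟨c, hc⟩ := hD.clos i hi t ht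
    have h1 := cert_GP hD hx hc
    rw [rho_sfun_inv t ht]
    unfold sA
    rw [V6.toR_mulM, smul_dotProduct, smul_eq_mul]
    exact mul_nonneg (by
      have := D0R
      positivity) h1
  | succ r ih =>
    intro s hs x hx
    have h1 := ih _ (conj_SS hs) _ (GP_rot hD hx)
    rw [dotProduct_mulVec, vecMul_vecMul, ← map_mul] at h1
    have e : (bd * s * bd⁻¹)⁻¹ * bd = bd * s⁻¹ := by group
    rw [e, map_mul, ← vecMul_vecMul, toR_bd] at h1
    exact h1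

/-- the gap -/
theorem GP_gap (hD : D.OK) {t t' : ℕ} (ht : t < 12) (ht' : t' < 12) {c : Cert}
    (hc : c.ok D.n D.W (gvec D.hv) D.hv D.C (gapv D.hv D.E1 D.E2 t t') = true)
    {x : Fin 6 → ℝ} (hx : x ∈ GP (rhoM ℝ) SS D.hv.toR (PhiS D)) :
    (1 + ((D.E1 : ℝ) - D.E2) / D.E2) * (D.hv.toR ⬝ᵥ x) ≤
      (D.hv.toR ᵥ* rhoM ℝ (sfun t * sfun t')⁻¹) ⬝ᵥ x := by
  have h1 := cert_GP hD hx hc
  have hE : (0 : ℝ) < D.E2 := by exact_mod_cast hD.E2pos
  have e1 : rhoM ℝ (sfun t * sfun t')⁻¹ = sA ℝ (opp t') * sA ℝ (opp t) := by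
    rw [_root_.mul_inv_rev, map_mul, rho_sfun_inv t ht, rho_sfun_inv t' ht']
  have e2 : D.hv.toR ᵥ* rhoM ℝ (sfun t * sfun t')⁻¹ = (1 / (D0 : ℝ) * (1 / (D0 : ℝ))) •
      ((D.hv.mulM (mA (opp t'))).mulM (mA (opp t))).toR := by
    rw [e1, ← vecMul_vecMul]
    unfold sA
    rw [V6.toR_mulM, smul_vecMul, V6.toR_mulM, smul_smul]
  rw [e2, smul_dotProduct, smul_eq_mul]
  unfold gapv at h1
  rw [V6.toR_sub, V6.toR_smul, V6.toR_smul, sub_dotProduct, smul_dotProduct, smul_dotProduct,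
    smul_eq_mul, smul_eq_mul] at h1
  push_cast at h1
  have hD0 := D0R
  have e3 : (1 + ((D.E1 : ℝ) - D.E2) / D.E2) = D.E1 / D.E2 := by
    field_simp
    ring
  rw [e3, div_mul_eq_mul_div, div_le_iff₀ hE]
  have h2 : (D.E1 : ℝ) * ((D0 : ℝ) * D0) * (D.hv.toR ⬝ᵥ x) ≤
      D.E2 * (((D.hv.mulM (mA (opp t'))).mulM (mA (opp t))).toR ⬝ᵥ x) := by linarith
  have h3 : 0 < (D0 : ℝ) * D0 := mul_pos hD0 hD0
  have h4 : (D.E1 : ℝ) * (D.hv.toR ⬝ᵥ x) =
      (1 / ((D0 : ℝ) * D0)) * ((D.E1 : ℝ) * ((D0 : ℝ) * D0) * (D.hv.toR ⬝ᵥ x)) := by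
    field_simp
  have h5 : 1 / (D0 : ℝ) * (1 / (D0 : ℝ)) *
      (((D.hv.mulM (mA (opp t'))).mulM (mA (opp t))).toR ⬝ᵥ x) * D.E2 =
      (1 / ((D0 : ℝ) * D0)) *
        (D.E2 * (((D.hv.mulM (mA (opp t'))).mulM (mA (opp t))).toR ⬝ᵥ x)) := by
    field_simp
  rw [h4, h5]
  exact mul_le_mul_of_nonneg_left h2 (by positivity)

theorem dot_pos_of {v w : V6} (h : 0 < v.dot w) : 0 < v.toR ⬝ᵥ w.toR := by
  rw [V6.dot_toR]
  exact_mod_cast h

/-- the walls at a point, in all rotations -/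
theorem walls_pos {n : ℕ} {W : ℕ → V6} {X : V6}
    (h : ∀ i < n, ∀ r < 4, 0 < ((W i).rots r).dot X) :
    ∀ i < n, ∀ r, 0 < ((W i).rots r).toR ⬝ᵥ X.toR := by
  intro i hi r
  rw [← V6.rots_mod]
  exact dot_pos_of (h i hi (r % 4) (Nat.mod_lt _ (by norm_num)))

theorem bd_mem : bd ∈ Subgroup.zpowers bd := Subgroup.mem_zpowers bd

theorem data_gcert (hD : D.OK) : GCert (Subgroup.zpowers bd) (rhoM ℝ) SS D.hv.toR (PhiS D)
    D.X0.toR (((D.E1 : ℝ) - D.E2) / D.E2) := by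
  classical
  have hstab : ∀ η ∈ Subgroup.zpowers bd, D.hv.toR ᵥ* rhoM ℝ η = D.hv.toR := by
    intro η hη
    rw [Subgroup.zpowers_eq_closure] at hη
    induction hη using Subgroup.closure_induction with
    | mem x hx => rw [Set.mem_singleton_iff.1 hx]; exact h_bd hD
    | one => rw [map_one, vecMul_one]
    | mul x y _ _ hx hy => rw [map_mul, ← vecMul_vecMul, hx, hy]
    | inv x _ hx =>
      calc D.hv.toR ᵥ* rhoM ℝ x⁻¹ = (D.hv.toR ᵥ* rhoM ℝ x) ᵥ* rhoM ℝ x⁻¹ := by rw [hx]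
        _ = D.hv.toR := by
            rw [vecMul_vecMul, ← map_mul, mul_inv_cancel, map_one, vecMul_one]
  have hΦ : ∀ η ∈ Subgroup.zpowers bd, (∀ φ ∈ PhiS D, φ ᵥ* rhoM ℝ η ∈ PhiS D) ∧
      (∀ φ ∈ PhiS D, φ ᵥ* rhoM ℝ η⁻¹ ∈ PhiS D) := by
    intro η hη
    rw [Subgroup.zpowers_eq_closure] at hη
    induction hη using Subgroup.closure_induction with
    | mem x hx =>
      rw [Set.mem_singleton_iff.1 hx]
      constructor
      · rintro φ ⟨i, hi, r, rfl⟩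
        rw [toR_bd]
        exact ⟨i, hi, r + 1, rfl⟩
      · rintro φ ⟨i, hi, r, rfl⟩
        rw [toR_bd_inv]
        exact ⟨i, hi, r + 3, rfl⟩
    | one =>
      rw [inv_one, map_one]
      exact ⟨fun φ hφ => by rw [vecMul_one]; exact hφ, fun φ hφ => by rw [vecMul_one]; exact hφ⟩
    | mul x y _ _ hx hy =>
      constructor
      · intro φ hφ
        rw [map_mul, ← vecMul_vecMul]
        exact hy.1 _ (hx.1 _ hφ)
      · intro φ hφ
        rw [_root_.mul_inv_rev, map_mul, ← vecMul_vecMul]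
        exact hx.2 _ (hy.2 _ hφ)
    | inv x _ hx =>
      rw [inv_inv]
      exact ⟨hx.2, hx.1⟩
  have hconj : ∀ η ∈ Subgroup.zpowers bd, ∀ s ∈ SS, η * s * η⁻¹ ∈ SS ∧ η⁻¹ * s * η ∈ SS := by
    intro η hη
    rw [Subgroup.zpowers_eq_closure] at hη
    induction hη using Subgroup.closure_induction with
    | mem x hx =>
      rw [Set.mem_singleton_iff.1 hx]
      exact fun s hs => ⟨conj_SS hs, conj_SS' hs⟩
    | one => intro s hs; simpa using hs
    | mul x y _ _ hx hy =>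
      intro s hs
      constructor
      · have := (hx _ (hy s hs).1).1
        have e : x * y * s * (x * y)⁻¹ = x * (y * s * y⁻¹) * x⁻¹ := by group
        rw [e]; exact this
      · have := (hy _ (hx s hs).2).2
        have e : (x * y)⁻¹ * s * (x * y) = y⁻¹ * (x⁻¹ * s * x) * y := by group
        rw [e]; exact this
    | inv x _ hx =>
      intro s hs
      rw [inv_inv]
      exact ⟨(hx s hs).2, (hx s hs).1⟩
  have hE : (0 : ℝ) < D.E2 := by exact_mod_cast hD.E2pos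
  have hE' : (D.E2 : ℝ) < D.E1 := by exact_mod_cast hD.E12
  refine
  { eps := div_pos (by linarith) hE
    fin := ?_
    inv := ?_
    HS := ?_
    gen := ?_
    hH := hstab
    ΦH := fun η hη => (hΦ η hη).1
    gap := ?_
    clos := ?_
    base := ?_
    baseΦ := ?_
    hx0 := dot_pos_of hD.x0h
    facet := ?_ }
  · -- finiteness
    have : PhiS D ⊆ (((Finset.range D.n ×ˢ Finset.range 4).image
        fun p : ℕ × ℕ => ((D.W p.1).rots p.2).toR : Finset (Fin 6 → ℝ)) : Set (Fin 6 → ℝ)) := by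
      rintro φ ⟨i, hi, r, rfl⟩
      rw [Finset.mem_coe, Finset.mem_image]
      exact ⟨(i, r % 4), Finset.mem_product.2 ⟨Finset.mem_range.2 hi,
        Finset.mem_range.2 (Nat.mod_lt _ (by norm_num))⟩, by rw [V6.rots_mod]⟩
    exact (Finset.finite_toSet _).subset this
  · intro s hs
    exact ⟨s⁻¹, SS_inv hs, by rw [mul_inv_cancel]; exact Subgroup.one_mem _⟩
  · intro η hη s hs
    exact ⟨η * s * η⁻¹, (hconj η hη s hs).1, η, hη, by group⟩
  · rw [eq_top_iff, ← PresentedGroup.closure_range_of (braidRels 4), Subgroup.closure_le]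
    rintro _ ⟨k, rfl⟩
    apply Subgroup.subset_closure
    left
    have h0 : bx ∈ SS := mem_SS'.2 ⟨0, Or.inl rfl⟩
    have h1 : by' ∈ SS := mem_SS'.2 ⟨1, Or.inl rfl⟩
    have h2 : bz ∈ SS := mem_SS'.2 ⟨2, Or.inl rfl⟩
    have hk : k = (0 : Fin 3) ∨ k = (1 : Fin 3) ∨ k = (2 : Fin 3) := by
      have := k.isLt
      have h3 : k.val = 0 ∨ k.val = 1 ∨ k.val = 2 := by omega
      rcases h3 with h | h | h
      · left; exact Fin.ext h
      · right; left; exact Fin.ext h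
      · right; right; exact Fin.ext h
    rcases hk with rfl | rfl | rfl
    · exact h0
    · exact h1
    · exact h2
  · -- the gap
    intro s hs s' hs'
    obtain ⟨i, hi⟩ := mem_SS'.1 hs
    obtain ⟨j, hj⟩ := mem_SS'.1 hs'
    have hi6 := i.isLt
    have hj6 := j.isLt
    rcases hi with rfl | rfl <;> rcases hj with rfl | rfl
    · rcases hD.gap1 i j with h | ⟨c, hc⟩
      · obtain ⟨k, hk⟩ := Option.isSome_iff_exists.1 h
        have e := b_BR.third_eq i j k hk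
        right; left
        refine ⟨(bd * atm bx by' bz k * bd⁻¹)⁻¹, SS_inv (conj_SS (mem_SS'.2 ⟨k, Or.inl rfl⟩)), ?_⟩
        rw [inv_inv]
        have e1 : bd * atm bx by' bz k * bd⁻¹ * (atm bx by' bz i * atm bx by' bz j) = bd := by
          have e2 : atm bx by' bz i * atm bx by' bz j = bd * (atm bx by' bz k)⁻¹ := by
            rw [eq_mul_inv_iff_mul_eq]
            exact e
          rw [e2]
          group
        rw [e1]
        exact bd_mem
      · right; right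
        intro x hx
        have := GP_gap hD (by omega) (by omega) hc hx
        rw [sfun_lo, sfun_lo] at this
        exact this
    · rcases hD.gap3 i j with rfl | ⟨c, hc⟩
      · left
        rw [mul_inv_cancel]
        exact Subgroup.one_mem _
      · right; right
        intro x hx
        have := GP_gap hD (by omega) (by omega) hc hx
        rw [sfun_lo, sfun_hi] at this
        exact this
    · rcases hD.gap4 i j with rfl | ⟨c, hc⟩
      · left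
        rw [inv_mul_cancel]
        exact Subgroup.one_mem _
      · right; right
        intro x hx
        have := GP_gap hD (by omega) (by omega) hc hx
        rw [sfun_lo, sfun_hi] at this
        exact this
    · rcases hD.gap2 i j with h | ⟨c, hc⟩
      · obtain ⟨k, hk⟩ := Option.isSome_iff_exists.1 h
        have e := b_BR.third_eq j i k hk
        right; left
        refine ⟨atm bx by' bz k, mem_SS'.2 ⟨k, Or.inl rfl⟩, ?_⟩
        have e1 : (atm bx by' bz k)⁻¹ * ((atm bx by' bz i)⁻¹ * (atm bx by' bz j)⁻¹) = bd⁻¹ := by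
          show _ = (bx * by' * bz)⁻¹
          rw [← e]
          group
        rw [e1]
        exact Subgroup.inv_mem _ bd_mem
      · right; right
        intro x hx
        have := GP_gap hD (by omega) (by omega) hc hx
        rw [sfun_hi, sfun_hi] at this
        exact this
  · -- closure
    rintro s hs φ ⟨i, hi, r, rfl⟩ x hx
    exact GP_clos hD i hi r s hs x hx
  · -- the base point
    intro s hs
    obtain ⟨t, ht, rfl⟩ := mem_SS.1 hs
    have h1 := dot_pos_of (hD.x0g t ht)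
    rw [gvec_dot _ t ht] at h1
    have := (mul_pos_iff_of_pos_left D0R).1 h1
    linarith
  · rintro φ ⟨i, hi, r, rfl⟩
    exact walls_pos hD.x0W i hi r
  · -- the facets
    intro s hs
    obtain ⟨t, ht, rfl⟩ := mem_SS.1 hs
    have hg : ∀ t' < 12, 0 ≤ (gvec D.hv t').dot (D.X t) := by
      intro t' ht'
      rcases hD.fg t ht t' ht' with h | h
      · exact h.le
      · exact h.1.ge
    refine ⟨(D.X t).toR, ⟨?_, ?_⟩, dot_pos_of (hD.fh t ht), ?_, ?_, ?_⟩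
    · intro s hs
      obtain ⟨t', ht', rfl⟩ := mem_SS.1 hs
      have h1 : 0 ≤ (gvec D.hv t').toR ⬝ᵥ (D.X t).toR := by
        rw [V6.dot_toR]
        exact_mod_cast hg t' ht'
      rw [gvec_dot _ t' ht'] at h1
      have := nonneg_of_mul_nonneg_right h1 D0R
      linarith
    · rintro φ ⟨i, hi, r, rfl⟩
      exact (walls_pos (hD.fW t ht) i hi r).le
    · have h1 : (gvec D.hv t).toR ⬝ᵥ (D.X t).toR = 0 := by
        rw [V6.dot_toR, hD.f0 t ht]
        simp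
      rw [gvec_dot _ t ht] at h1
      rcases mul_eq_zero.1 h1 with h | h
      · exact absurd h D0R.ne'
      · linarith
    · rintro φ ⟨i, hi, r, rfl⟩
      exact walls_pos (hD.fW t ht) i hi r
    · intro s hs
      obtain ⟨t', ht', rfl⟩ := mem_SS.1 hs
      rcases hD.fg t ht t' ht' with h | ⟨_, h⟩
      · left
        have h1 := dot_pos_of h
        rw [gvec_dot _ t' ht'] at h1
        have := (mul_pos_iff_of_pos_left D0R).1 h1
        linarith
      · right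
        rintro φ ⟨i, hi, r, rfl⟩
        rw [← dotProduct_mulVec, rho_sfun_inv t' ht']
        unfold sA
        rw [V6.toR_mulV, dotProduct_smul, smul_eq_mul]
        exact mul_pos (by
          have := D0R
          positivity) (walls_pos h i hi r)

end cert

end Pool.Agent.Lib.MP_d585ae_al.Tile
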