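import Pool.Agent.Lib.MP_d585ae_al.Tile.DatC0
import Pool.Agent.Lib.MP_d585ae_al.Tile.DatC1
import Pool.Agent.Lib.MP_d585ae_al.Tile.DatC2
import Pool.Agent.Lib.MP_d585ae_al.Tile.DatC3
import Pool.Agent.Lib.MP_d585ae_al.Tile.DatC4
import Pool.Agent.Lib.MP_d585ae_al.Tile.DatC5
import Pool.Agent.Lib.MP_d585ae_al.Tile.DatC6
import Pool.Agent.Lib.MP_d585ae_al.Tile.DatG

/-!
# The certificate satisfies all checks
-/

namespace Pool.Agent.Lib.MP_d585ae_al.Tile

/-- the certificate -/
def theData : Data where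
  n := 98
  W := wD
  hv := hvD
  C := CD
  X0 := X0D
  X := XD
  E1 := 11
  E2 := 10

/-- the empty certificate -/
def c00 : Cert := ⟨0, 0, [], []⟩

/-- an entry of a table -/
def ent (T : List (List Cert)) (i j : ℕ) : Cert := (T.getD i []).getD j c00

theorem all6 {p : Fin 6 → Bool} (h : (List.finRange 6).all p = true) (i : Fin 6) : p i = true :=
  List.all_eq_true.1 h i (List.mem_finRange i)

theorem gap1_ok : ((List.finRange 6).all fun i => (List.finRange 6).all fun j =>
    (third i j).isSome || (ent gp1 i j).ok 98 wD (gvec hvD) hvD CD (gapv hvD 11 10 i j)) = true := by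
  decide +kernel

theorem gap2_ok : ((List.finRange 6).all fun i => (List.finRange 6).all fun j =>
    (third j i).isSome ||
      (ent gp2 i j).ok 98 wD (gvec hvD) hvD CD (gapv hvD 11 10 (i + 6) (j + 6))) = true := by
  decide +kernel

theorem gap3_ok : ((List.finRange 6).all fun i => (List.finRange 6).all fun j =>
    decide (i = j) || (ent gp3 i j).ok 98 wD (gvec hvD) hvD CD (gapv hvD 11 10 i (j + 6))) = true := by
  decide +kernel

theorem gap4_ok : ((List.finRange 6).all fun i => (List.finRange 6).all fun j =>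
    decide (i = j) || (ent gp4 i j).ok 98 wD (gvec hvD) hvD CD (gapv hvD 11 10 (i + 6) j)) = true := by
  decide +kernel

theorem box1_ok : ((List.finRange 6).all fun j => (bx1.getD j c00).ok0 98 wD (gvec hvD)
    ((V6.smul (CD.get j) hvD).sub (e6 j))) = true := by
  decide +kernel

theorem box2_ok : ((List.finRange 6).all fun j => (bx2.getD j c00).ok0 98 wD (gvec hvD)
    ((V6.smul (CD.get j) hvD).add (e6 j))) = true := by
  decide +kernel

theorem clos_ok : ∀ i < 98, ∀ t < 12, ∃ c : Cert, c.ok 98 wD (gvec hvD) hvD CD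
    ((wD i).mulM (mA (opp t))) = true := by
  intro i hi t ht
  rcases Nat.lt_or_ge i 14 with h0 | h0
  · exact checkFrom_sound cl0 0 cl0_ok i (Nat.zero_le _) h0 t ht
  rcases Nat.lt_or_ge i 28 with h1 | h1
  · exact checkFrom_sound cl1 14 cl1_ok i h0 h1 t ht
  rcases Nat.lt_or_ge i 42 with h2 | h2
  · exact checkFrom_sound cl2 28 cl2_ok i h1 h2 t ht
  rcases Nat.lt_or_ge i 56 with h3 | h3
  · exact checkFrom_sound cl3 42 cl3_ok i h2 h3 t ht
  rcases Nat.lt_or_ge i 70 with h4 | h4
  · exact checkFrom_sound cl4 56 cl4_ok i h3 h4 t ht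
  rcases Nat.lt_or_ge i 84 with h5 | h5
  · exact checkFrom_sound cl5 70 cl5_ok i h4 h5 t ht
  exact checkFrom_sound cl6 84 cl6_ok i h5 hi t ht

theorem x0W_ok : ∀ i < 98, ∀ r < 4, 0 < ((wD i).rots r).dot X0D := by
  decide +kernel

theorem x0g_ok : ∀ t < 12, 0 < (gvec hvD t).dot X0D := by
  decide +kernel

theorem fW_ok : ∀ t < 12, ∀ i < 98, ∀ r < 4, 0 < ((wD i).rots r).dot (XD t) := by
  decide +kernel

theorem fh_ok : ∀ t < 12, 0 < hvD.dot (XD t) := by
  decide +kernel

theorem f0_ok : ∀ t < 12, (gvec hvD t).dot (XD t) = 0 := by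
  decide +kernel

theorem fg_ok1 : ∀ t < 12, ∀ t' < 12, t = t' ∨ 0 < (gvec hvD t').dot (XD t) := by
  decide +kernel

theorem fg_ok2 : ∀ t < 12, ∀ i < 98, ∀ r < 4,
    0 < ((wD i).rots r).dot ((mA (opp t)).mulV (XD t)) := by
  decide +kernel

theorem theData_OK : theData.OK where
  n0 := by decide +kernel
  hrot := by decide +kernel
  Cpos := by decide +kernel
  box1 := fun j => ⟨_, all6 box1_ok j⟩
  box2 := fun j => ⟨_, all6 box2_ok j⟩
  clos := clos_ok
  E2pos := by decide +kernel
  E12 := by decide +kernel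
  gap1 := fun i j => by
    have h := all6 (all6 gap1_ok i) j
    rw [Bool.or_eq_true] at h
    rcases h with h | h
    · exact Or.inl h
    · exact Or.inr ⟨_, h⟩
  gap2 := fun i j => by
    have h := all6 (all6 gap2_ok i) j
    rw [Bool.or_eq_true] at h
    rcases h with h | h
    · exact Or.inl h
    · exact Or.inr ⟨_, h⟩
  gap3 := fun i j => by
    have h := all6 (all6 gap3_ok i) j
    rw [Bool.or_eq_true, decide_eq_true_eq] at h
    rcases h with h | h
    · exact Or.inl h
    · exact Or.inr ⟨_, h⟩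
  gap4 := fun i j => by
    have h := all6 (all6 gap4_ok i) j
    rw [Bool.or_eq_true, decide_eq_true_eq] at h
    rcases h with h | h
    · exact Or.inl h
    · exact Or.inr ⟨_, h⟩
  x0W := x0W_ok
  x0h := by decide +kernel
  x0g := x0g_ok
  fW := fW_ok
  fh := fh_ok
  f0 := f0_ok
  fg := fun t ht t' ht' => by
    rcases fg_ok1 t ht t' ht' with rfl | h
    · exact Or.inr ⟨f0_ok t ht, fg_ok2 t ht⟩
    · exact Or.inl h

end Pool.Agent.Lib.MP_d585ae_al.Tile
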