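import Pool.Agent.Lib.MP_d585ae_al.Tile.Check

/-!
# From the certificate to a faithful representation
-/

namespace Pool.Agent.Lib.MP_d585ae_al.Tile

open Matrix

/-- the exponent sum -/
def expo : Braid 4 →* Multiplicative ℤ :=
  homOf (fun _ => Multiplicative.ofAdd 1) ⟨rfl, rfl, rfl⟩

/-- the power of a unit with exponent the exponent sum -/
noncomputable def chi (u : ℚˣ) : Braid 4 →* ℚˣ := (zpowersHom ℚˣ u).comp expo

theorem chi_eq (u : ℚˣ) (β : Braid 4) :
    ((chi u β : ℚˣ) : ℚ) = (u : ℚ) ^ (Multiplicative.toAdd (expo β)) := by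
  unfold chi
  simp [zpowersHom_apply]

theorem chi_pos {u : ℚˣ} (hu : 0 < (u : ℚ)) (β : Braid 4) : 0 < ((chi u β : ℚˣ) : ℚ) := by
  rw [chi_eq]
  positivity

/-- scalar matrices -/
noncomputable def scal : ℚˣ →* GL (Fin 6) ℚ :=
  Units.map (algebraMap ℚ (Matrix (Fin 6) (Fin 6) ℚ)).toMonoidHom

/-- the representation `rho` times the power of `u` with exponent the exponent sum -/
noncomputable def rhoF (u : ℚˣ) : Braid 4 →* GL (Fin 6) ℚ where
  toFun β := scal (chi u β) * rho ℚ β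
  map_one' := by rw [map_one, map_one, map_one, mul_one]
  map_mul' β γ := by
    rw [map_mul, map_mul, map_mul]
    have hc : scal (chi u γ) * rho ℚ β = rho ℚ β * scal (chi u γ) := by
      apply Units.ext
      exact Algebra.commutes _ _
    calc scal (chi u β) * scal (chi u γ) * (rho ℚ β * rho ℚ γ)
        = scal (chi u β) * (scal (chi u γ) * rho ℚ β) * rho ℚ γ := by group
      _ = scal (chi u β) * (rho ℚ β * scal (chi u γ)) * rho ℚ γ := by rw [hc]
      _ = _ := by group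

theorem map_sA (i : ℕ) : (sA ℚ i).map (Rat.cast : ℚ → ℝ) = sA ℝ i := by
  ext a b
  simp [sA, M6.sc]

theorem map_rho : (Matrix.GeneralLinearGroup.map (n := Fin 6) (Rat.castHom ℝ)).comp (rho ℚ) =
    rho ℝ := by
  apply PresentedGroup.ext
  intro k
  show Matrix.GeneralLinearGroup.map (n := Fin 6) (Rat.castHom ℝ)
    (homOf (gen ℚ) (gen_BR ℚ) (PresentedGroup.of k)) =
    homOf (gen ℝ) (gen_BR ℝ) (PresentedGroup.of k)
  rw [homOf_of, homOf_of]
  apply Units.ext
  exact map_sA k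

theorem map_rhoM (β : Braid 4) : (rhoM ℚ β).map (Rat.cast : ℚ → ℝ) = rhoM ℝ β := by
  have h := congrArg (fun f : Braid 4 →* GL (Fin 6) ℝ =>
    ((f β : GL (Fin 6) ℝ) : Matrix (Fin 6) (Fin 6) ℝ)) map_rho
  exact h

theorem rho_bd4 : rhoM ℝ bd ^ 4 = 1 := by
  rw [rho_bd]
  have e : ((mP.mul mP).mul mP).mul mP = M6.one := by decide +kernel
  calc (M6.sc 1 mP : Matrix (Fin 6) (Fin 6) ℝ) ^ 4
      = M6.sc 1 mP * M6.sc 1 mP * M6.sc 1 mP * M6.sc 1 mP := by
        rw [pow_succ, pow_succ, pow_succ, pow_one]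
    _ = 1 := by
        rw [M6.sc_mul, M6.sc_mul, M6.sc_mul, e]
        simp only [mul_one]
        exact M6.sc_one

theorem expo_bd : expo bd = Multiplicative.ofAdd 3 := by
  unfold bd bx by' bz expo
  rw [map_mul, map_mul, homOf_of, homOf_of, homOf_of]
  rfl

/-- **The checks give a faithful representation.** -/
theorem faithful_of_OK {D : Data} (hD : D.OK) {u : ℚˣ} (hu : 0 < (u : ℚ)) (hu1 : (u : ℚ) ≠ 1) :
    Function.Injective (rhoF u) := by
  rw [injective_iff_map_eq_one]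
  intro β hβ
  have hM : ((chi u β : ℚˣ) : ℚ) • rhoM ℚ β = 1 := by
    have h : ((rhoF u β : GL (Fin 6) ℚ) : Matrix (Fin 6) (Fin 6) ℚ) = 1 := by rw [hβ]; rfl
    have e : ((rhoF u β : GL (Fin 6) ℚ) : Matrix (Fin 6) (Fin 6) ℚ) =
        algebraMap ℚ (Matrix (Fin 6) (Fin 6) ℚ) ((chi u β : ℚˣ) : ℚ) * rhoM ℚ β := rfl
    rw [e, ← Algebra.smul_def] at h
    exact h
  set c : ℝ := (((chi u β : ℚˣ) : ℚ) : ℝ) with hc
  have hcpos : 0 < c := by
    rw [hc]
    exact_mod_cast chi_pos hu β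
  have hMR : c • rhoM ℝ β = 1 := by
    have h : (((chi u β : ℚˣ) : ℚ) • rhoM ℚ β).map (Rat.cast : ℚ → ℝ) =
        (1 : Matrix (Fin 6) (Fin 6) ℚ).map (Rat.cast : ℚ → ℝ) := by rw [hM]
    have e1 : ((((chi u β : ℚˣ) : ℚ) • rhoM ℚ β).map (Rat.cast : ℚ → ℝ)) = c • rhoM ℝ β := by
      rw [← map_rhoM]
      ext a b
      simp [hc]
    have e2 : ((1 : Matrix (Fin 6) (Fin 6) ℚ).map (Rat.cast : ℚ → ℝ)) = 1 := by
      ext a b
      simp [Matrix.one_apply]
      split <;> simp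
    rw [e1, e2] at h
    exact h
  have h1 : rhoM ℝ β = c⁻¹ • (1 : Matrix (Fin 6) (Fin 6) ℝ) := by
    rw [← hMR, smul_smul, inv_mul_cancel₀ hcpos.ne', one_smul]
  have h2 : rhoM ℝ β⁻¹ = c • (1 : Matrix (Fin 6) (Fin 6) ℝ) := by
    have := rhoM_inv_mul ℝ β
    rw [h1, Matrix.mul_smul, mul_one] at this
    rw [← this, smul_smul, mul_inv_cancel₀ hcpos.ne', one_smul]
  have G := data_gcert hD
  have hx0 := G.hx0
  -- the element is a power of `δ`
  have hmem : β ∈ Subgroup.zpowers bd := by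
    by_contra hn
    have hn' : β⁻¹ ∉ Subgroup.zpowers bd := fun h => hn ((Subgroup.inv_mem_iff _).1 h)
    have a1 := gcert_main G β hn
    have a2 := gcert_main G β⁻¹ hn'
    rw [inv_inv, h1, vecMul_smul, vecMul_one, smul_dotProduct, smul_eq_mul] at a2
    rw [h2, vecMul_smul, vecMul_one, smul_dotProduct, smul_eq_mul] at a1
    have b1 : 1 < c := by
      by_contra hlt
      push Not at hlt
      have := mul_le_mul_of_nonneg_right hlt hx0.le
      linarith
    have b2 : c⁻¹ < 1 := inv_lt_one_of_one_lt₀ b1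
    have := mul_lt_mul_of_pos_right b2 hx0
    linarith
  obtain ⟨k, hk⟩ := Subgroup.mem_zpowers_iff.1 hmem
  -- the fourth power acts trivially
  have h4 : rhoM ℝ β ^ 4 = 1 := by
    have e : β ^ 4 = (bd ^ 4) ^ k := by
      rw [← hk, ← zpow_natCast, ← zpow_natCast, ← _root_.zpow_mul, ← _root_.zpow_mul, mul_comm]
    rw [← map_pow, e]
    have e1 : rho ℝ (bd ^ 4) = 1 := by
      apply Units.ext
      show rhoM ℝ (bd ^ 4) = 1
      rw [map_pow, rho_bd4]
    show ((rho ℝ ((bd ^ 4) ^ k) : GL (Fin 6) ℝ) : Matrix (Fin 6) (Fin 6) ℝ) = 1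
    rw [map_zpow, e1, _root_.one_zpow]
    rfl
  have hc1 : c = 1 := by
    rw [h1, smul_pow, one_pow] at h4
    have h5 := congrFun (congrFun h4 0) 0
    simp only [Matrix.smul_apply, Matrix.one_apply_eq, smul_eq_mul, mul_one] at h5
    have h6 : c⁻¹ = 1 := (pow_eq_one_iff_of_nonneg (inv_nonneg.2 hcpos.le) (by norm_num)).1 h5
    exact inv_eq_one.1 h6
  -- hence the exponent is zero
  have he : Multiplicative.toAdd (expo β) = 3 * k := by
    rw [← hk, map_zpow, expo_bd, toAdd_zpow, toAdd_ofAdd, smul_eq_mul, mul_comm]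
  have hq : ((chi u β : ℚˣ) : ℚ) = 1 := by
    rw [hc] at hc1
    exact_mod_cast hc1
  rw [chi_eq, he] at hq
  have hz : 3 * k = 0 := by
    exact (zpow_eq_one_iff_right₀ hu.le hu1).1 hq
  have hk0 : k = 0 := by omega
  rw [← hk, hk0, zpow_zero]

end Pool.Agent.Lib.MP_d585ae_al.Tile
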