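import Pool.Agent.Lib.MP_d585ae_al.Tile.Abs

/-!
# The local-to-global theorem for a group acting on a real vector space
-/

namespace Pool.Agent.Lib.MP_d585ae_al.Tile

open Matrix

variable {G : Type*} [Group G] {d : ℕ}

/-- the basic tile -/
def GP (ρ : G →* Matrix (Fin d) (Fin d) ℝ) (S : Finset G) (h : Fin d → ℝ)
    (Φ : Set (Fin d → ℝ)) : Set (Fin d → ℝ) :=
  {x | (∀ s ∈ S, h ⬝ᵥ x ≤ (h ᵥ* ρ s⁻¹) ⬝ᵥ x) ∧ ∀ φ ∈ Φ, 0 ≤ φ ⬝ᵥ x}

/-- the finitely many hypotheses -/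
structure GCert (H : Subgroup G) (ρ : G →* Matrix (Fin d) (Fin d) ℝ) (S : Finset G)
    (h : Fin d → ℝ) (Φ : Set (Fin d → ℝ)) (x0 : Fin d → ℝ) (ε : ℝ) : Prop where
  eps : 0 < ε
  fin : Φ.Finite
  inv : ∀ s ∈ S, ∃ s' ∈ S, s * s' ∈ H
  HS : ∀ η ∈ H, ∀ s ∈ S, ∃ s' ∈ S, ∃ η' ∈ H, η * s = s' * η'
  gen : Subgroup.closure ((S : Set G) ∪ H) = ⊤
  hH : ∀ η ∈ H, h ᵥ* ρ η = h
  ΦH : ∀ η ∈ H, ∀ φ ∈ Φ, φ ᵥ* ρ η ∈ Φ
  gap : ∀ s ∈ S, ∀ s' ∈ S, s * s' ∈ H ∨ (∃ s'' ∈ S, s''⁻¹ * (s * s') ∈ H) ∨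
    ∀ x ∈ GP ρ S h Φ, (1 + ε) * (h ⬝ᵥ x) ≤ (h ᵥ* ρ (s * s')⁻¹) ⬝ᵥ x
  clos : ∀ s ∈ S, ∀ φ ∈ Φ, ∀ x ∈ GP ρ S h Φ, 0 ≤ (φ ᵥ* ρ s⁻¹) ⬝ᵥ x
  base : ∀ s ∈ S, h ⬝ᵥ x0 < (h ᵥ* ρ s⁻¹) ⬝ᵥ x0
  baseΦ : ∀ φ ∈ Φ, 0 < φ ⬝ᵥ x0
  hx0 : 0 < h ⬝ᵥ x0
  facet : ∀ s ∈ S, ∃ x ∈ GP ρ S h Φ, 0 < h ⬝ᵥ x ∧ (h ᵥ* ρ s⁻¹) ⬝ᵥ x = h ⬝ᵥ x ∧
    (∀ φ ∈ Φ, 0 < φ ⬝ᵥ x) ∧
    ∀ s' ∈ S, h ⬝ᵥ x < (h ᵥ* ρ s'⁻¹) ⬝ᵥ x ∨ ∀ φ ∈ Φ, 0 < (φ ᵥ* ρ s'⁻¹) ⬝ᵥ x

variable {H : Subgroup G} {ρ : G →* Matrix (Fin d) (Fin d) ℝ} {S : Finset G}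
  {h : Fin d → ℝ} {Φ : Set (Fin d → ℝ)} {x0 : Fin d → ℝ} {ε : ℝ}

/-- the functional `a` moved to `g` -/
def mv (ρ : G →* Matrix (Fin d) (Fin d) ℝ) (g : G) (a : Fin d → ℝ) (x : Fin d → ℝ) : ℝ :=
  (a ᵥ* ρ g⁻¹) ⬝ᵥ x

theorem mv_eq (g : G) (a x : Fin d → ℝ) : mv ρ g a x = a ⬝ᵥ (ρ g⁻¹ *ᵥ x) := by
  unfold mv
  rw [dotProduct_mulVec]

theorem mv_mul (g g' : G) (a x : Fin d → ℝ) : mv ρ (g * g') a x = mv ρ g' a (ρ g⁻¹ *ᵥ x) := by
  rw [mv_eq, mv_eq, _root_.mul_inv_rev, map_mul, ← mulVec_mulVec]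

theorem mv_one (a x : Fin d → ℝ) : mv ρ 1 a x = a ⬝ᵥ x := by
  rw [mv_eq]; simp

theorem mv_aff (g : G) (a : Fin d → ℝ) : Aff (mv ρ g a) := by
  constructor
  · unfold mv
    exact Continuous.dotProduct continuous_const continuous_id
  · intro x y t
    unfold mv seg
    rw [dotProduct_add, dotProduct_smul, dotProduct_sub, smul_eq_mul]
    ring

theorem mv_mulVec (g : G) (a x : Fin d → ℝ) : mv ρ g a (ρ g *ᵥ x) = a ⬝ᵥ x := by
  rw [mv_eq, mulVec_mulVec, ← map_mul]; simp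

/-- the system of tiles, indexed by the cosets -/
noncomputable def gsys (H : Subgroup G) (ρ : G →* Matrix (Fin d) (Fin d) ℝ) (S : Finset G)
    (h : Fin d → ℝ) (Φ : Set (Fin d → ℝ)) (c0 : ℝ) : Sys (Fin d → ℝ) (G ⧸ H) := by
  classical exact
  { h := fun q => mv ρ q.out h
    N := fun q => S.image fun s => ((q.out * s : G) : G ⧸ H)
    Φ := fun q => insert (fun x => mv ρ q.out h x - c0) ((fun φ => mv ρ q.out φ) '' Φ) }

theorem out_eq (g : G) : ∃ η ∈ H, ((g : G ⧸ H)).out = g * η := by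
  have : ((((g : G ⧸ H)).out : G) : G ⧸ H) = (g : G ⧸ H) := QuotientGroup.out_eq' _
  rw [eq_comm, QuotientGroup.eq] at this
  exact ⟨_, this, by group⟩

theorem mv_out (C : GCert H ρ S h Φ x0 ε) (g : G) (x : Fin d → ℝ) :
    mv ρ ((g : G ⧸ H)).out h x = mv ρ g h x := by
  obtain ⟨η, hη, e⟩ := out_eq (H := H) g
  rw [e]
  unfold mv
  rw [_root_.mul_inv_rev, map_mul, ← vecMul_vecMul, C.hH _ (H.inv_mem hη)]

theorem gsys_h (C : GCert H ρ S h Φ x0 ε) (c0 : ℝ) (g : G) (x : Fin d → ℝ) :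
    (gsys H ρ S h Φ c0).h (g : G ⧸ H) x = mv ρ g h x := mv_out C g x

theorem gsys_N (C : GCert H ρ S h Φ x0 ε) (c0 : ℝ) (g : G) (q' : G ⧸ H) :
    q' ∈ (gsys H ρ S h Φ c0).N (g : G ⧸ H) ↔ ∃ s ∈ S, q' = ((g * s : G) : G ⧸ H) := by
  classical
  obtain ⟨η, hη, e⟩ := out_eq (H := H) g
  show q' ∈ S.image (fun s => ((((g : G ⧸ H)).out * s : G) : G ⧸ H)) ↔ _
  rw [Finset.mem_image]
  constructor
  · rintro ⟨s, hs, rfl⟩
    obtain ⟨s', hs', η', hη', he⟩ := C.HS η hη s hs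
    refine ⟨s', hs', ?_⟩
    rw [e, mul_assoc, he, QuotientGroup.eq]
    have : (g * (s' * η'))⁻¹ * (g * s') = η'⁻¹ := by group
    rw [this]
    exact H.inv_mem hη'
  · rintro ⟨s, hs, rfl⟩
    obtain ⟨s', hs', η', hη', he⟩ := C.HS η⁻¹ (H.inv_mem hη) s hs
    refine ⟨s', hs', ?_⟩
    rw [e, QuotientGroup.eq]
    have h1 : s' = η⁻¹ * s * η'⁻¹ := by rw [he]; group
    have : (g * η * s')⁻¹ * (g * s) = η' := by rw [h1]; group
    rw [this]
    exact hη'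

theorem gsys_Φ (C : GCert H ρ S h Φ x0 ε) (c0 : ℝ) (g : G) (f : (Fin d → ℝ) → ℝ) :
    f ∈ (gsys H ρ S h Φ c0).Φ (g : G ⧸ H) ↔
      f = (fun x => mv ρ g h x - c0) ∨ ∃ φ ∈ Φ, f = mv ρ g φ := by
  show f ∈ insert _ _ ↔ _
  rw [Set.mem_insert_iff]
  have e1 : (fun x => mv ρ ((g : G ⧸ H)).out h x - c0) = fun x => mv ρ g h x - c0 := by
    funext x
    rw [mv_out C]
  rw [e1]
  obtain ⟨η, hη, e⟩ := out_eq (H := H) g
  have key : ∀ φ, mv ρ ((g : G ⧸ H)).out φ = mv ρ g (φ ᵥ* ρ η⁻¹) := by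
    intro φ
    funext x
    rw [e]
    unfold mv
    rw [_root_.mul_inv_rev, map_mul, ← vecMul_vecMul]
  constructor
  · rintro (rfl | ⟨φ, hφ, rfl⟩)
    · exact Or.inl rfl
    · exact Or.inr ⟨φ ᵥ* ρ η⁻¹, C.ΦH _ (H.inv_mem hη) φ hφ, key φ⟩
  · rintro (rfl | ⟨φ, hφ, rfl⟩)
    · exact Or.inl rfl
    · refine Or.inr ⟨φ ᵥ* ρ η, C.ΦH _ hη φ hφ, ?_⟩
      show mv ρ ((g : G ⧸ H)).out _ = _
      rw [key, vecMul_vecMul, ← map_mul]
      simp

theorem gsys_P (C : GCert H ρ S h Φ x0 ε) (c0 : ℝ) (g : G) (x : Fin d → ℝ) :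
    x ∈ (gsys H ρ S h Φ c0).P (g : G ⧸ H) ↔
      (ρ g⁻¹ *ᵥ x) ∈ GP ρ S h Φ ∧ c0 ≤ h ⬝ᵥ (ρ g⁻¹ *ᵥ x) := by
  have hN : ∀ s, mv ρ (g * s) h x = (h ᵥ* ρ s⁻¹) ⬝ᵥ (ρ g⁻¹ *ᵥ x) := by
    intro s
    rw [mv_mul]
    rfl
  have hg : mv ρ g h x = h ⬝ᵥ (ρ g⁻¹ *ᵥ x) := mv_eq g h x
  constructor
  · rintro ⟨h1, h2⟩
    refine ⟨⟨?_, ?_⟩, ?_⟩
    · intro s hs
      have := h1 ((g * s : G) : G ⧸ H) ((gsys_N C c0 g _).2 ⟨s, hs, rfl⟩)
      rw [gsys_h C, gsys_h C, hN, hg] at this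
      exact this
    · intro φ hφ
      have := h2 (mv ρ g φ) ((gsys_Φ C c0 g _).2 (Or.inr ⟨φ, hφ, rfl⟩))
      rw [mv_eq] at this
      exact this
    · have := h2 _ ((gsys_Φ C c0 g _).2 (Or.inl rfl))
      rw [hg] at this
      linarith
  · rintro ⟨⟨h1, h2⟩, h3⟩
    constructor
    · intro q' hq'
      obtain ⟨s, hs, rfl⟩ := (gsys_N C c0 g _).1 hq'
      rw [gsys_h C, gsys_h C, hN, hg]
      exact h1 s hs
    · intro f hf
      rcases (gsys_Φ C c0 g f).1 hf with rfl | ⟨φ, hφ, rfl⟩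
      · simp only
        rw [hg]
        linarith
      · rw [mv_eq]
        exact h2 φ hφ

theorem gcert_good (C : GCert H ρ S h Φ x0 ε) :
    (gsys H ρ S h Φ ((h ⬝ᵥ x0) / 2)).Good ((1 : G) : G ⧸ H) x0 ε ((h ⬝ᵥ x0) / 2) S.card := by
  classical
  set c0 := (h ⬝ᵥ x0) / 2 with hc0
  have hc0pos : 0 < c0 := half_pos C.hx0
  have ind : ∀ {p : G ⧸ H → Prop}, (∀ g : G, p (g : G ⧸ H)) → ∀ q, p q := by
    intro p hp q
    induction q using QuotientGroup.induction_on with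
    | H g => exact hp g
  have hgs : ∀ (g s : G) (x : Fin d → ℝ), mv ρ (g * s) h x = (h ᵥ* ρ s⁻¹) ⬝ᵥ (ρ g⁻¹ *ᵥ x) := by
    intro g s x
    rw [mv_mul]; rfl
  refine
  { eps := C.eps
    cpos := hc0pos
    affh := ?_
    affΦ := ?_
    fin := ?_
    symm := ?_
    card := ?_
    pos := ?_
    gap := ?_
    clos := ?_
    nz := ?_
    base := ?_
    baseΦ := ?_
    conn := ?_
    facet := ?_ }
  · intro q; exact mv_aff _ _
  · intro q f hf
    rcases hf with rfl | ⟨φ, _, rfl⟩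
    · refine ⟨(mv_aff _ _).1.sub continuous_const, ?_⟩
      intro x y t
      simp only
      rw [(mv_aff _ _).2]
      ring
    · exact mv_aff _ _
  · intro q
    exact (C.fin.image _).insert _
  · apply ind
    intro g q' hq'
    obtain ⟨s, hs, rfl⟩ := (gsys_N C c0 g _).1 hq'
    obtain ⟨s', hs', hss⟩ := C.inv s hs
    refine (gsys_N C c0 (g * s) _).2 ⟨s', hs', ?_⟩
    rw [QuotientGroup.eq]
    have : g⁻¹ * (g * s * s') = s * s' := by group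
    rw [this]
    exact hss
  · intro q
    exact Finset.card_image_le
  · apply ind
    intro g x hx
    rw [gsys_h C, mv_eq]
    exact ((gsys_P C c0 g x).1 hx).2
  · apply ind
    intro g q' hq' q'' hq''
    obtain ⟨s, hs, rfl⟩ := (gsys_N C c0 g _).1 hq'
    obtain ⟨s', hs', rfl⟩ := (gsys_N C c0 (g * s) _).1 hq''
    rcases C.gap s hs s' hs' with h1 | ⟨s'', hs'', h1⟩ | h1
    · left
      rw [eq_comm, QuotientGroup.eq]
      have : g⁻¹ * (g * s * s') = s * s' := by group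
      rw [this]
      exact h1
    · right; left
      refine (gsys_N C c0 g _).2 ⟨s'', hs'', ?_⟩
      rw [eq_comm, QuotientGroup.eq]
      have : (g * s'')⁻¹ * (g * s * s') = s''⁻¹ * (s * s') := by group
      rw [this]
      exact h1
    · right; right
      intro x hx
      rw [gsys_h C, gsys_h C, mul_assoc, hgs, mv_eq]
      exact h1 _ ((gsys_P C c0 g x).1 hx).1
  · apply ind
    intro g q' hq' f hf x hx
    obtain ⟨s, hs, rfl⟩ := (gsys_N C c0 g _).1 hq'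
    obtain ⟨hxP, hxc⟩ := (gsys_P C c0 g x).1 hx
    rcases (gsys_Φ C c0 (g * s) f).1 hf with rfl | ⟨φ, hφ, rfl⟩
    · simp only
      rw [hgs]
      have := hxP.1 s hs
      linarith
    · rw [mv_mul]
      exact C.clos s hs φ hφ _ hxP
  · apply ind
    intro g f hf
    rcases (gsys_Φ C c0 g f).1 hf with rfl | ⟨φ, hφ, rfl⟩
    · refine ⟨0, ?_⟩
      simp only [mv, dotProduct_zero, zero_sub]
      exact neg_ne_zero.2 hc0pos.ne'
    · refine ⟨ρ g *ᵥ x0, ?_⟩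
      rw [mv_mulVec]
      exact (C.baseΦ φ hφ).ne'
  · intro q' hq'
    obtain ⟨s, hs, rfl⟩ := (gsys_N C c0 1 _).1 hq'
    rw [gsys_h C, gsys_h C, mv_one, one_mul]
    exact C.base s hs
  · intro f hf
    rcases (gsys_Φ C c0 1 f).1 hf with rfl | ⟨φ, hφ, rfl⟩
    · simp only
      rw [mv_one]
      linarith [C.hx0]
    · rw [mv_one]
      exact C.baseΦ φ hφ
  · -- connectedness
    have hadj : ∀ g : G, ∀ s ∈ S, ((g * s : G) : G ⧸ H) ∈
        (gsys H ρ S h Φ c0).N (g : G ⧸ H) := fun g s hs => (gsys_N C c0 g _).2 ⟨s, hs, rfl⟩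
    have hsymm : ∀ a b : G ⧸ H, b ∈ (gsys H ρ S h Φ c0).N a → a ∈ (gsys H ρ S h Φ c0).N b := by
      apply ind (p := fun a => ∀ b, b ∈ (gsys H ρ S h Φ c0).N a →
        a ∈ (gsys H ρ S h Φ c0).N b)
      intro g q' hq'
      obtain ⟨s, hs, rfl⟩ := (gsys_N C c0 g _).1 hq'
      obtain ⟨s', hs', hss⟩ := C.inv s hs
      refine (gsys_N C c0 (g * s) _).2 ⟨s', hs', ?_⟩
      rw [QuotientGroup.eq]
      have : g⁻¹ * (g * s * s') = s * s' := by group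
      rw [this]
      exact hss
    have hrev : ∀ a b : G ⧸ H, Relation.ReflTransGen
        (fun a b => b ∈ (gsys H ρ S h Φ c0).N a) a b → Relation.ReflTransGen
        (fun a b => b ∈ (gsys H ρ S h Φ c0).N a) b a := by
      intro a b hab
      induction hab with
      | refl => exact Relation.ReflTransGen.refl
      | tail _ hbc ih => exact Relation.ReflTransGen.head (hsymm _ _ hbc) ih
    have key : ∀ g : G, ∀ g0 : G, Relation.ReflTransGen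
        (fun a b => b ∈ (gsys H ρ S h Φ c0).N a) (g0 : G ⧸ H) ((g0 * g : G) : G ⧸ H) := by
      intro g
      have hg : g ∈ Subgroup.closure ((S : Set G) ∪ H) := by rw [C.gen]; trivial
      induction hg using Subgroup.closure_induction with
      | mem x hx =>
        intro g0
        rcases hx with hx | hx
        · exact Relation.ReflTransGen.single (hadj g0 x hx)
        · have : ((g0 * x : G) : G ⧸ H) = (g0 : G ⧸ H) := by
            rw [eq_comm, QuotientGroup.eq]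
            have : g0⁻¹ * (g0 * x) = x := by group
            rw [this]
            exact hx
          rw [this]
      | one => intro g0; rw [mul_one]
      | mul x y _ _ hx hy =>
        intro g0
        rw [← mul_assoc]
        exact (hx g0).trans (hy (g0 * x))
      | inv x _ hx =>
        intro g0
        have h1 := hx (g0 * x⁻¹)
        rw [inv_mul_cancel_right] at h1
        exact hrev _ _ h1
    apply ind
    intro g
    have := key g 1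
    rw [one_mul] at this
    exact this
  · apply ind
    intro g q' hq'
    obtain ⟨s, hs, rfl⟩ := (gsys_N C c0 g _).1 hq'
    obtain ⟨x, hx, hpos, he, hΦ, halt⟩ := C.facet s hs
    have hk : 0 < 2 * c0 / (h ⬝ᵥ x) := div_pos (by linarith) hpos
    set k := 2 * c0 / (h ⬝ᵥ x) with hkdef
    have hyP : k • x ∈ GP ρ S h Φ := by
      constructor
      · intro s hs
        rw [dotProduct_smul, dotProduct_smul, smul_eq_mul, smul_eq_mul]
        exact mul_le_mul_of_nonneg_left (hx.1 s hs) hk.le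
      · intro φ hφ
        rw [dotProduct_smul, smul_eq_mul]
        exact mul_nonneg hk.le (hx.2 φ hφ)
    have hyh : h ⬝ᵥ (k • x) = 2 * c0 := by
      rw [dotProduct_smul, smul_eq_mul, hkdef]
      exact div_mul_cancel₀ _ hpos.ne'
    have hye : (h ᵥ* ρ s⁻¹) ⬝ᵥ (k • x) = h ⬝ᵥ (k • x) := by
      rw [dotProduct_smul, dotProduct_smul, he]
    have hgy : ρ g⁻¹ *ᵥ (ρ g *ᵥ (k • x)) = k • x := by
      rw [mulVec_mulVec, ← map_mul]; simp
    refine ⟨ρ g *ᵥ (k • x), ⟨(gsys_P C c0 g _).2 ⟨by rw [hgy]; exact hyP, by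
      rw [hgy, hyh]; linarith⟩, ?_⟩, ?_⟩
    · intro w hw hew f hf
      rcases hw with rfl | hw
      · rcases (gsys_Φ C c0 g f).1 hf with rfl | ⟨φ, hφ, rfl⟩
        · simp only
          rw [mv_eq, hgy, hyh]
          linarith
        · rw [mv_eq, hgy, dotProduct_smul, smul_eq_mul]
          exact mul_pos hk (hΦ φ hφ)
      · obtain ⟨s', hs', rfl⟩ := (gsys_N C c0 g _).1 hw
        rw [gsys_h C, gsys_h C, hgs, mv_eq, hgy] at hew
        rcases (gsys_Φ C c0 (g * s') f).1 hf with rfl | ⟨φ, hφ, rfl⟩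
        · simp only
          rw [hgs, hgy, hew, hyh]
          linarith
        · rcases halt s' hs' with h1 | h1
          · exfalso
            rw [dotProduct_smul, dotProduct_smul, smul_eq_mul, smul_eq_mul] at hew
            have := mul_left_cancel₀ hk.ne' hew
            linarith
          · rw [mv_mul, hgy]
            show 0 < (φ ᵥ* ρ s'⁻¹) ⬝ᵥ (k • x)
            rw [dotProduct_smul, smul_eq_mul]
            exact mul_pos hk (h1 φ hφ)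
    · rw [gsys_h C, gsys_h C, hgs, mv_eq, hgy]
      exact hye

/-- **The group version of the local-to-global theorem.** -/
theorem gcert_main (C : GCert H ρ S h Φ x0 ε) (g : G) (hg : g ∉ H) :
    h ⬝ᵥ x0 < (h ᵥ* ρ g⁻¹) ⬝ᵥ x0 := by
  have hne : ((g : G ⧸ H)) ≠ ((1 : G) : G ⧸ H) := by
    intro he
    rw [eq_comm, QuotientGroup.eq] at he
    simp only [inv_one, one_mul] at he
    exact hg he
  have := (gcert_good C).main (g : G ⧸ H) hne
  rw [gsys_h C, gsys_h C, mv_one] at this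
  exact this

/-- elements that act trivially are in `H` -/
theorem gcert_ker (C : GCert H ρ S h Φ x0 ε) (g : G) (hg : ρ g = 1) : g ∈ H := by
  by_contra hn
  have := gcert_main C g hn
  have e : ρ g⁻¹ = 1 := by
    have : ρ g⁻¹ * ρ g = 1 := by rw [← map_mul]; simp
    rw [hg, mul_one] at this
    exact this
  rw [e, vecMul_one] at this
  exact lt_irrefl _ this

end Pool.Agent.Lib.MP_d585ae_al.Tile
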