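import Pool.Agent.Lib.MP_d585ae_al.Tile.Fin

/-!
# Krammer's matrices
-/

namespace Pool.Agent.Lib.MP_d585ae_al.Tile

open Matrix

/-- The pairs `i < j` of strands: the index set of the basis `x_{i,j}`. -/
abbrev Pr (n : ℕ) := {p : Fin n × Fin n // p.1 < p.2}

/-- The coefficient of `x_{a,b}` in `σ_k x_{i,j}` (Krammer, Braid groups are linear). -/
def kCoef {R : Type*} [CommRing R] (q t : R) (k i j a b : ℕ) : R :=
  let e : ℕ → ℕ → R := fun c d => if a = c ∧ b = d then 1 else 0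
  if i = k ∧ j = k + 1 then t * q ^ 2 * e k (k + 1)
  else if j = k then (1 - q) * e i k + q * e i (k + 1)
  else if j = k + 1 then e i k + t * q ^ (k - i + 1) * (q - 1) * e k (k + 1)
  else if i = k then t * q * (q - 1) * e k (k + 1) + q * e (k + 1) j
  else if i = k + 1 then e k j + (1 - q) * e (k + 1) j
  else if i < k ∧ k + 1 < j then e i j + t * q ^ (k - i) * (q - 1) ^ 2 * e k (k + 1)
  else e i j

/-- Krammer's matrix of `σ_k`; the column with index `(i, j)` is the image of `x_{i,j}`. -/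
def krammer {R : Type*} [CommRing R] (n : ℕ) (q t : R) (k : Fin (n - 1)) :
    Matrix (Pr n) (Pr n) R :=
  Matrix.of fun p r => kCoef q t k r.1.1 r.1.2 p.1.1 p.1.2

/-- the six pairs -/
def prs : Fin 6 → Pr 4 :=
  ![⟨(0, 1), by decide⟩, ⟨(1, 2), by decide⟩, ⟨(2, 3), by decide⟩, ⟨(0, 3), by decide⟩,
    ⟨(0, 2), by decide⟩, ⟨(1, 3), by decide⟩]

theorem prs_inj : Function.Injective prs := by decide +kernel
theorem prs_surj : Function.Surjective prs := by decide +kernel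

/-- the numbering of the pairs -/
noncomputable def prE : Fin 6 ≃ Pr 4 := Equiv.ofBijective prs ⟨prs_inj, prs_surj⟩

/-- the base change -/
def mX : M6 :=
  ⟨⟨20736, 0, 0, 0, 0, 0⟩, ⟨0, 10800, 0, 0, -7920, 0⟩, ⟨0, 0, 5625, -1100, 0, -4125⟩,
    ⟨0, 0, 0, 10800, 0, 0⟩, ⟨0, 0, 0, 0, 20736, 0⟩, ⟨0, 0, 0, -7920, 0, 10800⟩⟩

/-- `38880000` times the inverse of the base change -/
def mX' : M6 :=
  ⟨⟨1875, 0, 0, 0, 0, 0⟩, ⟨0, 3600, 0, 0, 1375, 0⟩, ⟨0, 0, 6912, 2640, 0, 2640⟩,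
    ⟨0, 0, 0, 3600, 0, 0⟩, ⟨0, 0, 0, 0, 1875, 0⟩, ⟨0, 0, 0, 2640, 0, 3600⟩⟩

theorem mX_mul : mX.mul mX' = M6.one.smul 38880000 := by decide +kernel
theorem mX_mul' : mX'.mul mX = M6.one.smul 38880000 := by decide +kernel

/-- the base change as an invertible matrix -/
noncomputable def uX : GL (Fin 6) ℚ where
  val := M6.sc 1 mX
  inv := M6.sc (1 / 38880000) mX'
  val_inv := by
    rw [M6.sc_mul, mX_mul, M6.sc_smul]
    norm_num
    exact M6.sc_one
  inv_val := by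
    rw [M6.sc_mul, mX_mul', M6.sc_smul]
    norm_num
    exact M6.sc_one

/-- Krammer's matrices, as rational arrays -/
theorem krammer_val (k : Fin 3) :
    krammer 4 (4 / 15 : ℚ) (625 / 2304) k = Matrix.reindex prE prE
      (M6.sc (1 / (3 * 216000 * 38880000)) ((mX'.mul (mA k)).mul mX)) := by
  have key : ∀ k : Fin 3, ∀ a b : Fin 6,
      krammer 4 (4 / 15 : ℚ) (625 / 2304) k (prs a) (prs b) =
      M6.sc (1 / (3 * 216000 * 38880000)) ((mX'.mul (mA k)).mul mX) a b := by decide +kernel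
  ext p r
  obtain ⟨a, rfl⟩ := prs_surj p
  obtain ⟨b, rfl⟩ := prs_surj r
  rw [key]
  show _ = M6.sc (1 / (3 * 216000 * 38880000)) ((mX'.mul (mA k)).mul mX)
    (prE.symm (prs a)) (prE.symm (prs b))
  have h : ∀ a, prE.symm (prs a) = a := fun a => by
    rw [Equiv.symm_apply_eq]
    rfl
  rw [h, h]

/-- one third -/
noncomputable def u3 : ℚˣ := Units.mk0 (1 / 3 : ℚ) (by norm_num)

/-- Krammer's representation of the braid group on four strands at the rational point -/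
noncomputable def kramRep : Braid 4 →* GL (Pr 4) ℚ :=
  (Units.map (Matrix.reindexAlgEquiv ℚ ℚ prE).toAlgHom.toRingHom.toMonoidHom).comp
    ((MulAut.conj uX⁻¹).toMonoidHom.comp (rhoF u3))

theorem kramRep_of (k : Fin 3) :
    ((kramRep (PresentedGroup.of k) : GL (Pr 4) ℚ) : Matrix (Pr 4) (Pr 4) ℚ) =
      krammer 4 (4 / 15 : ℚ) (625 / 2304) k := by
  rw [krammer_val]
  have h1 : ((kramRep (PresentedGroup.of k) : GL (Pr 4) ℚ) : Matrix (Pr 4) (Pr 4) ℚ) =
      Matrix.reindex prE prE ((uX⁻¹ * rhoF u3 (PresentedGroup.of k) * uX : GL (Fin 6) ℚ) :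
        Matrix (Fin 6) (Fin 6) ℚ) := by
    unfold kramRep
    show Matrix.reindex prE prE ((uX⁻¹ * rhoF u3 (PresentedGroup.of k) * (uX⁻¹)⁻¹ :
      GL (Fin 6) ℚ) : Matrix (Fin 6) (Fin 6) ℚ) = _
    rw [inv_inv]
  rw [h1]
  congr 1
  have h2 : ((rhoF u3 (PresentedGroup.of k) : GL (Fin 6) ℚ) : Matrix (Fin 6) (Fin 6) ℚ) =
      (1 / 3 : ℚ) • sA ℚ k := by
    have e1 : ((rhoF u3 (PresentedGroup.of k) : GL (Fin 6) ℚ) : Matrix (Fin 6) (Fin 6) ℚ) =
        algebraMap ℚ (Matrix (Fin 6) (Fin 6) ℚ) ((chi u3 (PresentedGroup.of k) : ℚˣ) : ℚ) *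
          ((rho ℚ (PresentedGroup.of k) : GL (Fin 6) ℚ) : Matrix (Fin 6) (Fin 6) ℚ) := rfl
    have e2 : ((chi u3 (PresentedGroup.of k) : ℚˣ) : ℚ) = 1 / 3 := by
      rw [chi_eq]
      have : expo (PresentedGroup.of k) = Multiplicative.ofAdd 1 := by
        unfold expo
        rw [homOf_of]
      rw [this, toAdd_ofAdd, zpow_one]
      rfl
    have e3 : ((rho ℚ (PresentedGroup.of k) : GL (Fin 6) ℚ) : Matrix (Fin 6) (Fin 6) ℚ) =
        sA ℚ k := by
      unfold rho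
      rw [homOf_of]
      rfl
    rw [e1, e2, e3, ← Algebra.smul_def]
  show (M6.sc (1 / 38880000) mX' : Matrix (Fin 6) (Fin 6) ℚ) *
    ((rhoF u3 (PresentedGroup.of k) : GL (Fin 6) ℚ) : Matrix (Fin 6) (Fin 6) ℚ) *
      M6.sc 1 mX = _
  rw [h2, Matrix.mul_smul, Matrix.smul_mul]
  unfold sA
  rw [M6.sc_mul, M6.sc_mul]
  unfold M6.sc
  rw [smul_smul]
  congr 1
  unfold D0
  norm_num

theorem kramRep_inj {D : Data} (hD : D.OK) : Function.Injective kramRep := by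
  have h := faithful_of_OK hD (u := u3) (by show (0 : ℚ) < 1 / 3; norm_num)
    (by show (1 / 3 : ℚ) ≠ 1; norm_num)
  have h1 : Function.Injective (Units.map
      (Matrix.reindexAlgEquiv ℚ ℚ prE).toAlgHom.toRingHom.toMonoidHom) := by
    apply Units.map_injective
    exact (Matrix.reindexAlgEquiv ℚ ℚ prE).injective
  exact h1.comp ((MulAut.conj uX⁻¹).injective.comp h)

end Pool.Agent.Lib.MP_d585ae_al.Tile
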