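import Mathlib

/-!
# Integer vectors of length six and a checker for linear inequalities
-/

namespace Pool.Agent.Lib.MP_d585ae_al.Tile

open Matrix

/-- an integer vector of length six -/
structure V6 where
  x0 : ℤ
  x1 : ℤ
  x2 : ℤ
  x3 : ℤ
  x4 : ℤ
  x5 : ℤ
deriving DecidableEq

/-- the entries -/
def V6.get (v : V6) : Fin 6 → ℤ := ![v.x0, v.x1, v.x2, v.x3, v.x4, v.x5]

/-- the real vector -/
def V6.toR (v : V6) : Fin 6 → ℝ := fun i => (v.get i : ℝ)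

def V6.add (v w : V6) : V6 :=
  ⟨v.x0 + w.x0, v.x1 + w.x1, v.x2 + w.x2, v.x3 + w.x3, v.x4 + w.x4, v.x5 + w.x5⟩

def V6.sub (v w : V6) : V6 :=
  ⟨v.x0 - w.x0, v.x1 - w.x1, v.x2 - w.x2, v.x3 - w.x3, v.x4 - w.x4, v.x5 - w.x5⟩

def V6.smul (c : ℤ) (w : V6) : V6 :=
  ⟨c * w.x0, c * w.x1, c * w.x2, c * w.x3, c * w.x4, c * w.x5⟩

def V6.dot (v w : V6) : ℤ :=
  v.x0 * w.x0 + v.x1 * w.x1 + v.x2 * w.x2 + v.x3 * w.x3 + v.x4 * w.x4 + v.x5 * w.x5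

/-- the row vector times the permutation matrix of `δ` -/
def V6.rot (v : V6) : V6 := ⟨v.x1, v.x2, v.x3, v.x0, v.x5, v.x4⟩

/-- rotation, several times -/
def V6.rots (v : V6) : ℕ → V6
  | 0 => v
  | n + 1 => (v.rots n).rot

theorem V6.toR_add (v w : V6) : (v.add w).toR = v.toR + w.toR := by
  ext i
  fin_cases i <;> simp [V6.toR, V6.get, V6.add]

theorem V6.toR_sub (v w : V6) : (v.sub w).toR = v.toR - w.toR := by
  ext i
  fin_cases i <;> simp [V6.toR, V6.get, V6.sub]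

theorem V6.toR_smul (c : ℤ) (w : V6) : (V6.smul c w).toR = (c : ℝ) • w.toR := by
  ext i
  fin_cases i <;> simp [V6.toR, V6.get, V6.smul]

theorem V6.dot_toR (v w : V6) : v.toR ⬝ᵥ w.toR = ((v.dot w : ℤ) : ℝ) := by
  simp only [dotProduct, Fin.sum_univ_six, V6.toR, V6.get, V6.dot]
  push_cast
  simp

/-- an integer matrix, given by its rows -/
structure M6 where
  r0 : V6
  r1 : V6
  r2 : V6
  r3 : V6
  r4 : V6
  r5 : V6
deriving DecidableEq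

/-- the matrix -/
def M6.mat (A : M6) : Matrix (Fin 6) (Fin 6) ℤ :=
  Matrix.of ![A.r0.get, A.r1.get, A.r2.get, A.r3.get, A.r4.get, A.r5.get]

/-- row vector times matrix -/
def V6.mulM (v : V6) (A : M6) : V6 :=
  ⟨v.x0 * A.r0.x0 + v.x1 * A.r1.x0 + v.x2 * A.r2.x0 + v.x3 * A.r3.x0 + v.x4 * A.r4.x0 +
      v.x5 * A.r5.x0,
    v.x0 * A.r0.x1 + v.x1 * A.r1.x1 + v.x2 * A.r2.x1 + v.x3 * A.r3.x1 + v.x4 * A.r4.x1 +
      v.x5 * A.r5.x1,
    v.x0 * A.r0.x2 + v.x1 * A.r1.x2 + v.x2 * A.r2.x2 + v.x3 * A.r3.x2 + v.x4 * A.r4.x2 +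
      v.x5 * A.r5.x2,
    v.x0 * A.r0.x3 + v.x1 * A.r1.x3 + v.x2 * A.r2.x3 + v.x3 * A.r3.x3 + v.x4 * A.r4.x3 +
      v.x5 * A.r5.x3,
    v.x0 * A.r0.x4 + v.x1 * A.r1.x4 + v.x2 * A.r2.x4 + v.x3 * A.r3.x4 + v.x4 * A.r4.x4 +
      v.x5 * A.r5.x4,
    v.x0 * A.r0.x5 + v.x1 * A.r1.x5 + v.x2 * A.r2.x5 + v.x3 * A.r3.x5 + v.x4 * A.r4.x5 +
      v.x5 * A.r5.x5⟩

/-- matrix product -/
def M6.mul (A B : M6) : M6 :=
  ⟨A.r0.mulM B, A.r1.mulM B, A.r2.mulM B, A.r3.mulM B, A.r4.mulM B, A.r5.mulM B⟩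

/-- scalar multiple -/
def M6.smul (c : ℤ) (A : M6) : M6 :=
  ⟨A.r0.smul c, A.r1.smul c, A.r2.smul c, A.r3.smul c, A.r4.smul c, A.r5.smul c⟩

/-- the identity -/
def M6.one : M6 :=
  ⟨⟨1, 0, 0, 0, 0, 0⟩, ⟨0, 1, 0, 0, 0, 0⟩, ⟨0, 0, 1, 0, 0, 0⟩, ⟨0, 0, 0, 1, 0, 0⟩,
    ⟨0, 0, 0, 0, 1, 0⟩, ⟨0, 0, 0, 0, 0, 1⟩⟩

/-- matrix times column vector -/
def M6.mulV (A : M6) (v : V6) : V6 :=
  ⟨A.r0.dot v, A.r1.dot v, A.r2.dot v, A.r3.dot v, A.r4.dot v, A.r5.dot v⟩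

theorem V6.mulM_get (v : V6) (A : M6) : (v.mulM A).get = v.get ᵥ* A.mat := by
  ext i
  fin_cases i <;>
    simp [V6.get, V6.mulM, M6.mat, vecMul, dotProduct, Fin.sum_univ_six]

theorem M6.mul_mat (A B : M6) : (A.mul B).mat = A.mat * B.mat := by
  ext i j
  have h : ∀ v : V6, ∀ j, (v.mulM B).get j = (v.get ᵥ* B.mat) j := fun v j => by
    rw [V6.mulM_get]
  fin_cases i
  · exact h A.r0 j
  · exact h A.r1 j
  · exact h A.r2 j
  · exact h A.r3 j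
  · exact h A.r4 j
  · exact h A.r5 j

theorem V6.smul_get (c : ℤ) (v : V6) : (V6.smul c v).get = c • v.get := by
  ext i
  fin_cases i <;> simp [V6.get, V6.smul]

theorem M6.smul_mat (c : ℤ) (A : M6) : (A.smul c).mat = c • A.mat := by
  ext i j
  fin_cases i
  · exact congrFun (V6.smul_get c A.r0) j
  · exact congrFun (V6.smul_get c A.r1) j
  · exact congrFun (V6.smul_get c A.r2) j
  · exact congrFun (V6.smul_get c A.r3) j
  · exact congrFun (V6.smul_get c A.r4) j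
  · exact congrFun (V6.smul_get c A.r5) j

theorem M6.one_mat : M6.one.mat = 1 := by
  ext i j
  fin_cases i <;> fin_cases j <;> rfl

theorem M6.mulV_get (A : M6) (v : V6) : (A.mulV v).get = A.mat *ᵥ v.get := by
  ext i
  fin_cases i <;>
    simp [V6.get, M6.mulV, V6.dot, M6.mat, mulVec, dotProduct, Fin.sum_univ_six]

/-- the matrix over a field, scaled -/
def M6.sc {K : Type*} [Field K] (a : K) (A : M6) : Matrix (Fin 6) (Fin 6) K :=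
  a • A.mat.map (Int.cast : ℤ → K)

theorem M6.sc_mul {K : Type*} [Field K] (a b : K) (A B : M6) :
    M6.sc a A * M6.sc b B = M6.sc (a * b) (A.mul B) := by
  unfold M6.sc
  rw [M6.mul_mat, Matrix.map_mul_intCast, Matrix.smul_mul, Matrix.mul_smul, smul_smul]

theorem M6.sc_smul {K : Type*} [Field K] (a : K) (c : ℤ) (A : M6) :
    M6.sc a (A.smul c) = M6.sc (a * c) A := by
  unfold M6.sc
  rw [M6.smul_mat]
  ext i j
  show a * (((c • A.mat i j : ℤ)) : K) = (a * c) * ((A.mat i j : ℤ) : K)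
  rw [smul_eq_mul]
  push_cast
  ring

theorem M6.sc_one {K : Type*} [Field K] : M6.sc (1 : K) M6.one = 1 := by
  unfold M6.sc
  rw [M6.one_mat]
  ext i j
  simp [Matrix.one_apply]

theorem V6.toR_mulM (v : V6) (A : M6) (a : ℝ) :
    v.toR ᵥ* M6.sc a A = a • (v.mulM A).toR := by
  ext j
  have h1 : ((v.mulM A).get j : ℝ) = ∑ i, (v.get i : ℝ) * (A.mat i j : ℝ) := by
    rw [V6.mulM_get]
    simp [vecMul, dotProduct]
  show ∑ i, v.toR i * (M6.sc a A) i j = a * ((v.mulM A).get j : ℝ)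
  rw [h1, Finset.mul_sum]
  apply Finset.sum_congr rfl
  intro i _
  simp only [V6.toR, M6.sc, Matrix.smul_apply, Matrix.map_apply, smul_eq_mul]
  ring

theorem V6.toR_mulV (v : V6) (A : M6) (a : ℝ) :
    M6.sc a A *ᵥ v.toR = a • (A.mulV v).toR := by
  ext i
  have h1 : ((A.mulV v).get i : ℝ) = ∑ j, (A.mat i j : ℝ) * (v.get j : ℝ) := by
    rw [M6.mulV_get]
    simp [mulVec, dotProduct]
  show ∑ j, (M6.sc a A) i j * v.toR j = a * ((A.mulV v).get i : ℝ)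
  rw [h1, Finset.mul_sum]
  apply Finset.sum_congr rfl
  intro j _
  simp only [V6.toR, M6.sc, Matrix.smul_apply, Matrix.map_apply, smul_eq_mul]
  ring

/-! ## Certificates -/

/-- A certificate for `0 ≤ v · x`: the multiplier `m`, the slack `ρ`, walls (coefficient, index,
rotation), neighbours (coefficient, index). -/
structure Cert where
  m : ℕ
  ρ : ℕ
  ws : List (ℕ × ℕ × ℕ)
  gs : List (ℕ × ℕ)

/-- subtract the walls of the certificate -/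
def subW (n : ℕ) (W : ℕ → V6) : List (ℕ × ℕ × ℕ) → V6 → V6
  | [], v => v
  | p :: l, v => subW n W l (v.sub (V6.smul p.1 ((W (p.2.1 % n)).rots p.2.2)))

/-- subtract the neighbours of the certificate -/
def subG (g : ℕ → V6) : List (ℕ × ℕ) → V6 → V6
  | [], v => v
  | p :: l, v => subG g l (v.sub (V6.smul p.1 (g (p.2 % 12))))

/-- the weighted norm of the residue -/
def V6.nrm (C v : V6) : ℤ :=
  C.x0 * |v.x0| + C.x1 * |v.x1| + C.x2 * |v.x2| + C.x3 * |v.x3| + C.x4 * |v.x4| + C.x5 * |v.x5|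

/-- the check of a certificate -/
def Cert.ok (n : ℕ) (W : ℕ → V6) (g : ℕ → V6) (h C : V6) (c : Cert) (v : V6) : Bool :=
  decide (0 < c.m) &&
  decide (V6.nrm C (subG g c.gs (subW n W c.ws ((V6.smul c.m v).sub (V6.smul c.ρ h)))) ≤ c.ρ)

theorem subW_dot (n : ℕ) (W : ℕ → V6) (x : Fin 6 → ℝ) (hn : 0 < n)
    (hW : ∀ i < n, ∀ r, 0 ≤ ((W i).rots r).toR ⬝ᵥ x) (l : List (ℕ × ℕ × ℕ)) :
    ∀ v : V6, (subW n W l v).toR ⬝ᵥ x ≤ v.toR ⬝ᵥ x := by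
  induction l with
  | nil => intro v; exact le_rfl
  | cons p l ih =>
    intro v
    refine le_trans (ih _) ?_
    rw [V6.toR_sub, V6.toR_smul, sub_dotProduct, smul_dotProduct, smul_eq_mul]
    have h1 := hW (p.2.1 % n) (Nat.mod_lt _ hn) p.2.2
    have h2 : (0 : ℝ) ≤ ((p.1 : ℤ) : ℝ) := by exact_mod_cast Int.natCast_nonneg p.1
    have := mul_nonneg h2 h1
    linarith

theorem subG_dot (g : ℕ → V6) (x : Fin 6 → ℝ)
    (hg : ∀ i < 12, 0 ≤ (g i).toR ⬝ᵥ x) (l : List (ℕ × ℕ)) :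
    ∀ v : V6, (subG g l v).toR ⬝ᵥ x ≤ v.toR ⬝ᵥ x := by
  induction l with
  | nil => intro v; exact le_rfl
  | cons p l ih =>
    intro v
    refine le_trans (ih _) ?_
    rw [V6.toR_sub, V6.toR_smul, sub_dotProduct, smul_dotProduct, smul_eq_mul]
    have h1 := hg (p.2 % 12) (Nat.mod_lt _ (by norm_num))
    have h2 : (0 : ℝ) ≤ ((p.1 : ℤ) : ℝ) := by exact_mod_cast Int.natCast_nonneg p.1
    have := mul_nonneg h2 h1
    linarith

theorem nrm_dot (C v : V6) (x : Fin 6 → ℝ) (H : ℝ)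
    (hC : ∀ i, |x i| ≤ (C.get i : ℝ) * H) : -(((V6.nrm C v : ℤ) : ℝ) * H) ≤ v.toR ⬝ᵥ x := by
  have key : ∀ i, -((C.get i : ℝ) * |(v.get i : ℝ)| * H) ≤ v.toR i * x i := by
    intro i
    have h1 : |v.toR i * x i| ≤ |(v.get i : ℝ)| * ((C.get i : ℝ) * H) := by
      rw [abs_mul]
      exact mul_le_mul_of_nonneg_left (hC i) (abs_nonneg _)
    have h2 := neg_le_of_abs_le h1
    linarith
  have e : ((V6.nrm C v : ℤ) : ℝ) * H = ∑ i, (C.get i : ℝ) * |(v.get i : ℝ)| * H := by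
    rw [Fin.sum_univ_six]
    simp only [V6.nrm, V6.get]
    push_cast
    ring
  rw [e, ← Finset.sum_neg_distrib]
  exact Finset.sum_le_sum fun i _ => key i

theorem Cert.sound {n : ℕ} {W : ℕ → V6} {g : ℕ → V6} {h C : V6} {c : Cert} {v : V6}
    (hok : c.ok n W g h C v = true) {x : Fin 6 → ℝ} (hn : 0 < n)
    (hW : ∀ i < n, ∀ r, 0 ≤ ((W i).rots r).toR ⬝ᵥ x) (hg : ∀ i < 12, 0 ≤ (g i).toR ⬝ᵥ x)
    (hh : 0 ≤ h.toR ⬝ᵥ x) (hC : ∀ i, |x i| ≤ (C.get i : ℝ) * (h.toR ⬝ᵥ x)) :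
    0 ≤ v.toR ⬝ᵥ x := by
  unfold Cert.ok at hok
  rw [Bool.and_eq_true, decide_eq_true_eq, decide_eq_true_eq] at hok
  obtain ⟨hm, hr⟩ := hok
  have h1 := subG_dot g x hg c.gs (subW n W c.ws ((V6.smul c.m v).sub (V6.smul c.ρ h)))
  have h2 := subW_dot n W x hn hW c.ws ((V6.smul c.m v).sub (V6.smul c.ρ h))
  have h3 := nrm_dot C (subG g c.gs (subW n W c.ws ((V6.smul c.m v).sub (V6.smul c.ρ h))))
    x (h.toR ⬝ᵥ x) hC
  rw [V6.toR_sub, V6.toR_smul, V6.toR_smul, sub_dotProduct, smul_dotProduct, smul_dotProduct,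
    smul_eq_mul, smul_eq_mul] at h2
  have h4 : ((V6.nrm C (subG g c.gs (subW n W c.ws
      ((V6.smul c.m v).sub (V6.smul c.ρ h)))) : ℤ) : ℝ) * (h.toR ⬝ᵥ x) ≤
      ((c.ρ : ℤ) : ℝ) * (h.toR ⬝ᵥ x) :=
    mul_le_mul_of_nonneg_right (by exact_mod_cast hr) hh
  have h5 : 0 ≤ ((c.m : ℤ) : ℝ) * (v.toR ⬝ᵥ x) := by linarith
  have h6 : (0 : ℝ) < ((c.m : ℤ) : ℝ) := by exact_mod_cast hm
  exact nonneg_of_mul_nonneg_right h5 h6

/-- the exact check of a certificate -/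
def Cert.ok0 (n : ℕ) (W : ℕ → V6) (g : ℕ → V6) (c : Cert) (v : V6) : Bool :=
  decide (0 < c.m) && decide (subG g c.gs (subW n W c.ws (V6.smul c.m v)) = ⟨0, 0, 0, 0, 0, 0⟩)

theorem Cert.sound0 {n : ℕ} {W : ℕ → V6} {g : ℕ → V6} {c : Cert} {v : V6}
    (hok : c.ok0 n W g v = true) {x : Fin 6 → ℝ} (hn : 0 < n)
    (hW : ∀ i < n, ∀ r, 0 ≤ ((W i).rots r).toR ⬝ᵥ x) (hg : ∀ i < 12, 0 ≤ (g i).toR ⬝ᵥ x) :
    0 ≤ v.toR ⬝ᵥ x := by
  unfold Cert.ok0 at hok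
  rw [Bool.and_eq_true, decide_eq_true_eq, decide_eq_true_eq] at hok
  obtain ⟨hm, hr⟩ := hok
  have h1 := subG_dot g x hg c.gs (subW n W c.ws (V6.smul c.m v))
  have h2 := subW_dot n W x hn hW c.ws (V6.smul c.m v)
  rw [hr] at h1
  have h0 : (⟨0, 0, 0, 0, 0, 0⟩ : V6).toR ⬝ᵥ x = 0 := by
    simp [dotProduct, Fin.sum_univ_six, V6.toR, V6.get]
  rw [h0] at h1
  rw [V6.toR_smul, smul_dotProduct, smul_eq_mul] at h2
  have h5 : 0 ≤ ((c.m : ℤ) : ℝ) * (v.toR ⬝ᵥ x) := by linarith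
  have h6 : (0 : ℝ) < ((c.m : ℤ) : ℝ) := by exact_mod_cast hm
  exact nonneg_of_mul_nonneg_right h5 h6

end Pool.Agent.Lib.MP_d585ae_al.Tile
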