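import Pool.Agent.Lib.MP_d585ae_al.Tile.Grp
import Pool.Agent.Lib.MP_d585ae_al.Tile.BGrp
import Pool.Agent.Lib.MP_d585ae_al.Tile.V6

/-!
# The six-dimensional representation of the braid group on four strands at a rational point

Lawrence-Krammer-Bigelow representation at `q = 4/15`, `√t = 25/48`, divided by `1/3`, in a basis
in which `δ = σ₁ σ₂ σ₃` acts by a permutation matrix. All matrices are integer matrices divided
by `D0 = 216000`.
-/

namespace Pool.Agent.Lib.MP_d585ae_al.Tile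

open Matrix

/-- `D0` times the matrix of the dual generator 0 -/
def mA0 : M6 :=
  ⟨⟨12500, 0, 0, -66000, -34375, 0⟩,
    ⟨0, 0, 0, 0, 90000, 0⟩,
    ⟨0, 0, 648000, 0, 0, 0⟩,
    ⟨0, 0, 0, 475200, 0, 648000⟩,
    ⟨0, 1244160, 0, 0, 475200, 0⟩,
    ⟨0, 0, 0, 172800, 0, 0⟩⟩

/-- `D0` times the matrix of the dual generator 1 -/
def mA1 : M6 :=
  ⟨⟨475200, 0, 0, 0, 648000, 0⟩,
    ⟨-66000, 12500, 0, 0, 0, -34375⟩,
    ⟨0, 0, 0, 0, 0, 90000⟩,
    ⟨0, 0, 0, 648000, 0, 0⟩,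
    ⟨172800, 0, 0, 0, 0, 0⟩,
    ⟨0, 0, 1244160, 0, 0, 475200⟩⟩

/-- `D0` times the matrix of the dual generator 2 -/
def mA2 : M6 :=
  ⟨⟨648000, 0, 0, 0, 0, 0⟩,
    ⟨0, 475200, 0, 0, 0, 648000⟩,
    ⟨0, -66000, 12500, 0, -34375, 0⟩,
    ⟨0, 0, 0, 0, 90000, 0⟩,
    ⟨0, 0, 0, 1244160, 475200, 0⟩,
    ⟨0, 172800, 0, 0, 0, 0⟩⟩

/-- `D0` times the matrix of the dual generator 3 -/
def mA3 : M6 :=
  ⟨⟨0, 0, 0, 0, 0, 90000⟩,
    ⟨0, 648000, 0, 0, 0, 0⟩,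
    ⟨0, 0, 475200, 0, 648000, 0⟩,
    ⟨0, 0, -66000, 12500, 0, -34375⟩,
    ⟨0, 0, 172800, 0, 0, 0⟩,
    ⟨1244160, 0, 0, 0, 0, 475200⟩⟩

/-- `D0` times the matrix of the dual generator 4 -/
def mA4 : M6 :=
  ⟨⟨0, 90000, 0, 0, 0, -247500⟩,
    ⟨1244160, 475200, 0, 0, 0, 475200⟩,
    ⟨0, 0, 0, 90000, 0, -247500⟩,
    ⟨0, 0, 1244160, 475200, 0, 475200⟩,
    ⟨0, -66000, 0, -66000, 12500, 181500⟩,
    ⟨0, 0, 0, 0, 0, 648000⟩⟩

/-- `D0` times the matrix of the dual generator 5 -/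
def mA5 : M6 :=
  ⟨⟨475200, 0, 0, 1244160, 475200, 0⟩,
    ⟨0, 0, 90000, 0, -247500, 0⟩,
    ⟨0, 1244160, 475200, 0, 475200, 0⟩,
    ⟨90000, 0, 0, 0, -247500, 0⟩,
    ⟨0, 0, 0, 0, 648000, 0⟩,
    ⟨-66000, 0, -66000, 0, 181500, 12500⟩⟩

/-- `D0` times the matrix of the dual generator 6 -/
def mA6 : M6 :=
  ⟨⟨3732480, 1425600, 0, 0, 0, 1425600⟩,
    ⟨0, -198000, 0, 0, 37500, 0⟩,
    ⟨0, 0, 72000, 0, 0, 0⟩,
    ⟨0, 0, 0, 0, 0, 270000⟩,
    ⟨0, 518400, 0, 0, 0, 0⟩,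
    ⟨0, 0, 0, 72000, 0, -198000⟩⟩

/-- `D0` times the matrix of the dual generator 7 -/
def mA7 : M6 :=
  ⟨⟨0, 0, 0, 0, 270000, 0⟩,
    ⟨0, 3732480, 1425600, 0, 1425600, 0⟩,
    ⟨0, 0, -198000, 0, 0, 37500⟩,
    ⟨0, 0, 0, 72000, 0, 0⟩,
    ⟨72000, 0, 0, 0, -198000, 0⟩,
    ⟨0, 0, 518400, 0, 0, 0⟩⟩

/-- `D0` times the matrix of the dual generator 8 -/
def mA8 : M6 :=
  ⟨⟨72000, 0, 0, 0, 0, 0⟩,
    ⟨0, 0, 0, 0, 0, 270000⟩,
    ⟨0, 0, 3732480, 1425600, 0, 1425600⟩,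
    ⟨0, 0, 0, -198000, 37500, 0⟩,
    ⟨0, 0, 0, 518400, 0, 0⟩,
    ⟨0, 72000, 0, 0, 0, -198000⟩⟩

/-- `D0` times the matrix of the dual generator 9 -/
def mA9 : M6 :=
  ⟨⟨-198000, 0, 0, 0, 0, 37500⟩,
    ⟨0, 72000, 0, 0, 0, 0⟩,
    ⟨0, 0, 0, 0, 270000, 0⟩,
    ⟨1425600, 0, 0, 3732480, 1425600, 0⟩,
    ⟨0, 0, 72000, 0, -198000, 0⟩,
    ⟨518400, 0, 0, 0, 0, 0⟩⟩

/-- `D0` times the matrix of the dual generator 10 -/
def mA10 : M6 :=
  ⟨⟨-198000, 37500, 0, 0, 0, -103125⟩,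
    ⟨518400, 0, 0, 0, 0, 198000⟩,
    ⟨0, 0, -198000, 37500, 0, -103125⟩,
    ⟨0, 0, 518400, 0, 0, 198000⟩,
    ⟨2737152, 0, 2737152, 0, 3732480, 1045440⟩,
    ⟨0, 0, 0, 0, 0, 72000⟩⟩

/-- `D0` times the matrix of the dual generator 11 -/
def mA11 : M6 :=
  ⟨⟨0, 0, 0, 518400, 198000, 0⟩,
    ⟨0, -198000, 37500, 0, -103125, 0⟩,
    ⟨0, 518400, 0, 0, 198000, 0⟩,
    ⟨37500, 0, 0, -198000, -103125, 0⟩,
    ⟨0, 0, 0, 0, 72000, 0⟩,
    ⟨0, 2737152, 0, 2737152, 1045440, 3732480⟩⟩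

/-- `D0` times the matrices of the six dual generators and of their inverses -/
def mA : ℕ → M6
  | 0 => mA0
  | 1 => mA1
  | 2 => mA2
  | 3 => mA3
  | 4 => mA4
  | 5 => mA5
  | 6 => mA6
  | 7 => mA7
  | 8 => mA8
  | 9 => mA9
  | 10 => mA10
  | _ => mA11

/-- the permutation matrix of `δ` -/
def mP : M6 :=
  ⟨⟨0, 0, 0, 1, 0, 0⟩, ⟨1, 0, 0, 0, 0, 0⟩, ⟨0, 1, 0, 0, 0, 0⟩, ⟨0, 0, 1, 0, 0, 0⟩,
    ⟨0, 0, 0, 0, 0, 1⟩, ⟨0, 0, 0, 0, 1, 0⟩⟩

/-- the inverse permutation matrix -/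
def mP' : M6 :=
  ⟨⟨0, 1, 0, 0, 0, 0⟩, ⟨0, 0, 1, 0, 0, 0⟩, ⟨0, 0, 0, 1, 0, 0⟩, ⟨1, 0, 0, 0, 0, 0⟩,
    ⟨0, 0, 0, 0, 0, 1⟩, ⟨0, 0, 0, 0, 1, 0⟩⟩

/-- the common denominator -/
def D0 : ℤ := 216000

theorem mA_inv (i : ℕ) (hi : i < 6) : (mA i).mul (mA (i + 6)) = M6.one.smul (D0 * D0) := by
  have : ∀ i < 6, (mA i).mul (mA (i + 6)) = M6.one.smul (D0 * D0) := by decide +kernel
  exact this i hi

theorem mA_inv' (i : ℕ) (hi : i < 6) : (mA (i + 6)).mul (mA i) = M6.one.smul (D0 * D0) := by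
  have : ∀ i < 6, (mA (i + 6)).mul (mA i) = M6.one.smul (D0 * D0) := by decide +kernel
  exact this i hi

theorem mA_xz : (mA 0).mul (mA 2) = (mA 2).mul (mA 0) := by decide +kernel
theorem mA_xy : ((mA 0).mul (mA 1)).mul (mA 0) = ((mA 1).mul (mA 0)).mul (mA 1) := by
  decide +kernel
theorem mA_yz : ((mA 1).mul (mA 2)).mul (mA 1) = ((mA 2).mul (mA 1)).mul (mA 2) := by
  decide +kernel
theorem mA_delta : ((mA 0).mul (mA 1)).mul (mA 2) = mP.smul (D0 * D0 * D0) := by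
  decide +kernel
theorem mA_3 : (mA 3).mul mP = mP.mul (mA 2) := by decide +kernel
theorem mA_4 : (mA 4).mul (mA 0) = (mA 0).mul (mA 1) := by decide +kernel
theorem mA_5 : (mA 5).mul (mA 1) = (mA 1).mul (mA 2) := by decide +kernel
theorem mP_inv : mP.mul mP' = M6.one := by decide +kernel
theorem mP_inv' : mP'.mul mP = M6.one := by decide +kernel

section field

variable (K : Type*) [Field K] [CharZero K]

theorem D0_ne : (D0 : K) ≠ 0 := by
  unfold D0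
  norm_num

/-- the matrix of a dual generator -/
noncomputable def sA (i : ℕ) : Matrix (Fin 6) (Fin 6) K := M6.sc (1 / (D0 : K)) (mA i)

theorem sA_inv (i : ℕ) (hi : i < 6) : sA K i * sA K (i + 6) = 1 := by
  unfold sA
  rw [M6.sc_mul, mA_inv i hi, M6.sc_smul]
  have h := D0_ne K
  have e : (1 / (D0 : K) * (1 / (D0 : K)) * ((D0 * D0 : ℤ) : K)) = 1 := by
    push_cast
    field_simp
  rw [e, M6.sc_one]

theorem sA_inv' (i : ℕ) (hi : i < 6) : sA K (i + 6) * sA K i = 1 := by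
  unfold sA
  rw [M6.sc_mul, mA_inv' i hi, M6.sc_smul]
  have h := D0_ne K
  have e : (1 / (D0 : K) * (1 / (D0 : K)) * ((D0 * D0 : ℤ) : K)) = 1 := by
    push_cast
    field_simp
  rw [e, M6.sc_one]

theorem sA_xz : sA K 0 * sA K 2 = sA K 2 * sA K 0 := by
  unfold sA
  rw [M6.sc_mul, M6.sc_mul, mA_xz]

theorem sA_xy : sA K 0 * sA K 1 * sA K 0 = sA K 1 * sA K 0 * sA K 1 := by
  unfold sA
  rw [M6.sc_mul, M6.sc_mul, M6.sc_mul, M6.sc_mul, mA_xy]

theorem sA_yz : sA K 1 * sA K 2 * sA K 1 = sA K 2 * sA K 1 * sA K 2 := by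
  unfold sA
  rw [M6.sc_mul, M6.sc_mul, M6.sc_mul, M6.sc_mul, mA_yz]

theorem sA_delta : sA K 0 * sA K 1 * sA K 2 = M6.sc 1 mP := by
  unfold sA
  rw [M6.sc_mul, M6.sc_mul, mA_delta, M6.sc_smul]
  have h := D0_ne K
  congr 1
  push_cast
  field_simp

theorem sA_3 : sA K 3 * M6.sc 1 mP = M6.sc 1 mP * sA K 2 := by
  unfold sA
  rw [M6.sc_mul, M6.sc_mul, mA_3, mul_one, one_mul]

theorem sA_4 : sA K 4 * sA K 0 = sA K 0 * sA K 1 := by
  unfold sA
  rw [M6.sc_mul, M6.sc_mul, mA_4]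

theorem sA_5 : sA K 5 * sA K 1 = sA K 1 * sA K 2 := by
  unfold sA
  rw [M6.sc_mul, M6.sc_mul, mA_5]

theorem sP_inv : (M6.sc 1 mP : Matrix (Fin 6) (Fin 6) K) * M6.sc 1 mP' = 1 := by
  rw [M6.sc_mul, mP_inv, mul_one, M6.sc_one]

theorem sP_inv' : (M6.sc 1 mP' : Matrix (Fin 6) (Fin 6) K) * M6.sc 1 mP = 1 := by
  rw [M6.sc_mul, mP_inv', mul_one, M6.sc_one]

/-- the three generators as invertible matrices -/
noncomputable def gen (k : Fin 3) : GL (Fin 6) K :=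
  ⟨sA K k, sA K (k + 6), sA_inv K k (by omega), sA_inv' K k (by omega)⟩

theorem gen_BR : BR (gen K 0) (gen K 1) (gen K 2) where
  xz := Units.ext (sA_xz K)
  xy := Units.ext (sA_xy K)
  yz := Units.ext (sA_yz K)

end field

theorem rels_of_BR {G : Type*} [Group G] (f : Fin 3 → G) (h : BR (f 0) (f 1) (f 2)) :
    ∀ r ∈ braidRels 4, FreeGroup.lift f r = 1 := by
  rintro r (⟨i, j, hij, rfl⟩ | ⟨i, j, hij, rfl⟩)
  · have hi : i = (0 : Fin 3) := Fin.ext (by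
      have := i.isLt; have := j.isLt
      show i.val = 0
      omega)
    have hj : j = (2 : Fin 3) := Fin.ext (by
      have := i.isLt; have := j.isLt
      show j.val = 2
      omega)
    subst hi hj
    simp only [map_mul, map_inv, FreeGroup.lift_apply_of]
    rw [h.xz, mul_inv_cancel]
  · have hi : i = (0 : Fin 3) ∧ j = (1 : Fin 3) ∨ i = (1 : Fin 3) ∧ j = (2 : Fin 3) := by
      have h1 := i.isLt
      have h2 := j.isLt
      rcases Nat.lt_or_ge i.val 1 with h3 | h3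
      · left
        exact ⟨Fin.ext (by show i.val = 0; omega), Fin.ext (by show j.val = 1; omega)⟩
      · right
        exact ⟨Fin.ext (by show i.val = 1; omega), Fin.ext (by show j.val = 2; omega)⟩
    rcases hi with ⟨rfl, rfl⟩ | ⟨rfl, rfl⟩
    · simp only [map_mul, map_inv, FreeGroup.lift_apply_of]
      rw [h.xy, mul_inv_cancel]
    · simp only [map_mul, map_inv, FreeGroup.lift_apply_of]
      rw [h.yz, mul_inv_cancel]

/-- the homomorphism given by three elements satisfying the braid relations -/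
def homOf {G : Type*} [Group G] (f : Fin 3 → G) (h : BR (f 0) (f 1) (f 2)) : Braid 4 →* G :=
  PresentedGroup.toGroup (rels_of_BR f h)

theorem homOf_of {G : Type*} [Group G] (f : Fin 3 → G) (h : BR (f 0) (f 1) (f 2)) (k : Fin 3) :
    homOf f h (PresentedGroup.of k) = f k := PresentedGroup.toGroup.of (rels_of_BR f h)

/-- the generators of the braid group -/
def bx : Braid 4 := PresentedGroup.of (0 : Fin 3)
def by' : Braid 4 := PresentedGroup.of (1 : Fin 3)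
def bz : Braid 4 := PresentedGroup.of (2 : Fin 3)

theorem b_BR : BR bx by' bz := by
  have key : ∀ r ∈ braidRels 4, PresentedGroup.mk (braidRels 4) r = 1 := by
    intro r hr
    exact (PresentedGroup.mk_eq_one_iff).2 (Subgroup.subset_normalClosure hr)
  constructor
  · have := key _ (Or.inl ⟨(0 : Fin 3), (2 : Fin 3), by decide, rfl⟩)
    rw [map_mul, map_inv, map_mul, map_mul, mul_inv_eq_one] at this
    exact this
  · have := key _ (Or.inr ⟨(0 : Fin 3), (1 : Fin 3), by decide, rfl⟩)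
    rw [map_mul, map_inv, map_mul, map_mul, map_mul, map_mul, mul_inv_eq_one] at this
    exact this
  · have := key _ (Or.inr ⟨(1 : Fin 3), (2 : Fin 3), by decide, rfl⟩)
    rw [map_mul, map_inv, map_mul, map_mul, map_mul, map_mul, mul_inv_eq_one] at this
    exact this

/-- The representation over a field of characteristic zero -/
noncomputable def rho (K : Type*) [Field K] [CharZero K] : Braid 4 →* GL (Fin 6) K :=
  homOf (gen K) (gen_BR K)

/-- as matrices -/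
noncomputable def rhoM (K : Type*) [Field K] [CharZero K] :
    Braid 4 →* Matrix (Fin 6) (Fin 6) K := (Units.coeHom _).comp (rho K)

section values

variable (K : Type*) [Field K] [CharZero K]

theorem rhoM_bx : rhoM K bx = sA K 0 := by
  show ((rho K bx : GL (Fin 6) K) : Matrix (Fin 6) (Fin 6) K) = _
  unfold rho bx
  rw [homOf_of]
  rfl

theorem rhoM_by : rhoM K by' = sA K 1 := by
  show ((rho K by' : GL (Fin 6) K) : Matrix (Fin 6) (Fin 6) K) = _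
  unfold rho by'
  rw [homOf_of]
  rfl

theorem rhoM_bz : rhoM K bz = sA K 2 := by
  show ((rho K bz : GL (Fin 6) K) : Matrix (Fin 6) (Fin 6) K) = _
  unfold rho bz
  rw [homOf_of]
  rfl

theorem rhoM_delta : rhoM K (bx * by' * bz) = M6.sc 1 mP := by
  rw [map_mul, map_mul, rhoM_bx, rhoM_by, rhoM_bz, sA_delta]

theorem rhoM_inv_mul (g : Braid 4) : rhoM K g⁻¹ * rhoM K g = 1 := by
  rw [← map_mul, inv_mul_cancel, map_one]

theorem rhoM_mul_inv (g : Braid 4) : rhoM K g * rhoM K g⁻¹ = 1 := by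
  rw [← map_mul, mul_inv_cancel, map_one]

theorem rhoM_atm (i : Fin 6) : rhoM K (atm bx by' bz i) = sA K i := by
  have canc : ∀ {A B C C' : Matrix (Fin 6) (Fin 6) K}, C * C' = 1 → A * C = B * C → A = B := by
    intro A B C C' hC h
    calc A = A * (C * C') := by rw [hC, mul_one]
      _ = (A * C) * C' := by rw [mul_assoc]
      _ = (B * C) * C' := by rw [h]
      _ = B := by rw [mul_assoc, hC, mul_one]
  fin_cases i
  · exact rhoM_bx K
  · exact rhoM_by K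
  · exact rhoM_bz K
  · show rhoM K ((bx * by' * bz) * bz * (bx * by' * bz)⁻¹) = sA K 3
    apply canc (sP_inv K)
    rw [sA_3]
    nth_rewrite 1 [← rhoM_delta K]
    rw [← map_mul, inv_mul_cancel_right, map_mul, rhoM_delta, rhoM_bz]
  · show rhoM K (bx * by' * bx⁻¹) = sA K 4
    apply canc (sA_inv K 0 (by norm_num))
    rw [sA_4]
    nth_rewrite 1 [← rhoM_bx K]
    rw [← map_mul, inv_mul_cancel_right, map_mul, rhoM_bx, rhoM_by]
  · show rhoM K (by' * bz * by'⁻¹) = sA K 5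
    apply canc (sA_inv K 1 (by norm_num))
    rw [sA_5]
    nth_rewrite 1 [← rhoM_by K]
    rw [← map_mul, inv_mul_cancel_right, map_mul, rhoM_by, rhoM_bz]

theorem rhoM_atm_inv (i : Fin 6) : rhoM K (atm bx by' bz i)⁻¹ = sA K (i + 6) := by
  have h1 := rhoM_inv_mul K (atm bx by' bz i)
  rw [rhoM_atm] at h1
  have h2 := sA_inv K i i.isLt
  calc rhoM K (atm bx by' bz i)⁻¹ = rhoM K (atm bx by' bz i)⁻¹ * (sA K i * sA K (i + 6)) := by
        rw [h2, mul_one]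
    _ = (rhoM K (atm bx by' bz i)⁻¹ * sA K i) * sA K (i + 6) := by rw [mul_assoc]
    _ = sA K (i + 6) := by rw [h1, one_mul]

end values

end Pool.Agent.Lib.MP_d585ae_al.Tile
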