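import Pool.Agent.Lib.MP_d585ae_al.Tile.Check

/-!
# Storage of the walls and of the certificates
-/

namespace Pool.Agent.Lib.MP_d585ae_al.Tile

/-- a binary tree of vectors -/
inductive BT
  | leaf (v : V6)
  | node (l r : BT)

/-- lookup by the binary digits of the index -/
def BT.get : BT → ℕ → V6
  | .leaf v, _ => v
  | .node l r, n => bif Nat.beq (n % 2) 0 then l.get (n / 2) else r.get (n / 2)

/-- the certificates for one wall and the neighbours `t, t + 1, …, 11` -/
def checkRow (n : ℕ) (W : ℕ → V6) (hv C : V6) (w : V6) : ℕ → List Cert → Bool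
  | t, [] => Nat.ble 12 t
  | t, c :: l => c.ok n W (gvec hv) hv C (w.mulM (mA (opp t))) && checkRow n W hv C w (t + 1) l

/-- the certificates for the walls `s, s + 1, …, e - 1` -/
def checkFrom (n : ℕ) (W : ℕ → V6) (hv C : V6) (e : ℕ) : ℕ → List (List Cert) → Bool
  | s, [] => Nat.ble e s
  | s, l :: L => checkRow n W hv C (W s) 0 l && checkFrom n W hv C e (s + 1) L

theorem checkRow_sound {n : ℕ} {W : ℕ → V6} {hv C w : V6} (l : List Cert) :
    ∀ s, checkRow n W hv C w s l = true → ∀ t, s ≤ t → t < 12 →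
      ∃ c : Cert, c.ok n W (gvec hv) hv C (w.mulM (mA (opp t))) = true := by
  induction l with
  | nil =>
    intro s hs t h1 h2
    have : 12 ≤ s := Nat.le_of_ble_eq_true hs
    omega
  | cons c l ih =>
    intro s hs t h1 h2
    rw [checkRow, Bool.and_eq_true] at hs
    rcases Nat.eq_or_lt_of_le h1 with rfl | h
    · exact ⟨c, hs.1⟩
    · exact ih (s + 1) hs.2 t h h2

theorem checkFrom_sound {n : ℕ} {W : ℕ → V6} {hv C : V6} {e : ℕ} (L : List (List Cert)) :
    ∀ s, checkFrom n W hv C e s L = true → ∀ i, s ≤ i → i < e → ∀ t < 12,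
      ∃ c : Cert, c.ok n W (gvec hv) hv C ((W i).mulM (mA (opp t))) = true := by
  induction L with
  | nil =>
    intro s hs i h1 h2
    have : e ≤ s := Nat.le_of_ble_eq_true hs
    omega
  | cons l L ih =>
    intro s hs i h1 h2 t ht
    rw [checkFrom, Bool.and_eq_true] at hs
    rcases Nat.eq_or_lt_of_le h1 with rfl | h
    · exact checkRow_sound l 0 hs.1 t (Nat.zero_le _) ht
    · exact ih (s + 1) hs.2 i h h2 t ht

end Pool.Agent.Lib.MP_d585ae_al.Tile
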